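import Pool.Agent.H39x.LP.Main

/-!
# Project LP: two sequences with the same random digits have only finitely many common prime levels
-/

set_option autoImplicit false

namespace Pool.Agent.H39x.LP

open Finset Filter Topology MeasureTheory
open Pool.Agent.H305R2 (roughPart log_nat_tendsto)
open Pool.Agent.TH888.R (Sys wt wt_nonneg wt_le_one)

variable {b : ℕ} {κ a c₁ c₂ : ℝ} {A B : ℕ → ℕ}

theorem ph_mul_le' (A B : ℕ → ℕ) (S : ℝ) (p k : ℕ) : ph A p k * ph B p k ≤
    (open Classical in if gd A S p k ∧ gd B S p k then (1 : ℝ) else 0) + lph A S p k + lph B S p k := by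
  classical
  unfold ph lph gd
  by_cases h1 : (roughPart p (A p + k)).Prime
  · by_cases h2 : (roughPart p (B p + k)).Prime
    · by_cases h3 : (((A p + k) / roughPart p (A p + k) : ℕ) : ℝ) ≤ S
      · by_cases h4 : (((B p + k) / roughPart p (B p + k) : ℕ) : ℝ) ≤ S
        · simp only [h1, h2, h3, h4]; norm_num
        · simp only [h1, h2, h3, h4]; norm_num
      · by_cases h4 : (((B p + k) / roughPart p (B p + k) : ℕ) : ℝ) ≤ S
        · simp only [h1, h2, h3, h4]; norm_num
        · simp only [h1, h2, h3, h4]; norm_num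
    · simp only [h1, h2]
      norm_num
      split_ifs <;> norm_num
  · simp only [h1]
    norm_num
    split_ifs <;> norm_num

open Classical in
/-- **two sequences at the same level** -/
theorem Fam.same (h : Fam b κ a c₁ A) (h' : Fam b κ a c₂ B) (hAB : ∀ᶠ p : ℕ in atTop, A p ≠ B p) :
    ∃ K : ℝ, 0 < K ∧ ∀ᶠ p : ℕ in atTop,
      (∑ k ∈ range (b ^ ex κ p), ph A p k * ph B p k) / ((b ^ ex κ p : ℕ) : ℝ) ≤
        K * (Real.log p / p) ^ 2 := by
  classical
  have ha := h.ha
  have hl := h.l0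
  have hκ0 := h.κ0
  obtain ⟨E0, hE0⟩ : ∃ E0 : ℕ, a / Real.log b ≤ E0 := ⟨⌈a / Real.log b⌉₊, Nat.le_ceil _⟩
  rw [div_le_iff₀ hl] at hE0
  obtain ⟨E, hE⟩ : ∃ E : ℕ, E = E0 + 1 := ⟨_, rfl⟩
  have hEa : a ≤ E * Real.log b := by
    rw [hE]
    push_cast
    linarith
  have hE1' : 1 ≤ E := by omega
  obtain ⟨C, hC, hns⟩ := near_sieve h.hb (show (0 : ℝ) < a / 2 by positivity) (1 + 4 * E)
  obtain ⟨P1, hP1⟩ := eventually_atTop.1 (tail_one (show (0 : ℝ) < a / 8 by positivity))
  have e4 : ∀ᶠ q : ℕ in atTop, (q : ℝ) ≤ Real.exp (a / 8 * q) := by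
    have := tendsto_natCast_atTop_atTop.eventually
      (Pool.Agent.Q278.KS.ev_poly 1 1 (show (0 : ℝ) < a / 8 by positivity))
    filter_upwards [this] with q hq
    simpa using hq
  refine ⟨C + 4, by positivity, ?_⟩
  filter_upwards [hns, eventually_ge_atTop P1, h.size, h'.size, h.hA, h'.hA, e4, eventually_ge_atTop 12,
    tendsto_natCast_atTop_atTop.eventually_ge_atTop (|c₁| / a),
    tendsto_natCast_atTop_atTop.eventually_ge_atTop (|c₂| / a), log_nat_tendsto.eventually_ge_atTop 1,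
    tendsto_natCast_atTop_atTop.eventually_ge_atTop (Real.log b / (0.0834 * a)), hAB] with
    p hns p1 hAp hBp hA3 hB3 hp4 hp12 hpc hpc' hl1 hplb hne
  rw [div_le_iff₀ (by positivity)] at hplb
  have hp0 : (0 : ℝ) < p := by exact_mod_cast (by omega : 0 < p)
  set m := b ^ ex κ p with hm
  have hb0 : 0 < b := by have := h.hb; omega
  have hm0' : 0 < m := by rw [hm]; positivity
  have hm0 : (0 : ℝ) < m := by exact_mod_cast hm0'
  have hBple := h.B_le p
  rw [← hm] at hBple
  -- the sizes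
  obtain ⟨S, hS⟩ : ∃ S : ℝ, S = Real.exp (a / 8 * p) := ⟨_, rfl⟩
  have hS1 : 1 ≤ S := by rw [hS]; exact Real.one_le_exp (by positivity)
  have hS0 : 0 < S := by linarith
  have hhalf : a * ((1 / 2) * p) ≤ Real.log b * ex κ p := by
    have h1 := mul_le_mul_of_nonneg_left (ex_bounds hκ0 p).1.le hl.le
    have e : Real.log b * (κ * p - 1) = (κ * Real.log b) * p - Real.log b := by ring
    rw [e] at h1
    have h2 : 0.5834 * a * p ≤ (κ * Real.log b) * p := mul_le_mul_of_nonneg_right h.hκ.le (by positivity)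
    linarith
  have hSp : S * p ≤ m := by
    rw [hS]
    calc Real.exp (a / 8 * p) * p ≤ Real.exp (a / 8 * p) * Real.exp (a / 8 * p) := by gcongr
      _ = Real.exp (a / 4 * p) := by rw [← Real.exp_add]; congr 1; ring
      _ ≤ Real.exp (a * ((1 / 2) * p)) := by
          rw [Real.exp_le_exp]
          have : 0 ≤ a * p := by positivity
          linarith
      _ ≤ Real.exp (Real.log b * ex κ p) := Real.exp_le_exp.2 hhalf
      _ = _ := (pow_exp h.hb _).symm
  have hE1 : 1 ≤ Real.exp (κ * (Real.log b * p)) := Real.one_le_exp (by positivity)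
  have hbig : 4 * Real.exp (κ * (Real.log b * p)) ≤ 4 * (p : ℝ) ^ 2 * Real.exp (κ * (Real.log b * p)) := by
    have h1 : (1 : ℝ) ≤ p := by exact_mod_cast (by omega : 1 ≤ p)
    have h2 : (1 : ℝ) ≤ (p : ℝ) ^ 2 := one_le_pow₀ h1
    refine mul_le_mul_of_nonneg_right ?_ (by linarith)
    linarith
  have hAp4 : 4 * Real.exp (κ * (Real.log b * p)) ≤ A p := hbig.trans hAp
  have hBp4 : 4 * Real.exp (κ * (Real.log b * p)) ≤ B p := hbig.trans hBp
  have hAp1 : 4 ≤ A p := by
    have : (4 : ℝ) ≤ A p := by linarith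
    exact_mod_cast this
  have hBp1 : 4 ≤ B p := by
    have : (4 : ℝ) ≤ B p := by linarith
    exact_mod_cast this
  -- the tails
  have ht1 : ∑ i ∈ range m, lph A S p i ≤ 2 * m * (1 / (p : ℝ) ^ 2) :=
    hP1 p p1 A m S (by omega) (by rw [hS]) hS1 hSp
  have ht2 : ∑ i ∈ range m, lph B S p i ≤ 2 * m * (1 / (p : ℝ) ^ 2) :=
    hP1 p p1 B m S (by omega) (by rw [hS]) hS1 hSp
  -- the good indices
  set W := Real.log p / (p : ℝ) with hW
  have hW0 : 0 < W := by rw [hW]; positivity
  have hexb : ∀ (c : ℝ) (F : ℕ → ℕ), |Real.log (F p) - a * p| ≤ c → |c| / a ≤ p →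
      F p ≤ b ^ (2 * E * p) := by
    intro c F h2 hc
    have h3 : (F p : ℝ) ≤ ((b ^ (2 * E * p) : ℕ) : ℝ) := by
      rw [pow_exp h.hb]
      rcases Nat.eq_zero_or_pos (F p) with h0 | h0
      · rw [h0, Nat.cast_zero]; exact (Real.exp_pos _).le
      have h0' : (0 : ℝ) < F p := by exact_mod_cast h0
      rw [← Real.log_le_iff_le_exp h0']
      push_cast
      rw [div_le_iff₀ ha] at hc
      have h4 := (abs_le.1 h2).2
      have := le_abs_self c
      have h6 : a * p ≤ E * Real.log b * p := mul_le_mul_of_nonneg_right hEa hp0.le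
      have h7 : (p : ℝ) * a = a * p := mul_comm _ _
      have e : Real.log b * (2 * (E : ℝ) * p) = 2 * (E * Real.log b * p) := by ring
      rw [e]
      linarith
    exact_mod_cast h3
  have hgood : (((range m).filter (fun k => gd A S p k ∧ gd B S p k)).card : ℝ) ≤ C * W ^ 2 * m := by
    set R := (range m).filter (fun k => gd A S p k ∧ gd B S p k) with hR
    have hcard : R.card = (R.image (fun k => k + 1)).card :=
      (Finset.card_image_of_injective _ (add_left_injective 1)).symm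
    rw [hcard]
    have hb1r : ((A p - 1 : ℕ) : ℝ) = (A p : ℝ) - 1 := by
      rw [Nat.cast_sub (by omega)]; simp
    have hb2r : ((B p - 1 : ℕ) : ℝ) = (B p : ℝ) - 1 := by
      rw [Nat.cast_sub (by omega)]; simp
    have hE4p : Real.exp (a / 8 * p) * (2 * S) ≤ 2 * Real.exp (κ * (Real.log b * p)) := by
      rw [hS]
      have h1 : Real.exp (a / 8 * p) * (2 * Real.exp (a / 8 * p)) = 2 * Real.exp (a / 4 * p) := by
        have : Real.exp (a / 4 * p) = Real.exp (a / 8 * p) * Real.exp (a / 8 * p) := by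
          rw [← Real.exp_add]; congr 1; ring
        rw [this]; ring
      rw [h1]
      have h2 : Real.exp (a / 4 * p) ≤ Real.exp (κ * (Real.log b * p)) := by
        rw [Real.exp_le_exp]
        have h3 : 0 < a * p := by positivity
        have h4 : 0.5834 * a * p ≤ (κ * Real.log b) * p := mul_le_mul_of_nonneg_right h.hκ.le hp0.le
        linarith
      linarith
    refine hns p 0 (A p - 1) (B p - 1) m (Real.exp (a / 8 * p)) (2 * S) le_rfl
      (by nlinarith) ?_ ?_ ?_ ?_ ?_ ?_ _ ?_ ?_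
    · intro h0
      apply hne
      rw [pow_zero, one_mul] at h0
      omega
    · have hA2 := hexb c₁ A hA3 hpc
      have hB2 := hexb c₂ B hB3 hpc'
      rw [pow_zero, one_mul]
      have h1 : (((B p - 1 : ℕ) : ℤ) - ((A p - 1 : ℕ) : ℤ)).natAbs ≤ B p + A p := by omega
      have hb3 : 2 ≤ b ^ (E * p) := by
        calc 2 ≤ b := h.hb
          _ = b ^ 1 := (pow_one b).symm
          _ ≤ b ^ (E * p) := Nat.pow_le_pow_right hb0
              ((by omega : 1 ≤ 1 * p).trans (Nat.mul_le_mul_right p hE1'))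
      calc (((B p - 1 : ℕ) : ℤ) - ((A p - 1 : ℕ) : ℤ)).natAbs ≤ B p + A p := h1
        _ ≤ 2 * b ^ (2 * E * p) := by omega
        _ ≤ b ^ (E * p) * b ^ (2 * E * p) := Nat.mul_le_mul_right _ hb3
        _ = b ^ (3 * E * p) := by rw [← pow_add]; congr 1; ring
        _ ≤ b ^ ((1 + 4 * E) * p) := Nat.pow_le_pow_right hb0 (Nat.mul_le_mul_right _ (by omega))
    · rw [hm, pow_exp h.hb, Real.log_exp]
      linarith
    · calc (m : ℝ) ^ ((1 : ℝ) / 8) ≤ (Real.exp (κ * (Real.log b * p))) ^ ((1 : ℝ) / 8) :=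
            Real.rpow_le_rpow hm0.le hBple (by norm_num)
        _ = Real.exp (κ * Real.log b * p / 8) := by rw [← Real.exp_mul]; congr 1; ring
        _ ≤ Real.exp (a / 8 * p) := by
            rw [Real.exp_le_exp]
            have h6 : κ * Real.log b * p ≤ a * p := mul_le_mul_of_nonneg_right h.hκ1.le hp0.le
            linarith
    · rw [hb1r]
      linarith
    · rw [hb2r]
      linarith
    · intro k hk
      rw [mem_image] at hk
      obtain ⟨k', hk', rfl⟩ := hk
      rw [hR, mem_filter, mem_range] at hk'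
      rw [mem_Icc]
      omega
    · intro k hk
      rw [mem_image] at hk
      obtain ⟨k', hk', rfl⟩ := hk
      rw [hR, mem_filter] at hk'
      obtain ⟨_, hg1, hg2⟩ := hk'
      have e1 : k' + 1 + (A p - 1) = A p + k' := by omega
      have e2 : b ^ 0 * (k' + 1) + (B p - 1) = B p + k' := by
        rw [pow_zero, one_mul]
        omega
      rw [e1, e2]
      exact ⟨⟨hg1.1, by linarith [hg1.2]⟩, hg2.1, by linarith [hg2.2]⟩
  have hpinv : 1 / (p : ℝ) ^ 2 ≤ W ^ 2 := by
    rw [hW, div_pow]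
    gcongr
    exact one_le_pow₀ hl1
  rw [div_le_iff₀ hm0]
  calc ∑ k ∈ range m, ph A p k * ph B p k ≤ ∑ k ∈ range m, ((if gd A S p k ∧ gd B S p k then (1 : ℝ) else 0) +
        lph A S p k + lph B S p k) := Finset.sum_le_sum fun k _ => ph_mul_le' A B S p k
    _ = (((range m).filter (fun k => gd A S p k ∧ gd B S p k)).card : ℝ) +
        ∑ k ∈ range m, lph A S p k + ∑ k ∈ range m, lph B S p k := by
        rw [Finset.sum_add_distrib, Finset.sum_add_distrib, Finset.sum_boole]
    _ ≤ C * W ^ 2 * m + 2 * m * W ^ 2 + 2 * m * W ^ 2 := by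
        have h1 : 2 * (m : ℝ) * (1 / (p : ℝ) ^ 2) ≤ 2 * m * W ^ 2 := by gcongr
        linarith
    _ = (C + 4) * W ^ 2 * m := by ring

theorem summable_log_sq : Summable fun p : ℕ => (Real.log p / p) ^ 2 := by
  have h1 : Summable fun p : ℕ => ((p : ℝ) ^ ((3 : ℝ) / 2))⁻¹ := by
    simpa using (Real.summable_nat_rpow_inv (p := (3 : ℝ) / 2)).2 (by norm_num)
  have h0 : ∀ᶠ p : ℕ in atTop, Real.log p ≤ (p : ℝ) ^ ((1 : ℝ) / 4) := by
    have h2 := (isLittleO_log_rpow_atTop (show (0 : ℝ) < 1 / 4 by norm_num)).bound (show (0 : ℝ) < 1 by norm_num)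
    filter_upwards [tendsto_natCast_atTop_atTop.eventually h2, eventually_ge_atTop 1] with p hp hp1
    have hp1' : (1 : ℝ) ≤ p := by exact_mod_cast hp1
    rw [one_mul, Real.norm_of_nonneg (Real.log_nonneg hp1'), Real.norm_of_nonneg (by positivity)] at hp
    exact hp
  obtain ⟨P, hP⟩ := eventually_atTop.1 h0
  refine (summable_nat_add_iff (P + 1)).1 ?_
  refine Summable.of_nonneg_of_le (fun p => by positivity) (fun p => ?_) ((summable_nat_add_iff (P + 1)).2 h1)
  obtain ⟨n, hn⟩ : ∃ n : ℕ, n = p + (P + 1) := ⟨_, rfl⟩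
  rw [← hn]
  have hn1 : (1 : ℝ) ≤ n := by exact_mod_cast (by omega : 1 ≤ n)
  have hn0 : (0 : ℝ) < n := by linarith
  have h3 := hP n (by omega)
  have h4 : 0 ≤ Real.log n := Real.log_nonneg hn1
  have e1 : (n : ℝ) ^ ((1 : ℝ) / 4) * (n : ℝ) ^ ((1 : ℝ) / 4) * (n : ℝ) ^ ((3 : ℝ) / 2) = (n : ℝ) ^ 2 := by
    rw [← Real.rpow_add hn0, ← Real.rpow_add hn0, ← Real.rpow_natCast]
    norm_num
  rw [div_pow, div_le_iff₀ (by positivity), ← e1]
  have e2 : ((n : ℝ) ^ ((3 : ℝ) / 2))⁻¹ * ((n : ℝ) ^ ((1 : ℝ) / 4) * (n : ℝ) ^ ((1 : ℝ) / 4) *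
      (n : ℝ) ^ ((3 : ℝ) / 2)) = (n : ℝ) ^ ((1 : ℝ) / 4) * (n : ℝ) ^ ((1 : ℝ) / 4) := by
    field_simp
  rw [e2, pow_two]
  exact mul_le_mul h3 h3 h4 (by positivity)

/-- almost every point is in finitely many of the joint events -/
theorem Fam.joint (h : Fam b κ a c₁ A) (h' : Fam b κ a c₂ B) (hAB : ∀ᶠ p : ℕ in atTop, A p ≠ B p) :
    ∀ᵐ t ∂(volume.restrict (Set.Ico (0 : ℝ) 1)), ∀ᶠ p : ℕ in atTop,
      ¬ (fq b κ A p t = 1 ∧ fq b κ B p t = 1) := by
  classical
  obtain ⟨K, hK, hev⟩ := h.same h' hAB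
  obtain ⟨P, hP⟩ := eventually_atTop.1 hev
  have hb0 : 0 < b := by have := h.hb; omega
  set μ := volume.restrict (Set.Ico (0 : ℝ) 1) with hμ
  set s : ℕ → Set ℝ := fun p => {t | P ≤ p ∧ fq b κ A p t = 1 ∧ fq b κ B p t = 1} with hs
  have hms : ∀ p, MeasurableSet (s p) := by
    intro p
    refine MeasurableSet.inter (MeasurableSet.const _) (MeasurableSet.inter ?_ ?_)
    · exact (measurable_fq b κ A p) (measurableSet_singleton (1 : ℝ))
    · exact (measurable_fq b κ B p) (measurableSet_singleton (1 : ℝ))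
  have hle : ∀ p, μ (s p) ≤ ENNReal.ofReal (K * (Real.log p / p) ^ 2) := by
    intro p
    by_cases hp : P ≤ p
    · have h1 := hP p hp
      have hint : Integrable (fun t => fq b κ A p t * fq b κ B p t) μ :=
        integrable_bdd ((measurable_fq b κ A p).mul (measurable_fq b κ B p)) (M := 1) fun t => by
          rw [abs_mul, abs_of_nonneg (fq_nonneg b κ A p t), abs_of_nonneg (fq_nonneg b κ B p t)]
          exact mul_le_one₀ (fq_le_one b κ A p t) (fq_nonneg b κ B p t) (fq_le_one b κ B p t)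
      have h2 : ∫ t, fq b κ A p t * fq b κ B p t ∂μ =
          (∑ k ∈ range (b ^ ex κ p), ph A p k * ph B p k) / ((b ^ ex κ p : ℕ) : ℝ) := by
        rw [hμ]
        unfold fq
        exact int_floor (fun k => ph A p k * ph B p k) (by positivity)
      have h3 : μ.real (s p) ≤ ∫ t, fq b κ A p t * fq b κ B p t ∂μ := by
        rw [← integral_indicator_one (hms p)]
        refine integral_mono ((integrable_const (1 : ℝ)).indicator (hms p)) hint fun t => ?_
        by_cases ht : t ∈ s p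
        · rw [Set.indicator_of_mem ht]
          show (1 : ℝ) ≤ fq b κ A p t * fq b κ B p t
          rw [ht.2.1, ht.2.2, mul_one]
        · rw [Set.indicator_of_notMem ht]
          exact mul_nonneg (fq_nonneg b κ A p t) (fq_nonneg b κ B p t)
      rw [h2] at h3
      rw [← ENNReal.ofReal_toReal (measure_ne_top μ (s p))]
      exact ENNReal.ofReal_le_ofReal (h3.trans h1)
    · have h1 : s p = ∅ := by
        ext t
        simp only [hs, Set.mem_setOf_eq, Set.mem_empty_iff_false, iff_false]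
        exact fun h2 => hp h2.1
      rw [h1, measure_empty]
      exact bot_le
  have hsum : ∑' p, μ (s p) ≠ ⊤ := by
    refine ne_top_of_le_ne_top ?_ (ENNReal.tsum_le_tsum hle)
    exact (summable_log_sq.mul_left K).tsum_ofReal_ne_top
  filter_upwards [ae_eventually_notMem hsum] with t ht
  filter_upwards [ht, eventually_ge_atTop P] with p h1 h2 h3
  exact h1 ⟨h2, h3⟩

end Pool.Agent.H39x.LP
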