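import Pool.Agent.H39x.LP.Joint

/-!
# Project LP: two integer sequences with the same random digits
-/

set_option autoImplicit false

namespace Pool.Agent.H39x.LP

open Finset Filter Topology MeasureTheory
open Pool.Agent.H305R2 (roughPart log_nat_tendsto)
open Pool.Agent.TH888.R (Sys wt Pt)

/-- the sequence of natural numbers of a window, with other values for the composite indices -/
noncomputable def wi (b : ℕ) (κ a : ℝ) (A : ℕ → ℤ) (j : ℤ) (D : ℕ) (p : ℕ) : ℕ :=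
  if p.Prime then (A p + j * ((b ^ ex κ p : ℕ) : ℤ)).toNat else ⌈Real.exp (a * p)⌉₊ + D

theorem fam_window {b : ℕ} (hb : 2 ≤ b) {a κ c C : ℝ} (ha : 0 < a) (hκ : 0.5834 * a < κ * Real.log b)
    (hκ1 : κ * Real.log b < a) (hc : 0 < c) {A : ℕ → ℤ}
    (hA : ∀ᶠ p : ℕ in atTop, p.Prime → c * Real.exp (a * p) ≤ A p ∧ (A p : ℝ) ≤ C * Real.exp (a * p))
    (j : ℤ) (D : ℕ) (hD : D ≤ 1) : ∃ c₁ : ℝ, Fam b κ a c₁ (wi b κ a A j D) ∧
      (∀ᶠ p : ℕ in atTop, p.Prime → 0 ≤ A p + j * ((b ^ ex κ p : ℕ) : ℤ)) ∧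
      ∀ t ∈ Set.Ico (0 : ℝ) 1, ∀ᶠ p : ℕ in atTop, p.Prime →
        (roughPart p ((A p + ⌊((j : ℝ) + t) * ((b ^ ex κ p : ℕ) : ℝ)⌋).toNat)).Prime →
          fq b κ (wi b κ a A j D) p t = 1 := by
  classical
  obtain ⟨P, hP⟩ := eventually_atTop.1 hA
  have hl : 0 < Real.log b := Real.log_pos (by exact_mod_cast hb)
  have hκ0 : 0 < κ := by
    by_contra h4
    have : κ * Real.log b ≤ 0 := mul_nonpos_of_nonpos_of_nonneg (not_lt.1 h4) hl.le
    linarith
  -- the perturbation is small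
  have hε : 0 < a - κ * Real.log b := by linarith
  have hsmall : ∀ᶠ p : ℕ in atTop, |(j : ℝ)| * ((b ^ ex κ p : ℕ) : ℝ) ≤ c / 2 * Real.exp (a * p) := by
    have e1 : ∀ᶠ q : ℕ in atTop, 2 * |(j : ℝ)| / c * (q : ℝ) ^ 0 ≤ Real.exp ((a - κ * Real.log b) * q) :=
      tendsto_natCast_atTop_atTop.eventually (Pool.Agent.Q278.KS.ev_poly (2 * |(j : ℝ)| / c) 0 hε)
    filter_upwards [e1] with p hp
    rw [pow_zero, mul_one, div_le_iff₀ hc] at hp
    have h2 : ((b ^ ex κ p : ℕ) : ℝ) ≤ Real.exp (κ * Real.log b * p) := by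
      rw [pow_exp hb, Real.exp_le_exp]
      calc Real.log b * (ex κ p : ℝ) ≤ Real.log b * (κ * p) := by
            have := (ex_bounds hκ0 p).2
            gcongr
        _ = _ := by ring
    have h3 : Real.exp (a * p) = Real.exp ((a - κ * Real.log b) * p) * Real.exp (κ * Real.log b * p) := by
      rw [← Real.exp_add]; congr 1; ring
    calc |(j : ℝ)| * ((b ^ ex κ p : ℕ) : ℝ) ≤ |(j : ℝ)| * Real.exp (κ * Real.log b * p) := by gcongr
      _ ≤ (Real.exp ((a - κ * Real.log b) * p) * c / 2) * Real.exp (κ * Real.log b * p) := by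
          gcongr
          linarith
      _ = _ := by rw [h3]; ring
  obtain ⟨P2, hP2⟩ := eventually_atTop.1 hsmall
  have hpos : ∀ p : ℕ, max P P2 ≤ p → p.Prime → c / 2 * Real.exp (a * p) ≤
      ((A p + j * ((b ^ ex κ p : ℕ) : ℤ) : ℤ) : ℝ) ∧
      ((A p + j * ((b ^ ex κ p : ℕ) : ℤ) : ℤ) : ℝ) ≤ (C + c / 2) * Real.exp (a * p) := by
    intro p hp hpp
    obtain ⟨h1, h2⟩ := hP p ((le_max_left _ _).trans hp) hpp
    have h3 := hP2 p ((le_max_right _ _).trans hp)
    have h4 : |(j : ℝ) * ((b ^ ex κ p : ℕ) : ℝ)| ≤ c / 2 * Real.exp (a * p) := by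
      rw [abs_mul, Nat.abs_cast]
      exact h3
    obtain ⟨h5, h6⟩ := abs_le.1 h4
    have e : ((A p + j * ((b ^ ex κ p : ℕ) : ℤ) : ℤ) : ℝ) = A p + j * ((b ^ ex κ p : ℕ) : ℝ) := by
      push_cast; ring
    rw [e]
    constructor <;> linarith
  have hnn : ∀ p : ℕ, max P P2 ≤ p → p.Prime → 0 ≤ A p + j * ((b ^ ex κ p : ℕ) : ℤ) := by
    intro p hp hpp
    have h1 := (hpos p hp hpp).1
    have h2 : (0 : ℝ) ≤ ((A p + j * ((b ^ ex κ p : ℕ) : ℤ) : ℤ) : ℝ) := le_trans (by positivity) h1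
    exact_mod_cast h2
  have hC0 : ∀ p : ℕ, max P P2 ≤ p → p.Prime → 0 < C + c / 2 := by
    intro p hp hpp
    obtain ⟨h1, h2⟩ := hpos p hp hpp
    have h3 : 0 < (C + c / 2) * Real.exp (a * p) := lt_of_lt_of_le (by positivity) (h1.trans h2)
    exact (pos_iff_pos_of_mul_pos h3).2 (Real.exp_pos _)
  have hfam : Fam b κ a (|Real.log (c / 2)| + |Real.log (C + c / 2)| + 2) (wi b κ a A j D) := by
    refine ⟨hb, ha, hκ, hκ1, ?_⟩
    filter_upwards [eventually_ge_atTop (max P P2), eventually_ge_atTop 1] with p hp hp1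
    by_cases hpp : p.Prime
    · obtain ⟨h1, h2⟩ := hpos p hp hpp
      have h3 : ((wi b κ a A j D p : ℕ) : ℝ) = ((A p + j * ((b ^ ex κ p : ℕ) : ℤ) : ℤ) : ℝ) := by
        unfold wi
        rw [if_pos hpp]
        have := Int.toNat_of_nonneg (hnn p hp hpp)
        exact_mod_cast this
      have h4 : (0 : ℝ) < wi b κ a A j D p := by rw [h3]; exact lt_of_lt_of_le (by positivity) h1
      rw [← h3] at h1 h2
      have h5 := Real.log_le_log (by positivity) h1
      have h6 := Real.log_le_log h4 h2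
      rw [Real.log_mul (by positivity) (Real.exp_pos _).ne', Real.log_exp] at h5
      rw [Real.log_mul (hC0 p hp hpp).ne' (Real.exp_pos _).ne', Real.log_exp] at h6
      have h7 := neg_abs_le (Real.log (c / 2))
      have h8 := le_abs_self (Real.log (C + c / 2))
      have h9 := abs_nonneg (Real.log (c / 2))
      have h10 := abs_nonneg (Real.log (C + c / 2))
      rw [abs_le]
      constructor <;> linarith
    · have h3 : wi b κ a A j D p = ⌈Real.exp (a * p)⌉₊ + D := by unfold wi; rw [if_neg hpp]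
      have hE : 1 ≤ Real.exp (a * p) := Real.one_le_exp (by positivity)
      have hDr : (D : ℝ) ≤ 1 := by exact_mod_cast hD
      have hD0 : (0 : ℝ) ≤ D := Nat.cast_nonneg D
      have h4 : Real.exp (a * p) ≤ wi b κ a A j D p := by
        rw [h3]
        push_cast
        have := Nat.le_ceil (Real.exp (a * p))
        linarith
      have h5 : (wi b κ a A j D p : ℝ) ≤ 4 * Real.exp (a * p) := by
        rw [h3]
        push_cast
        have := Nat.ceil_lt_add_one (Real.exp_pos (a * p)).le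
        linarith
      have h6 := Real.log_le_log (Real.exp_pos _) h4
      have h7 := Real.log_le_log (by linarith) h5
      rw [Real.log_exp] at h6
      rw [Real.log_mul (by norm_num) (Real.exp_pos _).ne', Real.log_exp] at h7
      have hlog2 := Real.log_two_lt_d9
      have hlog4 : Real.log 4 = 2 * Real.log 2 := by
        rw [show (4 : ℝ) = 2 ^ 2 by norm_num, Real.log_pow]
        norm_num
      have h9 := abs_nonneg (Real.log (c / 2))
      have h10 := abs_nonneg (Real.log (C + c / 2))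
      rw [abs_le]
      constructor <;> linarith
  refine ⟨_, hfam, eventually_atTop.2 ⟨max P P2, hnn⟩, fun t ht => ?_⟩
  filter_upwards [eventually_ge_atTop (max P P2)] with p hp hpp hpr
  unfold fq ph
  have h1 := hnn p hp hpp
  have h2 : wi b κ a A j D p + ⌊t * ((b ^ ex κ p : ℕ) : ℝ)⌋₊ =
      (A p + ⌊((j : ℝ) + t) * ((b ^ ex κ p : ℕ) : ℝ)⌋).toNat := by
    have e1 : ((j : ℝ) + t) * ((b ^ ex κ p : ℕ) : ℝ) =
        ((j * ((b ^ ex κ p : ℕ) : ℤ) : ℤ) : ℝ) + t * ((b ^ ex κ p : ℕ) : ℝ) := by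
      push_cast; ring
    have ht0 : 0 ≤ t * ((b ^ ex κ p : ℕ) : ℝ) := mul_nonneg ht.1 (Nat.cast_nonneg _)
    rw [e1, Int.floor_intCast_add, ← add_assoc]
    have e2 : ⌊t * ((b ^ ex κ p : ℕ) : ℝ)⌋ = ((⌊t * ((b ^ ex κ p : ℕ) : ℝ)⌋₊ : ℕ) : ℤ) :=
      (Int.natCast_floor_eq_floor ht0).symm
    rw [e2, Int.toNat_add h1 (Int.natCast_nonneg _), Int.toNat_natCast]
    have : wi b κ a A j D p = (A p + j * ((b ^ ex κ p : ℕ) : ℤ)).toNat := by unfold wi; rw [if_pos hpp]
    rw [this]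
  rw [h2, if_pos hpr]

/-- **Two sequences of integers of the same order, with the same random digits, have prime rough parts
simultaneously for only finitely many prime levels.** -/
theorem joint_digits {b : ℕ} (hb : 2 ≤ b) {a κ c C : ℝ} (ha : 0 < a) (hκ : 0.5834 * a < κ * Real.log b)
    (hκ1 : κ * Real.log b < a) (hc : 0 < c) {A B : ℕ → ℤ}
    (hA : ∀ᶠ p : ℕ in atTop, p.Prime → c * Real.exp (a * p) ≤ A p ∧ (A p : ℝ) ≤ C * Real.exp (a * p))
    (hB : ∀ᶠ p : ℕ in atTop, p.Prime → c * Real.exp (a * p) ≤ B p ∧ (B p : ℝ) ≤ C * Real.exp (a * p))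
    (hAB : ∀ᶠ p : ℕ in atTop, p.Prime → A p ≠ B p) :
    ∀ᵐ θ : ℝ, {p : ℕ | p.Prime ∧ (roughPart p (sq b κ A θ p)).Prime ∧
      (roughPart p (sq b κ B θ p)).Prime}.Finite := by
  have h1 : ∀ j : ℤ, ∀ᵐ θ : ℝ, θ ∈ Set.Ico (j : ℝ) (j + 1) →
      {p : ℕ | p.Prime ∧ (roughPart p (sq b κ A θ p)).Prime ∧
        (roughPart p (sq b κ B θ p)).Prime}.Finite := by
    intro j
    obtain ⟨c₁, hF, hnA, hqA⟩ := fam_window hb ha hκ hκ1 hc hA j 0 (by norm_num)
    obtain ⟨c₂, hF', hnB, hqB⟩ := fam_window hb ha hκ hκ1 hc hB j 1 (by norm_num)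
    have hne : ∀ᶠ p : ℕ in atTop, wi b κ a A j 0 p ≠ wi b κ a B j 1 p := by
      filter_upwards [hnA, hnB, hAB] with p h1 h2 h3
      unfold wi
      by_cases hp : p.Prime
      · rw [if_pos hp, if_pos hp]
        intro h4
        have e1 := Int.toNat_of_nonneg (h1 hp)
        have e2 := Int.toNat_of_nonneg (h2 hp)
        apply h3 hp
        have h5 : A p + j * ((b ^ ex κ p : ℕ) : ℤ) = B p + j * ((b ^ ex κ p : ℕ) : ℤ) := by
          rw [← e1, ← e2, h4]
        linarith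
      · rw [if_neg hp, if_neg hp]
        omega
    have h2 := (ae_restrict_iff' measurableSet_Ico).1 (hF.joint hF' hne)
    have h3 := (measurePreserving_add_right volume (-(j : ℝ))).quasiMeasurePreserving.ae h2
    filter_upwards [h3] with θ h4 h5
    have hmem : θ + -(j : ℝ) ∈ Set.Ico (0 : ℝ) 1 := ⟨by linarith [h5.1], by linarith [h5.2]⟩
    obtain ⟨P, hP⟩ := eventually_atTop.1 ((h4 hmem).and ((hqA _ hmem).and (hqB _ hmem)))
    refine (Set.finite_lt_nat P).subset fun p hp => ?_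
    by_contra hlt
    have hge : P ≤ p := not_lt.1 hlt
    obtain ⟨g1, g2, g3⟩ := hP p hge
    have e : (j : ℝ) + (θ + -(j : ℝ)) = θ := by ring
    rw [e] at g2 g3
    have e2 : ((b ^ ex κ p : ℕ) : ℝ) = (b : ℝ) ^ ⌊κ * (p : ℝ)⌋₊ := by unfold ex; push_cast; rfl
    rw [e2] at g2 g3
    exact g1 ⟨g2 hp.1 hp.2.1, g3 hp.1 hp.2.2⟩
  filter_upwards [ae_all_iff.2 h1] with θ hθ
  exact hθ ⌊θ⌋ ⟨Int.floor_le θ, Int.lt_floor_add_one θ⟩

end Pool.Agent.H39x.LP
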