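import Pool.Agent.H39x.LP.Box
import Pool.Agent.Q257.KS.FE

/-!
# Project LP: the sum of `Λ(n)/n` over an interval of `log n` as a mean of Fejer sums
-/

set_option autoImplicit false

namespace Pool.Agent.H39x.LP

open Finset MeasureTheory Pool.Agent.H376R2.MR Pool.Agent.Q240.KS Pool.Agent.Q257.KS

theorem er_sum (S : Finset ℕ) (x c : ℕ → ℝ) (w : ℝ) {K J : ℕ} {M : ℝ} (hK : 1 ≤ K) (hM : 0 ≤ M)
    (hc : ∀ n ∈ S, 0 ≤ c n) (hJ : ∀ n ∈ S, K * |x n - w| < J + 1)
    (hmass : ∀ j : ℕ, ∑ n ∈ S.filter (fun n => ⌊(K : ℝ) * |x n - w|⌋₊ = j), c n ≤ M) :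
    ∑ n ∈ S, c n * er' K (x n - w) ≤ M * (17 + 10 * Real.log J) := by
  classical
  have hK0 : (0 : ℝ) < K := by exact_mod_cast hK
  have hmaps : ∀ n ∈ S, ⌊(K : ℝ) * |x n - w|⌋₊ ∈ range (J + 1) := by
    intro n hn
    rw [Finset.mem_range, Nat.floor_lt (by positivity)]
    push_cast
    exact hJ n hn
  rw [← Finset.sum_fiberwise_of_maps_to hmaps]
  have h1 : ∀ j ∈ range (J + 1), ∑ n ∈ S.filter (fun n => ⌊(K : ℝ) * |x n - w|⌋₊ = j), c n * er' K (x n - w) ≤
      M * (if j = 0 then 7 else 10 / (j : ℝ)) := by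
    intro j _
    have h2 : ∀ n ∈ S.filter (fun n => ⌊(K : ℝ) * |x n - w|⌋₊ = j), c n * er' K (x n - w) ≤
        c n * (if j = 0 then 7 else 10 / (j : ℝ)) := by
      intro n hn
      obtain ⟨hn1, hn2⟩ := Finset.mem_filter.1 hn
      refine mul_le_mul_of_nonneg_left ?_ (hc n hn1)
      unfold er'
      by_cases hj : j = 0
      · rw [if_pos hj]
        rw [hj] at hn2
        rw [Nat.floor_eq_zero] at hn2
        rw [if_pos hn2]
      · rw [if_neg hj]
        have h3 : (j : ℝ) ≤ K * |x n - w| := by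
          rw [← hn2]
          exact Nat.floor_le (by positivity)
        have h4 : (1 : ℝ) ≤ j := by exact_mod_cast Nat.one_le_iff_ne_zero.2 hj
        rw [if_neg (by linarith)]
        gcongr
    refine (Finset.sum_le_sum h2).trans ?_
    rw [← Finset.sum_mul]
    refine mul_le_mul_of_nonneg_right (hmass j) ?_
    split_ifs
    · norm_num
    · positivity
  refine (Finset.sum_le_sum h1).trans ?_
  rw [← Finset.mul_sum]
  refine mul_le_mul_of_nonneg_left ?_ hM
  rw [Finset.sum_range_succ']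
  simp only [Nat.add_eq_zero_iff, one_ne_zero, and_false, if_false, if_true]
  have h3 : ∑ j ∈ range J, 10 / (((j + 1 : ℕ) : ℝ)) ≤ 10 * (1 + Real.log J) := by
    have h4 := harm_le J
    have h5 : ∑ j ∈ range J, 10 / (((j + 1 : ℕ) : ℝ)) = 10 * ∑ n ∈ Icc 1 J, 1 / (n : ℝ) := by
      rw [Finset.mul_sum, Finset.range_eq_Ico, Finset.sum_Ico_add' (fun n : ℕ => 10 / (n : ℝ)) 0 J 1]
      have h6 : Ico (0 + 1) (J + 1) = Icc 1 J := by
        ext n
        simp only [Finset.mem_Ico, Finset.mem_Icc]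
        omega
      rw [h6]
      exact Finset.sum_congr rfl fun n _ => by ring
    rw [h5]
    gcongr
  linarith

/-- the pieces -/
theorem piece_mass {Y w CB : ℝ} {K : ℕ} (hK : 100 ≤ K)
    (hbt : ∀ v : ℝ, |v - Y| ≤ 1 → SL v (1 / K) ≤ CB / K) (hCB : 0 ≤ CB) (j : ℕ) :
    ∑ n ∈ ((sY Y).filter (fun n : ℕ => |Real.log n - Y| ≤ 1 / 2)).filter
      (fun n : ℕ => ⌊(K : ℝ) * |Real.log n - w|⌋₊ = j), ArithmeticFunction.vonMangoldt n / n ≤ 2 * (CB / K) := by
  classical
  have hK0 : (0 : ℝ) < K := by exact_mod_cast (by omega : 0 < K)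
  have hK1 : (1 : ℝ) / K ≤ 1 / 100 := by
    have : (100 : ℝ) ≤ K := by exact_mod_cast hK
    gcongr
  set B := ((sY Y).filter (fun n : ℕ => |Real.log n - Y| ≤ 1 / 2)).filter
      (fun n : ℕ => ⌊(K : ℝ) * |Real.log n - w|⌋₊ = j) with hB
  rw [← Finset.sum_filter_add_sum_filter_not B (fun n : ℕ => w ≤ Real.log n)]
  have hnn : ∀ n ∈ B, 1 ≤ n ∧ |Real.log n - Y| ≤ 1 / 2 ∧ (j : ℝ) / K ≤ |Real.log n - w| ∧
      |Real.log n - w| ≤ (j : ℝ) / K + 1 / K := by
    intro n hn
    obtain ⟨h1, h2⟩ := Finset.mem_filter.1 hn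
    obtain ⟨h3, h4⟩ := Finset.mem_filter.1 h1
    have e1 := Nat.floor_le (show 0 ≤ (K : ℝ) * |Real.log n - w| by positivity)
    have e2 := Nat.lt_floor_add_one ((K : ℝ) * |Real.log n - w|)
    rw [h2] at e1 e2
    refine ⟨sY_mem h3, h4, ?_, ?_⟩
    · rw [div_le_iff₀ hK0]; linarith
    · rw [← add_div, le_div_iff₀ hK0]; linarith
  have hpos : ∑ n ∈ B.filter (fun n : ℕ => w ≤ Real.log n), ArithmeticFunction.vonMangoldt n / n ≤ CB / K := by
    rcases (B.filter (fun n : ℕ => w ≤ Real.log n)).eq_empty_or_nonempty with h0 | ⟨n₀, hn₀⟩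
    · rw [h0, Finset.sum_empty]; positivity
    have hp : ∀ n ∈ B.filter (fun n : ℕ => w ≤ Real.log n), 1 ≤ n ∧ w + j / K ≤ Real.log n ∧
        Real.log n ≤ (w + j / K) + 1 / K := by
      intro n hn
      obtain ⟨h1, h2⟩ := Finset.mem_filter.1 hn
      obtain ⟨h3, h4, h5, h6⟩ := hnn n h1
      rw [abs_of_nonneg (by linarith)] at h5 h6
      exact ⟨h3, by linarith, by linarith⟩
    have hv : |w + j / K - Y| ≤ 1 := by
      have h1 := hp n₀ hn₀
      have h2 := abs_le.1 (hnn n₀ (Finset.mem_filter.1 hn₀).1).2.1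
      rw [abs_le]; constructor <;> linarith [h1.2.1, h1.2.2, h2.1, h2.2]
    exact (le_SL _ hp).trans (hbt _ hv)
  have hneg : ∑ n ∈ B.filter (fun n : ℕ => ¬ w ≤ Real.log n), ArithmeticFunction.vonMangoldt n / n ≤ CB / K := by
    rcases (B.filter (fun n : ℕ => ¬ w ≤ Real.log n)).eq_empty_or_nonempty with h0 | ⟨n₀, hn₀⟩
    · rw [h0, Finset.sum_empty]; positivity
    have hp : ∀ n ∈ B.filter (fun n : ℕ => ¬ w ≤ Real.log n), 1 ≤ n ∧ w - j / K - 1 / K ≤ Real.log n ∧
        Real.log n ≤ (w - j / K - 1 / K) + 1 / K := by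
      intro n hn
      obtain ⟨h1, h2⟩ := Finset.mem_filter.1 hn
      obtain ⟨h3, h4, h5, h6⟩ := hnn n h1
      rw [not_le] at h2
      rw [abs_of_neg (by linarith)] at h5 h6
      exact ⟨h3, by linarith, by linarith⟩
    have hv : |w - j / K - 1 / K - Y| ≤ 1 := by
      have h1 := hp n₀ hn₀
      have h2 := abs_le.1 (hnn n₀ (Finset.mem_filter.1 hn₀).1).2.1
      rw [abs_le]; constructor <;> linarith [h1.2.1, h1.2.2, h2.1, h2.2]
    exact (le_SL _ hp).trans (hbt _ hv)
  linarith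

theorem box_sum {Y v h CB A1 : ℝ} {a : ℕ → ℝ} {K : ℕ} (hK : 100 ≤ K)
    (ha1 : ∀ n : ℕ, 1 ≤ n → |Real.log n - Y| ≤ 1 / 2 → a n = ArithmeticFunction.vonMangoldt n / n)
    (hA : ∑ n ∈ sY Y, |a n| ≤ A1)
    (ha3 : ∀ n : ℕ, 1 ≤ n → 3 / 2 < |Real.log n - Y| → a n = 0)
    (hv : |v - Y| ≤ 0.41) (hh0 : 0 ≤ h) (hh1 : h ≤ 1 / 100) (hCB : 0 ≤ CB)
    (hbt : ∀ v : ℝ, |v - Y| ≤ 1 → SL v (1 / K) ≤ CB / K) :
    |∑ n ∈ sY Y, a n * bx K v h (Real.log n) - 2 * Real.pi * SL v h| ≤
      4 * (CB / K) * (17 + 10 * Real.log K) + A1 * (1600 / K * h) := by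
  classical
  have hK1 : 1 ≤ K := by omega
  have hK0 : (0 : ℝ) < K := by exact_mod_cast hK1
  obtain ⟨hv1, hv2⟩ := abs_le.1 hv
  set M := (sY Y).filter (fun n : ℕ => |Real.log n - Y| ≤ 1 / 2) with hM
  have hsplit : ∑ n ∈ sY Y, a n * bx K v h (Real.log n) =
      ∑ n ∈ M, ArithmeticFunction.vonMangoldt n / n * bx K v h (Real.log n) +
      ∑ n ∈ (sY Y).filter (fun n : ℕ => ¬ |Real.log n - Y| ≤ 1 / 2), a n * bx K v h (Real.log n) := by
    rw [← Finset.sum_filter_add_sum_filter_not (sY Y) (fun n : ℕ => |Real.log n - Y| ≤ 1 / 2)]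
    congr 1
    refine Finset.sum_congr rfl fun n hn => ?_
    obtain ⟨hn1, hn2⟩ := Finset.mem_filter.1 hn
    rw [ha1 n (sY_mem hn1) hn2]
  have hSL : SL v h = ∑ n ∈ M, ArithmeticFunction.vonMangoldt n / n *
      (if v ≤ Real.log n ∧ Real.log n ≤ v + h then (1 : ℝ) else 0) := by
    unfold SL
    simp only [mul_ite, mul_one, mul_zero]
    rw [← Finset.sum_filter]
    refine Finset.sum_congr ?_ fun _ _ => rfl
    ext n
    simp only [Finset.mem_filter, Finset.mem_Icc, hM, sY]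
    constructor
    · rintro ⟨⟨h1, h2⟩, h3⟩
      have hn0 : (0 : ℝ) < n := by exact_mod_cast h1
      have h4 : Real.log n ≤ v + h := by
        rw [Real.log_le_iff_le_exp hn0]
        exact (Nat.le_floor_iff (Real.exp_pos _).le).1 h2
      refine ⟨⟨⟨h1, Nat.le_floor ?_⟩, ?_⟩, h3, h4⟩
      · rw [← Real.log_le_iff_le_exp hn0]; linarith
      · rw [abs_le]; constructor <;> linarith
    · rintro ⟨⟨⟨h1, h2⟩, h3⟩, h4, h5⟩
      have hn0 : (0 : ℝ) < n := by exact_mod_cast h1
      refine ⟨⟨h1, Nat.le_floor ?_⟩, h4⟩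
      rw [← Real.log_le_iff_le_exp hn0]; exact h5
  have hmain : |∑ n ∈ M, ArithmeticFunction.vonMangoldt n / n * bx K v h (Real.log n) - 2 * Real.pi * SL v h| ≤
      4 * (CB / K) * (17 + 10 * Real.log K) := by
    rw [hSL, Finset.mul_sum, ← Finset.sum_sub_distrib]
    refine (Finset.abs_sum_le_sum_abs _ _).trans ?_
    have hmem : ∀ n ∈ M, |Real.log n - Y| ≤ 1 / 2 := fun n hn => (Finset.mem_filter.1 hn).2
    have h1 : ∀ n ∈ M, |ArithmeticFunction.vonMangoldt n / n * bx K v h (Real.log n) -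
        2 * Real.pi * (ArithmeticFunction.vonMangoldt n / n *
        (if v ≤ Real.log n ∧ Real.log n ≤ v + h then (1 : ℝ) else 0))| ≤
        ArithmeticFunction.vonMangoldt n / n * er' K (Real.log n - v) +
        ArithmeticFunction.vonMangoldt n / n * er' K (Real.log n - (v + h)) := by
      intro n hn
      obtain ⟨h2, h3⟩ := abs_le.1 (hmem n hn)
      have h4 := bx_bound hK1 (v := v) (h := h) (x := Real.log n) hh0 (by linarith) (by linarith)
      have h5 : 0 ≤ ArithmeticFunction.vonMangoldt n / (n : ℝ) :=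
        div_nonneg ArithmeticFunction.vonMangoldt_nonneg (Nat.cast_nonneg _)
      have h6 : ArithmeticFunction.vonMangoldt n / n * bx K v h (Real.log n) -
          2 * Real.pi * (ArithmeticFunction.vonMangoldt n / n *
          (if v ≤ Real.log n ∧ Real.log n ≤ v + h then (1 : ℝ) else 0)) =
          ArithmeticFunction.vonMangoldt n / n * (bx K v h (Real.log n) -
          (if v ≤ Real.log n ∧ Real.log n ≤ v + h then 2 * Real.pi else 0)) := by
        split_ifs <;> ring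
      rw [h6, abs_mul, abs_of_nonneg h5, ← mul_add]
      exact mul_le_mul_of_nonneg_left h4 h5
    refine (Finset.sum_le_sum h1).trans ?_
    rw [Finset.sum_add_distrib]
    have h2 : ∀ w : ℝ, |w - Y| ≤ 0.42 → ∑ n ∈ M, ArithmeticFunction.vonMangoldt n / n * er' K (Real.log n - w) ≤
        2 * (CB / K) * (17 + 10 * Real.log K) := by
      intro w hw
      obtain ⟨hw1, hw2⟩ := abs_le.1 hw
      refine er_sum M (fun n => Real.log n) (fun n => ArithmeticFunction.vonMangoldt n / n) w hK1 (by positivity)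
        (fun n _ => div_nonneg ArithmeticFunction.vonMangoldt_nonneg (Nat.cast_nonneg _)) (fun n hn => ?_)
        (piece_mass hK hbt hCB)
      obtain ⟨h2, h3⟩ := abs_le.1 (hmem n hn)
      have h4 : |Real.log n - w| ≤ 1 := by rw [abs_le]; constructor <;> linarith
      show (K : ℝ) * |Real.log n - w| < K + 1
      nlinarith
    have h3 := h2 v (hv.trans (by norm_num))
    have h4 := h2 (v + h) (by rw [abs_le]; constructor <;> linarith)
    linarith
  have hout : |∑ n ∈ (sY Y).filter (fun n : ℕ => ¬ |Real.log n - Y| ≤ 1 / 2), a n * bx K v h (Real.log n)| ≤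
      A1 * (1600 / K * h) := by
    refine (Finset.abs_sum_le_sum_abs _ _).trans ?_
    have h1 : ∀ n ∈ (sY Y).filter (fun n : ℕ => ¬ |Real.log n - Y| ≤ 1 / 2), |a n * bx K v h (Real.log n)| ≤
        |a n| * (1600 / K * h) := by
      intro n hn
      obtain ⟨hn1, hn2⟩ := Finset.mem_filter.1 hn
      rw [not_le] at hn2
      rw [abs_mul]
      by_cases h3 : 3 / 2 < |Real.log n - Y|
      · rw [ha3 n (sY_mem hn1) h3]; simp
      rw [not_lt] at h3
      refine mul_le_mul_of_nonneg_left ?_ (abs_nonneg _)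
      have h4 := bx_far hK1 (v := v) (h := h) (x := Real.log n) (δ := 0.08) hh0 (by norm_num) (by
        intro u hu
        have hu1 : |u - Y| ≤ 0.42 := by rw [abs_le]; constructor <;> linarith [hu.1, hu.2]
        have e1 : |Real.log n - Y| ≤ |Real.log n - u| + |u - Y| := abs_sub_le _ _ _
        have e2 : |Real.log n - u| ≤ |Real.log n - Y| + |Y - u| := abs_sub_le _ _ _
        rw [abs_sub_comm Y u] at e2
        constructor
        · norm_num at hn2 hu1 e1 ⊢; linarith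
        · norm_num at h3 hu1 e2 ⊢; linarith)
      refine h4.trans ?_
      refine mul_le_mul_of_nonneg_right ?_ hh0
      rw [div_le_div_iff₀ (by positivity) hK0]
      nlinarith
    refine (Finset.sum_le_sum h1).trans ?_
    rw [← Finset.sum_mul]
    refine mul_le_mul_of_nonneg_right ?_ (by positivity)
    refine le_trans ?_ hA
    exact Finset.sum_le_sum_of_subset_of_nonneg (Finset.filter_subset _ _) fun _ _ _ => abs_nonneg _
  rw [hsplit]
  have h9 : ∑ n ∈ M, ArithmeticFunction.vonMangoldt n / n * bx K v h (Real.log n) +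
      ∑ n ∈ (sY Y).filter (fun n : ℕ => ¬ |Real.log n - Y| ≤ 1 / 2), a n * bx K v h (Real.log n) -
      2 * Real.pi * SL v h = (∑ n ∈ M, ArithmeticFunction.vonMangoldt n / n * bx K v h (Real.log n) -
      2 * Real.pi * SL v h) + ∑ n ∈ (sY Y).filter (fun n : ℕ => ¬ |Real.log n - Y| ≤ 1 / 2),
      a n * bx K v h (Real.log n) := by ring
  rw [h9]
  exact (abs_add_le _ _).trans (add_le_add hmain hout)

/-- exchange of the sum and the integral -/
theorem ff_integral (Y v h : ℝ) (a : ℕ → ℝ) (K : ℕ) :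
    ∑ n ∈ sY Y, a n * bx K v h (Real.log n) = ∫ u in v..(v + h), FF Y u a K := by
  unfold FF bx
  rw [intervalIntegral.integral_finsetSum]
  · refine Finset.sum_congr rfl fun n _ => ?_
    rw [intervalIntegral.integral_const_mul]
  · intro n _
    exact ((fj_cont K).comp (continuous_const.sub continuous_id)).const_mul (a n) |>.intervalIntegrable _ _

theorem ff_cont (Y : ℝ) (a : ℕ → ℝ) (K : ℕ) : Continuous fun u => FF Y u a K := by
  unfold FF
  exact continuous_finsetSum _ fun n _ =>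
    ((fj_cont K).comp (continuous_const.sub continuous_id)).const_mul (a n)

theorem ff_lip {Y A1 : ℝ} {a : ℕ → ℝ} (hA : ∑ n ∈ sY Y, |a n| ≤ A1) (K : ℕ) (u u' : ℝ) :
    |FF Y u a K - FF Y u' a K| ≤ A1 * (2 * (K : ℝ) ^ 2 * |u - u'|) := by
  unfold FF
  rw [← Finset.sum_sub_distrib]
  refine (Finset.abs_sum_le_sum_abs _ _).trans ?_
  have h1 : ∀ n ∈ sY Y, |a n * Fj K (Real.log n - u) - a n * Fj K (Real.log n - u')| ≤
      |a n| * (2 * (K : ℝ) ^ 2 * |u - u'|) := by
    intro n _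
    rw [← mul_sub, abs_mul]
    refine mul_le_mul_of_nonneg_left ?_ (abs_nonneg _)
    refine (fj_lip K _ _).trans (le_of_eq ?_)
    congr 1
    rw [show Real.log n - u - (Real.log n - u') = -(u - u') by ring, abs_neg]
  refine (Finset.sum_le_sum h1).trans ?_
  rw [← Finset.sum_mul]
  exact mul_le_mul_of_nonneg_right hA (by positivity)

end Pool.Agent.H39x.LP
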