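import Pool.Agent.Q95.KS.Tup
import Pool.Agent.Q298.KS.Tri
import Pool.Agent.Q278.KS.Mai
import Pool.Agent.Q257.KS.FEa

/-!
# Project LP: the coefficients in Heath-Brown's identity have polynomially bounded total mass
-/

set_option autoImplicit false

namespace Pool.Agent.H39x.LP

open Finset Pool.Agent.H376R2.MR Pool.Agent.Q240.KS Pool.Agent.Q95.KS Pool.Agent.Q298.KS Pool.Agent.Q257.KS

theorem l1_mul (f g : ArithmeticFunction ℝ) (N : ℕ) {a b : ℝ} (ha : ∑ n ∈ Icc 1 N, |f n| ≤ a)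
    (hb : ∑ n ∈ Icc 1 N, |g n| ≤ b) : ∑ n ∈ Icc 1 N, |(f * g) n| ≤ a * b := by
  classical
  have ha0 : 0 ≤ a := le_trans (Finset.sum_nonneg fun _ _ => abs_nonneg _) ha
  set P : Finset (ℕ × ℕ) := Icc 1 N ×ˢ Icc 1 N with hP
  have h1 : ∀ n ∈ Icc 1 N, |(f * g) n| ≤ ∑ x ∈ P.filter (fun x => x.1 * x.2 = n), |f x.1| * |g x.2| := by
    intro n hn
    rw [Finset.mem_Icc] at hn
    rw [ArithmeticFunction.mul_apply]
    refine (Finset.abs_sum_le_sum_abs _ _).trans (le_of_eq ?_)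
    have h2 : n.divisorsAntidiagonal = P.filter (fun x => x.1 * x.2 = n) := by
      ext x
      rw [Nat.mem_divisorsAntidiagonal, Finset.mem_filter, hP, Finset.mem_product, Finset.mem_Icc,
        Finset.mem_Icc]
      constructor
      · rintro ⟨h3, h4⟩
        have hx1 : x.1 ≠ 0 := fun h => by rw [h] at h3; simp at h3; omega
        have hx2 : x.2 ≠ 0 := fun h => by rw [h] at h3; simp at h3; omega
        have h5 : x.1 ≤ n := h3 ▸ Nat.le_mul_of_pos_right _ (Nat.pos_of_ne_zero hx2)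
        have h6 : x.2 ≤ n := h3 ▸ Nat.le_mul_of_pos_left _ (Nat.pos_of_ne_zero hx1)
        exact ⟨⟨⟨by omega, by omega⟩, ⟨by omega, by omega⟩⟩, h3⟩
      · rintro ⟨_, h3⟩
        exact ⟨h3, by omega⟩
    rw [h2]
    exact Finset.sum_congr rfl fun x _ => abs_mul _ _
  refine (Finset.sum_le_sum h1).trans ?_
  have h2 : ∑ n ∈ Icc 1 N, ∑ x ∈ P.filter (fun x => x.1 * x.2 = n), |f x.1| * |g x.2| =
      ∑ x ∈ P.filter (fun x => x.1 * x.2 ∈ Icc 1 N), |f x.1| * |g x.2| := by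
    rw [← Finset.sum_fiberwise_of_maps_to (s := P.filter (fun x => x.1 * x.2 ∈ Icc 1 N))
      (t := Icc 1 N) (g := fun x => x.1 * x.2) (fun x hx => (Finset.mem_filter.1 hx).2)]
    refine Finset.sum_congr rfl fun n hn => ?_
    congr 1
    ext x
    simp only [Finset.mem_filter]
    constructor
    · rintro ⟨h3, h4⟩
      exact ⟨⟨h3, by rw [h4]; exact hn⟩, h4⟩
    · rintro ⟨⟨h3, _⟩, h4⟩
      exact ⟨h3, h4⟩
  rw [h2]
  calc ∑ x ∈ P.filter (fun x => x.1 * x.2 ∈ Icc 1 N), |f x.1| * |g x.2|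
      ≤ ∑ x ∈ P, |f x.1| * |g x.2| :=
        Finset.sum_le_sum_of_subset_of_nonneg (Finset.filter_subset _ _) fun _ _ _ => by positivity
    _ = (∑ n ∈ Icc 1 N, |f n|) * ∑ n ∈ Icc 1 N, |g n| := by
        rw [hP, Finset.sum_product, Finset.sum_mul_sum]
    _ ≤ a * b := mul_le_mul ha hb (Finset.sum_nonneg fun _ _ => abs_nonneg _) ha0

theorem l1_prod (f : Fin 10 → ArithmeticFunction ℝ) (b : Fin 10 → ℝ) (N : ℕ)
    (hb : ∀ i, ∑ n ∈ Icc 1 N, |f i n| ≤ b i) (s : Finset (Fin 10)) :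
    ∑ n ∈ Icc 1 N, |(∏ i ∈ s, f i) n| ≤ ∏ i ∈ s, b i := by
  classical
  induction s using Finset.induction_on with
  | empty =>
    rw [Finset.prod_empty, Finset.prod_empty]
    calc ∑ n ∈ Icc 1 N, |(1 : ArithmeticFunction ℝ) n| ≤ ∑ n ∈ Icc 1 N, if n = 1 then (1 : ℝ) else 0 := by
          refine Finset.sum_le_sum fun n _ => ?_
          rw [ArithmeticFunction.one_apply]
          split_ifs <;> simp
      _ ≤ 1 := by
          rw [Finset.sum_ite_eq']
          split_ifs <;> norm_num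
  | insert i s hi ih =>
    rw [Finset.prod_insert hi, Finset.prod_insert hi]
    exact l1_mul _ _ N (hb i) ih

theorem l1_af (z : ℕ) (t : Fin 3) (d N : ℕ) : ∑ n ∈ Icc 1 N, |af z t d n| ≤ 2 * (1 + (d : ℝ)) := by
  classical
  have h4 : (0 : ℝ) ≤ cb t d := (zero_le_one).trans (one_le_cb t d)
  have h1 : ∑ n ∈ Icc 1 N, |af z t d n| ≤ ∑ n ∈ sp d, |cf z t d n| := by
    rw [← Finset.sum_filter_add_sum_filter_not (Icc 1 N) (fun n => n ∈ sp d)]
    have h2 : ∑ n ∈ (Icc 1 N).filter (fun n => n ∉ sp d), |af z t d n| = 0 := by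
      refine Finset.sum_eq_zero fun n hn => ?_
      obtain ⟨h3, h5⟩ := Finset.mem_filter.1 hn
      rw [Finset.mem_Icc] at h3
      unfold sp at h5
      rw [Finset.mem_Icc] at h5
      rw [af_sup z t d n (by omega), abs_zero]
    rw [h2, add_zero]
    exact Finset.sum_le_sum_of_subset_of_nonneg (fun n hn => (Finset.mem_filter.1 hn).2)
      fun _ _ _ => abs_nonneg _
  refine h1.trans ?_
  rw [sum_sp_eq d _ (fun n h1 h => by rw [cf_lo h1 h, abs_zero])]
  calc ∑ n ∈ Ico (lo d) (hi d), |cf z t d n| ≤ ∑ n ∈ Ico (lo d) (hi d), cb t d * (1 / n) := by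
        refine sum_le_sum fun n hn => ?_
        rw [mem_Ico] at hn
        refine (cf_abs z t d n ((one_le_lo d).trans hn.1) hn.2).trans (le_of_eq (by ring))
    _ = cb t d * ∑ n ∈ Ico (lo d) (hi d), (1 : ℝ) / n := by rw [mul_sum]
    _ ≤ cb t d * (1 + 1 / 10) := mul_le_mul_of_nonneg_left (sum_inv_window d) h4
    _ ≤ 2 * (1 + (d : ℝ)) := by have := cb_le t d; linarith

theorem l1_aY {Y : ℝ} (hY : 21 ≤ Y) : ∑ n ∈ sY Y, |aY Y n| ≤ 31 * (21 * 50) ^ 10 * Y ^ 20 := by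
  classical
  have h1 : ∀ n ∈ sY Y, |aY Y n| ≤ ∑ d ∈ DY Y, 31 * |TT (zY Y) d n| := by
    intro n _
    unfold aY
    refine (Finset.abs_sum_le_sum_abs _ _).trans (Finset.sum_le_sum fun d _ => ?_)
    rw [abs_mul]
    have := ed_bound d
    gcongr
  refine (Finset.sum_le_sum h1).trans ?_
  rw [Finset.sum_comm]
  have h2 : ∀ d ∈ DY Y, ∑ n ∈ sY Y, 31 * |TT (zY Y) d n| ≤ 31 * (50 * Y) ^ 10 := by
    intro d hd
    rw [← Finset.mul_sum]
    have h3 := l1_prod (fun i => af (zY Y) (ty i) (d i)) (fun i => 50 * Y) ⌊Real.exp (Y + 3 / 2)⌋₊ (by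
      intro i
      refine (l1_af (zY Y) (ty i) (d i) _).trans ?_
      have := Pool.Agent.Q278.KS.DY_le' (by linarith) hd i
      linarith) univ
    rw [Finset.prod_const, Finset.card_univ, Fintype.card_fin] at h3
    have h4 : ∑ n ∈ sY Y, |TT (zY Y) d n| ≤ (50 * Y) ^ 10 := h3
    gcongr
  refine (Finset.sum_le_card_nsmul _ _ _ h2).trans ?_
  rw [nsmul_eq_mul]
  have h3 := Pool.Agent.Q278.KS.card_DY hY
  calc ((DY Y).card : ℝ) * (31 * (50 * Y) ^ 10) ≤ (21 * Y) ^ 10 * (31 * (50 * Y) ^ 10) := by gcongr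
    _ = _ := by ring

end Pool.Agent.H39x.LP
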