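import Mathlib
import Pool.Agent.TH888.R.RR
import Pool.Agent.Q240.KS.Defs
import Pool.Agent.Q278.KS.Ev

/-!
# Project LP: the sum of `Λ(n)/n` over long intervals of `log n`, by the prime number theorem
-/

set_option autoImplicit false

namespace Pool.Agent.H39x.LP

open Finset Pool.Agent.Q240.KS
open Pool.Agent.H305R2 (pr pr_nonneg)

/-- the first integer of the interval, minus one -/
noncomputable def iA (v : ℝ) : ℕ := ⌈Real.exp v⌉₊ - 1

/-- the sum of `log p / p` over the primes with `v ≤ log p ≤ v + h` -/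
noncomputable def SP (v h : ℝ) : ℝ := ∑ k ∈ Ioc (iA v) ⌊Real.exp (v + h)⌋₊, Real.log k * pr k / k

theorem iA_lt {v : ℝ} {n : ℕ} (hn : 1 ≤ n) : iA v < n ↔ v ≤ Real.log n := by
  have hn0 : (0 : ℝ) < n := by exact_mod_cast hn
  unfold iA
  rw [Real.le_log_iff_exp_le hn0, ← Nat.ceil_le]
  omega

theorem iA_bounds {v : ℝ} (hv : 3 ≤ v) : 3 ≤ iA v ∧ Real.exp v ≤ (iA v : ℝ) + 1 ∧ (iA v : ℝ) ≤ Real.exp v := by
  have h0 := Real.exp_pos v
  have h1 : (4 : ℝ) ≤ Real.exp v := by have := Real.add_one_le_exp v; linarith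
  have h2 : 4 ≤ ⌈Real.exp v⌉₊ := by
    have : (4 : ℝ) ≤ (⌈Real.exp v⌉₊ : ℝ) := h1.trans (Nat.le_ceil _)
    exact_mod_cast this
  have h3 : ((iA v : ℕ) : ℝ) = (⌈Real.exp v⌉₊ : ℝ) - 1 := by
    unfold iA
    rw [Nat.cast_sub (by omega)]
    simp
  refine ⟨by unfold iA; omega, ?_, ?_⟩
  · rw [h3]
    have := Nat.le_ceil (Real.exp v)
    linarith
  · rw [h3]
    have := (Nat.ceil_lt_add_one h0.le).le
    linarith

theorem sl_eq {v h : ℝ} : SL v h = ∑ k ∈ Ioc (iA v) ⌊Real.exp (v + h)⌋₊, ArithmeticFunction.vonMangoldt k / k := by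
  unfold SL
  refine Finset.sum_congr ?_ fun _ _ => rfl
  ext n
  simp only [Finset.mem_filter, Finset.mem_Icc, Finset.mem_Ioc]
  constructor
  · rintro ⟨⟨h1, h2⟩, h3⟩
    exact ⟨(iA_lt h1).2 h3, h2⟩
  · rintro ⟨h1, h2⟩
    have hn : 1 ≤ n := by omega
    exact ⟨⟨hn, h2⟩, (iA_lt hn).1 h1⟩

/-- the proper prime powers -/
theorem sl_sp : ∃ C : ℝ, 0 < C ∧ ∀ v h : ℝ, 3 ≤ v → 0 ≤ h → h ≤ 1 →
    |SL v h - SP v h| ≤ C * Real.exp (-(v / 2)) := by
  obtain ⟨C, hC⟩ := Chebyshev.psi_sub_theta_le_mul_sqrt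
  refine ⟨4 * |C| + 1, by positivity, fun v h hv hh0 hh1 => ?_⟩
  obtain ⟨h1, h2, h3⟩ := iA_bounds hv
  set A := iA v with hA
  set B := ⌊Real.exp (v + h)⌋₊ with hB
  have he := Real.exp_pos v
  have hA0 : (0 : ℝ) < A := by exact_mod_cast (by omega : 0 < A)
  have hA2 : Real.exp v / 2 ≤ A := by
    have : (3 : ℝ) ≤ A := by exact_mod_cast h1
    linarith
  have hBle : (B : ℝ) ≤ Real.exp (v + h) := Nat.floor_le (Real.exp_pos _).le
  have hterm : ∀ k : ℕ, 0 ≤ ArithmeticFunction.vonMangoldt k - Real.log k * pr k := by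
    intro k
    unfold pr
    split_ifs with hk
    · rw [ArithmeticFunction.vonMangoldt_apply_prime hk]; simp
    · rw [mul_zero, sub_zero]; exact ArithmeticFunction.vonMangoldt_nonneg
  have hdiff : SL v h - SP v h = ∑ k ∈ Ioc A B, (ArithmeticFunction.vonMangoldt k - Real.log k * pr k) / k := by
    rw [sl_eq]
    unfold SP
    rw [← Finset.sum_sub_distrib]
    exact Finset.sum_congr rfl fun k _ => by rw [sub_div]
  have hpos : 0 ≤ SL v h - SP v h := by
    rw [hdiff]
    exact Finset.sum_nonneg fun k _ => div_nonneg (hterm k) (Nat.cast_nonneg _)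
  rw [abs_of_nonneg hpos, hdiff]
  have e1 : ∑ k ∈ Ioc A B, (ArithmeticFunction.vonMangoldt k - Real.log k * pr k) / k ≤
      ∑ k ∈ Ioc 0 B, (ArithmeticFunction.vonMangoldt k - Real.log k * pr k) / A := by
    calc _ ≤ ∑ k ∈ Ioc A B, (ArithmeticFunction.vonMangoldt k - Real.log k * pr k) / A := by
          refine Finset.sum_le_sum fun k hk => ?_
          rw [Finset.mem_Ioc] at hk
          have : (A : ℝ) ≤ k := by exact_mod_cast hk.1.le
          exact div_le_div_of_nonneg_left (hterm k) hA0 this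
      _ ≤ _ := by
          refine Finset.sum_le_sum_of_subset_of_nonneg ?_ fun k _ _ => div_nonneg (hterm k) hA0.le
          intro k hk
          rw [Finset.mem_Ioc] at hk ⊢
          omega
  have e2 : ∑ k ∈ Ioc 0 B, (ArithmeticFunction.vonMangoldt k - Real.log k * pr k) / (A : ℝ) =
      (Chebyshev.psi (B : ℝ) - Chebyshev.theta (B : ℝ)) / A := by
    rw [← Finset.sum_div, Finset.sum_sub_distrib]
    congr 2
    · unfold Chebyshev.psi
      rw [Nat.floor_natCast]
    · unfold Chebyshev.theta pr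
      rw [Nat.floor_natCast, Finset.sum_filter]
      refine Finset.sum_congr rfl fun k _ => ?_
      split_ifs <;> simp
  rw [e2] at e1
  refine e1.trans ?_
  have e3 : Chebyshev.psi (B : ℝ) - Chebyshev.theta (B : ℝ) ≤ |C| * (2 * Real.exp (v / 2)) := by
    refine (hC B).trans ?_
    have e4 : Real.sqrt (B : ℝ) ≤ 2 * Real.exp (v / 2) := by
      rw [Real.sqrt_le_left (by positivity)]
      calc (B : ℝ) ≤ Real.exp (v + h) := hBle
        _ ≤ Real.exp (v + 1) := Real.exp_le_exp.2 (by linarith)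
        _ = Real.exp (v / 2) ^ 2 * Real.exp 1 := by
            rw [← Real.exp_nat_mul, ← Real.exp_add]; congr 1; push_cast; ring
        _ ≤ Real.exp (v / 2) ^ 2 * 4 := by
            have := Real.exp_one_lt_d9
            gcongr
            linarith
        _ = _ := by ring
    calc C * Real.sqrt (B : ℝ) ≤ |C| * Real.sqrt (B : ℝ) :=
          mul_le_mul_of_nonneg_right (le_abs_self C) (Real.sqrt_nonneg _)
      _ ≤ _ := by gcongr
  calc (Chebyshev.psi (B : ℝ) - Chebyshev.theta (B : ℝ)) / A ≤ |C| * (2 * Real.exp (v / 2)) / A := by gcongr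
    _ ≤ |C| * (2 * Real.exp (v / 2)) / (Real.exp v / 2) := by gcongr
    _ = 4 * |C| * Real.exp (-(v / 2)) := by
        have e5 : Real.exp v = Real.exp (v / 2) * Real.exp (v / 2) := by rw [← Real.exp_add]; congr 1; ring
        rw [e5, Real.exp_neg]
        field_simp
        ring
    _ ≤ (4 * |C| + 1) * Real.exp (-(v / 2)) := by
        have := Real.exp_pos (-(v / 2))
        nlinarith

theorem sum_inv_log {A B : ℕ} (hA : 1 ≤ A) (hAB : A ≤ B) :
    Real.log ((B + 1 : ℝ) / (A + 1)) ≤ ∑ k ∈ Ioc A B, (k : ℝ)⁻¹ ∧ ∑ k ∈ Ioc A B, (k : ℝ)⁻¹ ≤ Real.log ((B : ℝ) / A) := by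
  induction B, hAB using Nat.le_induction with
  | base =>
    have hA0 : (0 : ℝ) < A := by exact_mod_cast hA
    rw [Finset.Ioc_self, Finset.sum_empty, div_self (by positivity), div_self hA0.ne', Real.log_one]
    simp
  | succ B hAB ih =>
    have hA0 : (0 : ℝ) < A := by exact_mod_cast hA
    have hB0 : (0 : ℝ) < B := by exact_mod_cast (by omega : 0 < B)
    rw [Finset.sum_Ioc_succ_top hAB]
    push_cast
    constructor
    · have h1 : Real.log ((B + 1 + 1 : ℝ) / (A + 1)) = Real.log ((B + 1 : ℝ) / (A + 1)) +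
          Real.log ((B + 1 + 1 : ℝ) / (B + 1)) := by
        rw [← Real.log_mul (by positivity) (by positivity)]
        congr 1
        field_simp
      have h2 : Real.log ((B + 1 + 1 : ℝ) / (B + 1)) ≤ ((B : ℝ) + 1)⁻¹ := by
        have := Real.log_le_sub_one_of_pos (show (0 : ℝ) < (B + 1 + 1 : ℝ) / (B + 1) by positivity)
        refine this.trans (le_of_eq ?_)
        field_simp
        ring
      linarith [ih.1]
    · have h1 : Real.log ((B + 1 : ℝ) / A) = Real.log ((B : ℝ) / A) + Real.log ((B + 1 : ℝ) / B) := by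
        rw [← Real.log_mul (by positivity) (by positivity)]
        congr 1
        field_simp
      have h2 : ((B : ℝ) + 1)⁻¹ ≤ Real.log ((B + 1 : ℝ) / B) := by
        have := Real.one_sub_inv_le_log_of_pos (show (0 : ℝ) < (B + 1 : ℝ) / B by positivity)
        refine le_trans (le_of_eq ?_) this
        field_simp
        ring
      linarith [ih.2]

theorem sp_pnt (U : ℕ) : ∃ C Y₀ : ℝ, 0 < C ∧ ∀ v h : ℝ, Y₀ ≤ v → 0 ≤ h → h ≤ 1 →
    |SP v h - h| ≤ C / v ^ U := by
  obtain ⟨C, hC, hth⟩ := Pool.Agent.H442R2.EHI.PntErrAux.thetaU U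
  -- exp v is larger than v ^ U
  obtain ⟨Y₁, hY₁⟩ := Filter.eventually_atTop.1 (Pool.Agent.Q278.KS.ev_poly 1 U (show (0 : ℝ) < 1 by norm_num))
  refine ⟨C * 2 ^ U * 5 + 8, max Y₁ 4, by positivity, fun v h hv hh0 hh1 => ?_⟩
  have hv1 : Y₁ ≤ v := (le_max_left _ _).trans hv
  have hv4 : 4 ≤ v := (le_max_right _ _).trans hv
  have hv0 : 0 < v := by linarith
  have hpe : v ^ U ≤ Real.exp v := by
    have := hY₁ v hv1
    rwa [one_mul, one_mul] at this
  obtain ⟨h1, h2, h3⟩ := iA_bounds (by linarith : 3 ≤ v)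
  unfold SP
  set A := iA v with hA
  set B := ⌊Real.exp (v + h)⌋₊ with hB
  have he := Real.exp_pos v
  have he4 : (4 : ℝ) ≤ Real.exp v := by have := Real.add_one_le_exp v; linarith
  have hA0 : (0 : ℝ) < A := by exact_mod_cast (by omega : 0 < A)
  have hA3 : (3 : ℝ) ≤ A := by exact_mod_cast h1
  have hA2 : Real.exp v / 2 ≤ A := by linarith
  have hBle : (B : ℝ) ≤ Real.exp (v + h) := Nat.floor_le (Real.exp_pos _).le
  have hBlt : Real.exp (v + h) < B + 1 := Nat.lt_floor_add_one _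
  have hevh : Real.exp v ≤ Real.exp (v + h) := Real.exp_le_exp.2 (by linarith)
  have hAB : A ≤ B := by
    have h4 : (A : ℝ) < B + 1 := by linarith
    have h5 : A < B + 1 := by exact_mod_cast h4
    omega
  rw [Pool.Agent.TH888.R.abel_RR A (by omega) B hAB]
  -- logarithms
  have hlogA : v / 2 ≤ Real.log A := by
    rw [Real.le_log_iff_exp_le hA0]
    have e1 : Real.exp v = Real.exp (v / 2) * Real.exp (v / 2) := by rw [← Real.exp_add]; congr 1; ring
    have e2 : 2 ≤ Real.exp (v / 2) := by have := Real.add_one_le_exp (v / 2); linarith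
    have := Real.exp_pos (v / 2)
    nlinarith
  have hlogA0 : 0 < Real.log A := by linarith
  -- the error terms
  set δ : ℝ := C * 2 ^ U / v ^ U with hδ
  have hδ0 : 0 ≤ δ := by positivity
  have hEE : ∀ k : ℕ, A ≤ k → |Pool.Agent.TH888.R.EE k| ≤ δ * k := by
    intro k hk
    unfold Pool.Agent.TH888.R.EE
    have hk0 : (0 : ℝ) < k := by exact_mod_cast (by omega : 0 < k)
    refine (hth k (by omega)).trans ?_
    have h4 : Real.log A ≤ Real.log k := Real.log_le_log hA0 (by exact_mod_cast hk)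
    have h5 : (v / 2) ^ U ≤ Real.log k ^ U := pow_le_pow_left₀ (by positivity) (hlogA.trans h4) U
    calc C * ((k : ℝ) / Real.log k ^ U) ≤ C * ((k : ℝ) / (v / 2) ^ U) := by gcongr
      _ = δ * k := by rw [hδ, div_pow]; field_simp
  have hsum1 := (sum_inv_log (by omega) hAB)
  have hlogBA : Real.log ((B : ℝ) / A) ≤ h + 4 / Real.exp v := by
    have e1 : Real.log ((B : ℝ) / A) ≤ Real.log (Real.exp (v + h) / A) := by
      have hB0 : (0 : ℝ) < B := lt_of_lt_of_le hA0 (by exact_mod_cast hAB)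
      exact Real.log_le_log (by positivity) (by gcongr)
    rw [Real.log_div (Real.exp_pos _).ne' hA0.ne', Real.log_exp] at e1
    have e2 : v - 4 / Real.exp v ≤ Real.log A := by
      have e3 : Real.log (Real.exp v - 1) ≤ Real.log A := Real.log_le_log (by linarith) (by linarith)
      have e4 : Real.log (Real.exp v - 1) = v + Real.log (1 - 1 / Real.exp v) := by
        have : Real.exp v - 1 = Real.exp v * (1 - 1 / Real.exp v) := by field_simp
        rw [this, Real.log_mul he.ne' (by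
          have : 1 / Real.exp v ≤ 1 / 4 := by
            gcongr
          linarith), Real.log_exp]
      have e5 : -(2 / Real.exp v) ≤ Real.log (1 - 1 / Real.exp v) := by
        have e6 : 1 / Real.exp v ≤ 1 / 4 := by
          gcongr
        have e7 := Real.one_sub_inv_le_log_of_pos (show 0 < 1 - 1 / Real.exp v by linarith)
        refine le_trans ?_ e7
        have e9 : 0 < 1 / Real.exp v := by positivity
        rw [show (2 : ℝ) / Real.exp v = 2 * (1 / Real.exp v) by ring]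
        generalize 1 / Real.exp v = x at e6 e9
        have e8 : 0 < 1 - x := by linarith
        rw [neg_le_sub_iff_le_add, inv_le_iff_one_le_mul₀ e8]
        nlinarith
      have e6 : 2 / Real.exp v ≤ 4 / Real.exp v := by gcongr; norm_num
      linarith
    linarith
  have hlogBA2 : h - 4 / Real.exp v ≤ Real.log ((B + 1 : ℝ) / (A + 1)) := by
    have e1 : Real.log (Real.exp (v + h) / (Real.exp v + 1)) ≤ Real.log ((B + 1 : ℝ) / (A + 1)) := by
      apply Real.log_le_log (by positivity)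
      gcongr
    have e2 : Real.log (Real.exp (v + h) / (Real.exp v + 1)) = h - Real.log (1 + 1 / Real.exp v) := by
      have : Real.exp v + 1 = Real.exp v * (1 + 1 / Real.exp v) := by field_simp
      rw [this, Real.log_div (Real.exp_pos _).ne' (by positivity), Real.log_mul he.ne' (by positivity),
        Real.log_exp, Real.log_exp]
      ring
    have e3 := Real.log_le_sub_one_of_pos (show 0 < 1 + 1 / Real.exp v by positivity)
    have e4 : 1 / Real.exp v ≤ 4 / Real.exp v := by gcongr; norm_num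
    linarith
  have hS1 : |∑ k ∈ Ioc A B, (k : ℝ)⁻¹ - h| ≤ 4 / Real.exp v := by
    rw [abs_le]; constructor <;> linarith [hsum1.1, hsum1.2]
  have hS1' : ∑ k ∈ Ioc A B, (k : ℝ)⁻¹ ≤ 3 := by
    have := (abs_le.1 hS1).2
    have e1 : 4 / Real.exp v ≤ 1 := by
      rw [div_le_one he]; linarith
    linarith
  have hE1 : |Pool.Agent.TH888.R.EE B / B| ≤ δ := by
    have hB0 : (0 : ℝ) < B := lt_of_lt_of_le hA0 (by exact_mod_cast hAB)
    rw [abs_div, abs_of_pos hB0, div_le_iff₀ hB0]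
    exact hEE B hAB
  have hE2 : |Pool.Agent.TH888.R.EE A / A| ≤ δ := by
    rw [abs_div, abs_of_pos hA0, div_le_iff₀ hA0]
    exact hEE A le_rfl
  have hE3 : |∑ k ∈ Ico A B, Pool.Agent.TH888.R.EE k * ((k : ℝ)⁻¹ - ((k : ℝ) + 1)⁻¹)| ≤ δ * 3 := by
    refine (Finset.abs_sum_le_sum_abs _ _).trans ?_
    have e1 : ∀ k ∈ Ico A B, |Pool.Agent.TH888.R.EE k * ((k : ℝ)⁻¹ - ((k : ℝ) + 1)⁻¹)| ≤
        δ * (((k + 1 : ℕ) : ℝ)⁻¹) := by
      intro k hk
      rw [Finset.mem_Ico] at hk
      have hk0 : (0 : ℝ) < k := by exact_mod_cast (by omega : 0 < k)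
      have e2 : (k : ℝ)⁻¹ - ((k : ℝ) + 1)⁻¹ = (k : ℝ)⁻¹ * ((k : ℝ) + 1)⁻¹ := by field_simp; ring
      rw [e2, abs_mul, abs_of_pos (by positivity : 0 < (k : ℝ)⁻¹ * ((k : ℝ) + 1)⁻¹)]
      calc |Pool.Agent.TH888.R.EE k| * ((k : ℝ)⁻¹ * ((k : ℝ) + 1)⁻¹) ≤
            δ * k * ((k : ℝ)⁻¹ * ((k : ℝ) + 1)⁻¹) := by
              have := hEE k hk.1
              gcongr
        _ = _ := by push_cast; field_simp
    refine (Finset.sum_le_sum e1).trans ?_
    rw [← Finset.mul_sum, Finset.sum_Ico_add' (fun n : ℕ => ((n : ℕ) : ℝ)⁻¹) A B 1]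
    have e3 : Ico (A + 1) (B + 1) = Ioc A B := by
      ext n
      simp only [Finset.mem_Ico, Finset.mem_Ioc]
      omega
    rw [e3]
    gcongr
  have hfin : |∑ k ∈ Ioc A B, (k : ℝ)⁻¹ + (Pool.Agent.TH888.R.EE B / B - Pool.Agent.TH888.R.EE A / A +
      ∑ k ∈ Ico A B, Pool.Agent.TH888.R.EE k * ((k : ℝ)⁻¹ - ((k : ℝ) + 1)⁻¹)) - h| ≤
      4 / Real.exp v + 5 * δ := by
    rw [abs_le] at *
    constructor <;> linarith [hS1.1, hS1.2, hE1.1, hE1.2, hE2.1, hE2.2, hE3.1, hE3.2]
  refine hfin.trans ?_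
  have e1 : 4 / Real.exp v ≤ 4 / v ^ U := by gcongr
  have e2 : 5 * δ = C * 2 ^ U * 5 / v ^ U := by rw [hδ]; ring
  rw [e2]
  have e3 : (C * 2 ^ U * 5 + 8) / v ^ U = C * 2 ^ U * 5 / v ^ U + 4 / v ^ U + 4 / v ^ U := by ring
  rw [e3]
  have e4 : 0 ≤ 4 / v ^ U := by positivity
  linarith

end Pool.Agent.H39x.LP
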