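import Pool.Agent.H39x.LP.Dif
import Pool.Agent.H39x.LP.L1
import Pool.Agent.H39x.LP.BoxSum
import Pool.Agent.H39x.LP.Pnt

/-!
# Project LP: the prime number theorem in intervals of length `x ^ 0.5834`

`∑ Λ(n)/n` over `v ≤ log n ≤ v + h` is `h (1 + O(v ^ (-B)))` for `h ≥ e^{- 0.4166 v}`.
-/

set_option autoImplicit false

namespace Pool.Agent.H39x.LP

open Finset Filter Topology MeasureTheory Pool.Agent.H376R2.MR Pool.Agent.Q240.KS Pool.Agent.Q278.KS
open Pool.Agent.Q257.KS Pool.Agent.Q95.KS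

theorem comp_mean {Y v h ε₁ ε₂ ε₃ : ℝ} {a : ℕ → ℝ} {K K₁ : ℕ} (hh : 0 ≤ h)
    (h1 : ∀ u : ℝ, |FF Y u a K - FF Y u a K₁| ≤ ε₁)
    (h2 : ∀ u ∈ Set.Icc v (v + h), |FF Y u a K₁ - FF Y v a K₁| ≤ ε₂)
    (h3 : |∑ n ∈ sY Y, a n * bx K v h (Real.log n) - 2 * Real.pi * SL v h| ≤ ε₃ * h) :
    |2 * Real.pi * SL v h - h * FF Y v a K₁| ≤ (ε₁ + ε₂ + ε₃) * h := by
  rw [ff_integral] at h3
  have h4 : ∫ u in v..(v + h), (FF Y u a K - FF Y v a K₁) = (∫ u in v..(v + h), FF Y u a K) - h * FF Y v a K₁ := by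
    rw [intervalIntegral.integral_sub ((ff_cont Y a K).intervalIntegrable _ _) intervalIntegrable_const]
    simp
  have h5 : ∀ u ∈ Set.uIoc v (v + h), ‖FF Y u a K - FF Y v a K₁‖ ≤ ε₁ + ε₂ := by
    intro u hu
    rw [Set.uIoc_of_le (by linarith)] at hu
    rw [Real.norm_eq_abs]
    calc |FF Y u a K - FF Y v a K₁| ≤ |FF Y u a K - FF Y u a K₁| + |FF Y u a K₁ - FF Y v a K₁| :=
          abs_sub_le _ _ _
      _ ≤ ε₁ + ε₂ := add_le_add (h1 u) (h2 u ⟨hu.1.le, hu.2⟩)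
  have h6 := intervalIntegral.norm_integral_le_of_norm_le_const h5
  rw [Real.norm_eq_abs, h4, show v + h - v = h by ring, abs_of_nonneg hh] at h6
  have h7 := abs_sub_le (2 * Real.pi * SL v h) (∫ u in v..(v + h), FF Y u a K) (h * FF Y v a K₁)
  have h8 := abs_sub_comm (2 * Real.pi * SL v h) (∫ u in v..(v + h), FF Y u a K)
  have h9 : (ε₁ + ε₂ + ε₃) * h = (ε₁ + ε₂) * h + ε₃ * h := by ring
  rw [h9]
  linarith

theorem sl_pnt (U : ℕ) : ∃ C Y₀ : ℝ, 0 < C ∧ ∀ v h : ℝ, Y₀ ≤ v → 0 ≤ h → h ≤ 1 →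
    |SL v h - h| ≤ C / v ^ U := by
  obtain ⟨C₁, Y₁, hC₁, h1⟩ := sp_pnt U
  obtain ⟨C₂, hC₂, h2⟩ := sl_sp
  obtain ⟨Y₂, hY₂⟩ := eventually_atTop.1 (ev_poly 1 U (show (0 : ℝ) < 1 / 2 by norm_num))
  refine ⟨C₁ + C₂, max Y₁ (max Y₂ 3), by positivity, fun v h hv hh0 hh1 => ?_⟩
  have hv1 : Y₁ ≤ v := (le_max_left _ _).trans hv
  have hv2 : Y₂ ≤ v := ((le_max_left _ _).trans (le_max_right _ _)).trans hv
  have hv3 : 3 ≤ v := ((le_max_right _ _).trans (le_max_right _ _)).trans hv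
  have e1 := h1 v h hv1 hh0 hh1
  have e2 := h2 v h hv3 hh0 hh1
  have e3 : Real.exp (-(v / 2)) ≤ 1 / v ^ U := by
    have e4 := hY₂ v hv2
    rw [one_mul] at e4
    rw [Real.exp_neg, ← one_div]
    apply one_div_le_one_div_of_le (by positivity)
    refine e4.trans (le_of_eq ?_)
    congr 1
    ring
  have e4 := abs_sub_le (SL v h) (SP v h) h
  calc |SL v h - h| ≤ C₂ * Real.exp (-(v / 2)) + C₁ / v ^ U := e4.trans (add_le_add e2 e1)
    _ ≤ C₂ * (1 / v ^ U) + C₁ / v ^ U := by gcongr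
    _ = (C₁ + C₂) / v ^ U := by ring

theorem asy (B : ℕ) : ∃ C Y₀ : ℝ, 0 < C ∧ ∀ v h : ℝ, Y₀ ≤ v → Real.exp (-(0.4166 * v)) ≤ h → h ≤ 1 →
    |SL v h - h| ≤ C * h / v ^ B := by
  obtain ⟨A, η, Y₁, hη, hdif⟩ := dif (B + 2)
  obtain ⟨CB, Y₂, hCB, hbtl⟩ := Pool.Agent.Q251.KS.btl 0.6 (by norm_num) (by norm_num)
  obtain ⟨A', hA'⟩ : ∃ A' : ℕ, A' = 6 * A + B + 24 := ⟨_, rfl⟩
  obtain ⟨D, hD⟩ : ∃ D : ℕ, D = B + 24 := ⟨_, rfl⟩
  obtain ⟨C, Y₃, hC, hpnt⟩ := sl_pnt (A' + B + 2)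
  obtain ⟨Y₄, hY₄⟩ := eventually_atTop.1 (ev_poly 2 D hη)
  obtain ⟨Y₅, hY₅⟩ := eventually_atTop.1 (ev_poly 2 D (show (0 : ℝ) < 0.18 by norm_num))
  obtain ⟨C₀, hC₀⟩ : ∃ C₀ : ℝ, C₀ = 4 * CB * 27 + 1600 * (31 * (21 * 50) ^ 10) + 128 * (31 * (21 * 50) ^ 10) :=
    ⟨_, rfl⟩
  have hC₀pos : 0 < C₀ := by rw [hC₀]; positivity
  refine ⟨6 + C, max (max (max Y₁ Y₂) (max Y₃ Y₄)) (max (max Y₅ 200) C₀), by positivity, ?_⟩
  intro v h hv hhlo hh1
  have hv1 : Y₁ ≤ v := (((le_max_left _ _).trans (le_max_left _ _)).trans (le_max_left _ _)).trans hv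
  have hv2 : Y₂ ≤ v := (((le_max_right _ _).trans (le_max_left _ _)).trans (le_max_left _ _)).trans hv
  have hv3 : Y₃ ≤ v := (((le_max_left _ _).trans (le_max_right _ _)).trans (le_max_left _ _)).trans hv
  have hv4 : Y₄ ≤ v := (((le_max_right _ _).trans (le_max_right _ _)).trans (le_max_left _ _)).trans hv
  have hv5 : Y₅ ≤ v := (((le_max_left _ _).trans (le_max_left _ _)).trans (le_max_right _ _)).trans hv
  have hv6 : 200 ≤ v := (((le_max_right _ _).trans (le_max_left _ _)).trans (le_max_right _ _)).trans hv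
  have hv7 : C₀ ≤ v := ((le_max_right _ _).trans (le_max_right _ _)).trans hv
  have hv0 : 0 < v := by linarith
  have hh0 : 0 < h := lt_of_lt_of_le (Real.exp_pos _) hhlo
  set H : ℝ := 1 / v ^ A' with hH
  have hH0 : 0 < H := by positivity
  have hA'2 : 2 ≤ A' := by omega
  have hH1 : H ≤ 1 / 100 := by
    rw [hH]
    have : (100 : ℝ) ≤ v ^ A' := by
      calc (100 : ℝ) ≤ v ^ 1 := by rw [pow_one]; linarith
        _ ≤ v ^ A' := pow_le_pow_right₀ (by linarith) (by omega)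
    gcongr
  -- the prime number theorem at the scale `H`
  have hlarge : ∀ h' : ℝ, H ≤ h' → h' ≤ 1 → |SL v h' - h'| ≤ C * h' / v ^ (B + 2) := by
    intro h' h1 h2
    refine (hpnt v h' hv3 (hH0.le.trans h1) h2).trans ?_
    rw [div_le_div_iff₀ (by positivity) (by positivity)]
    have h3 : 1 ≤ h' * v ^ A' := by rw [hH, div_le_iff₀ (by positivity)] at h1; exact h1
    calc C * v ^ (B + 2) = C * 1 * v ^ (B + 2) := by ring
      _ ≤ C * (h' * v ^ A') * v ^ (B + 2) := by gcongr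
      _ = C * h' * v ^ (A' + B + 2) := by rw [show A' + B + 2 = A' + (B + 2) by ring, pow_add]; ring
  have hvB : v ^ B ≤ v ^ (B + 2) := pow_le_pow_right₀ (by linarith) (by omega)
  rcases le_or_gt H h with hcase | hcase
  · refine (hlarge h hcase hh1).trans ?_
    calc C * h / v ^ (B + 2) ≤ C * h / v ^ B := by gcongr
      _ ≤ (6 + C) * h / v ^ B := by gcongr; linarith
  -- the coefficients
  set a := aY v with ha
  have ha1 : ∀ n : ℕ, 1 ≤ n → |Real.log n - v| ≤ 1 / 2 → a n = ArithmeticFunction.vonMangoldt n / n :=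
    fun n hn h => aY_eq Pool.Agent.Q257.KS.hb (by linarith) hn h
  have ha3 : ∀ n : ℕ, 1 ≤ n → 3 / 2 < |Real.log n - v| → a n = 0 := fun n _ h => aY_zero h
  have hA1 := l1_aY (by linarith : (21 : ℝ) ≤ v)
  rw [← ha] at hA1
  set K₁ : ℕ := ⌈v ^ A⌉₊ ^ 3 with hK₁
  have hvA1 : 1 ≤ v ^ A := one_le_pow₀ (by linarith)
  have hK₁le : (K₁ : ℝ) ≤ 8 * v ^ (3 * A) := by
    have h1 : (⌈v ^ A⌉₊ : ℝ) ≤ 2 * v ^ A := by
      have := (Nat.ceil_lt_add_one (by positivity : 0 ≤ v ^ A)).le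
      linarith
    rw [hK₁]
    push_cast
    calc (⌈v ^ A⌉₊ : ℝ) ^ 3 ≤ (2 * v ^ A) ^ 3 := by gcongr
      _ = 8 * v ^ (3 * A) := by rw [mul_pow, ← pow_mul]; ring_nf
  have hK₁pos : 1 ≤ K₁ := by
    rw [hK₁]
    exact Nat.one_le_pow _ _ (Nat.ceil_pos.2 (by positivity))
  -- the comparison for one length
  have hone : ∀ h' : ℝ, Real.exp (-(0.4166 * v)) ≤ h' → h' ≤ H →
      |2 * Real.pi * SL v h' - h' * FF v v a K₁| ≤ 3 / v ^ (B + 2) * h' := by
    intro h' h1 h2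
    have hh'0 : 0 < h' := lt_of_lt_of_le (Real.exp_pos _) h1
    set K : ℕ := ⌈v ^ D / h'⌉₊ with hK
    have hKlo : v ^ D / h' ≤ K := Nat.le_ceil _
    have hbig : v ^ (D + A') ≤ v ^ D / h' := by
      rw [le_div_iff₀ hh'0]
      calc v ^ (D + A') * h' ≤ v ^ (D + A') * H := by gcongr
        _ = v ^ D := by rw [hH, pow_add]; field_simp
    have hKlo2 : v ^ (D + A') ≤ K := hbig.trans hKlo
    have hv1' : 1 ≤ v := by linarith
    have hKK : K₁ ≤ K := by
      have h3 : (K₁ : ℝ) ≤ K := by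
        refine hK₁le.trans (le_trans ?_ hKlo2)
        calc 8 * v ^ (3 * A) ≤ v * v ^ (3 * A) := by gcongr; linarith
          _ = v ^ (3 * A + 1) := by rw [pow_succ]; ring
          _ ≤ v ^ (D + A') := pow_le_pow_right₀ hv1' (by omega)
      exact_mod_cast h3
    have hK0 : (0 : ℝ) < K := by exact_mod_cast (hK₁pos.trans hKK)
    have hK100 : 100 ≤ K := by
      have h3 : (100 : ℝ) ≤ K := by
        calc (100 : ℝ) ≤ v ^ 1 := by rw [pow_one]; linarith
          _ ≤ v ^ (D + A') := pow_le_pow_right₀ hv1' (by omega)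
          _ ≤ K := hKlo2
      exact_mod_cast h3
    have hKhi : (K : ℝ) ≤ 2 * v ^ D * Real.exp (0.4166 * v) := by
      have h3 := (Nat.ceil_lt_add_one (show 0 ≤ v ^ D / h' by positivity)).le
      rw [← hK] at h3
      have h4 : 1 ≤ v ^ D / h' := le_trans (one_le_pow₀ hv1') hbig
      have h5 : v ^ D / h' ≤ v ^ D * Real.exp (0.4166 * v) := by
        rw [div_le_iff₀ hh'0]
        calc v ^ D = v ^ D * (Real.exp (0.4166 * v) * Real.exp (-(0.4166 * v))) := by
              rw [← Real.exp_add]; simp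
          _ ≤ v ^ D * (Real.exp (0.4166 * v) * h') := by gcongr
          _ = _ := by ring
      linarith
    have hK2 : (K : ℝ) ≤ Real.exp ((0.4166 + η) * v) := by
      refine hKhi.trans ?_
      calc 2 * v ^ D * Real.exp (0.4166 * v) ≤ Real.exp (η * v) * Real.exp (0.4166 * v) := by
            have := hY₄ v hv4
            gcongr
        _ = _ := by rw [← Real.exp_add]; congr 1; ring
    have hK3 : (K : ℝ) ≤ Real.exp (0.6 * v) := by
      refine hKhi.trans ?_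
      calc 2 * v ^ D * Real.exp (0.4166 * v) ≤ Real.exp (0.18 * v) * Real.exp (0.4166 * v) := by
            have := hY₅ v hv5
            gcongr
        _ = Real.exp (0.5966 * v) := by rw [← Real.exp_add]; congr 1; ring
        _ ≤ Real.exp (0.6 * v) := Real.exp_le_exp.2 (by linarith)
    have hlogK : Real.log K ≤ v := by
      have := Real.log_le_log hK0 hK3
      rw [Real.log_exp] at this
      linarith
    have hKD : 1 / (K : ℝ) ≤ h' / v ^ D := by
      rw [div_le_div_iff₀ hK0 (by positivity)]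
      rw [div_le_iff₀ hh'0] at hKlo
      linarith
    have hbt : ∀ w : ℝ, |w - v| ≤ 1 → SL w (1 / K) ≤ CB / K := by
      intro w hw
      have h3 := hbtl v w (1 / K) hv2 hw (by
        rw [Real.exp_neg, ← one_div]
        exact one_div_le_one_div_of_le hK0 hK3) (by
        rw [div_le_one hK0]
        exact_mod_cast (by omega : 1 ≤ K))
      refine h3.trans (le_of_eq (by ring))
    have hbox := box_sum (Y := v) (v := v) (h := h') hK100 ha1 hA1 ha3 (by simp; norm_num) hh'0.le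
      (h2.trans hH1) (by linarith) hbt
    have hbox2 : 4 * (CB / K) * (17 + 10 * Real.log K) + 31 * (21 * 50) ^ 10 * v ^ 20 * (1600 / K * h') ≤
        1 / v ^ (B + 2) * h' := by
      have e0 : (1 : ℝ) ≤ v ^ 20 := one_le_pow₀ hv1'
      have e1 : 4 * (CB / K) * (17 + 10 * Real.log K) ≤ 4 * CB * 27 * v ^ 20 * (1 / K) := by
        have e2 : 17 + 10 * Real.log K ≤ 27 * v ^ 20 := by
          have e3 : v ≤ v ^ 20 := le_self_pow₀ hv1' (by norm_num)
          linarith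
        calc 4 * (CB / K) * (17 + 10 * Real.log K) ≤ 4 * (CB / K) * (27 * v ^ 20) := by gcongr
          _ = _ := by ring
      have e2 : 31 * (21 * 50) ^ 10 * v ^ 20 * (1600 / K * h') ≤
          1600 * (31 * (21 * 50) ^ 10) * v ^ 20 * (1 / K) := by
        have e3 : h' ≤ 1 := by linarith
        calc 31 * (21 * 50) ^ 10 * v ^ 20 * (1600 / K * h') ≤ 31 * (21 * 50) ^ 10 * v ^ 20 * (1600 / K * 1) := by
              gcongr
          _ = _ := by ring
      have e3 : (4 * CB * 27 + 1600 * (31 * (21 * 50) ^ 10)) * v ^ 20 * (1 / K) ≤ v ^ 21 * (h' / v ^ D) := by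
        have e4 : 4 * CB * 27 + 1600 * (31 * (21 * 50) ^ 10) ≤ v := by
          refine le_trans ?_ hv7
          rw [hC₀]
          have : (0 : ℝ) ≤ 128 * (31 * (21 * 50) ^ 10) := by positivity
          linarith
        calc (4 * CB * 27 + 1600 * (31 * (21 * 50) ^ 10)) * v ^ 20 * (1 / K) ≤ v * v ^ 20 * (h' / v ^ D) := by
              gcongr
          _ = _ := by ring
      have e4 : v ^ 21 * (h' / v ^ D) ≤ 1 / v ^ (B + 2) * h' := by
        rw [hD, show B + 24 = 21 + (B + 3) by ring, pow_add]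
        have e5 : v ^ 21 * (h' / (v ^ 21 * v ^ (B + 3))) = 1 / v ^ (B + 3) * h' := by field_simp
        rw [e5]
        gcongr
        norm_num
      calc _ ≤ 4 * CB * 27 * v ^ 20 * (1 / K) + 1600 * (31 * (21 * 50) ^ 10) * v ^ 20 * (1 / K) := add_le_add e1 e2
        _ = (4 * CB * 27 + 1600 * (31 * (21 * 50) ^ 10)) * v ^ 20 * (1 / K) := by ring
        _ ≤ _ := e3.trans e4
    have hlip : ∀ u ∈ Set.Icc v (v + h'), |FF v u a K₁ - FF v v a K₁| ≤ 1 / v ^ (B + 2) := by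
      intro u hu
      refine (ff_lip hA1 K₁ u v).trans ?_
      have e1 : |u - v| ≤ H := by rw [abs_le]; constructor <;> linarith [hu.1, hu.2]
      have e2 : (K₁ : ℝ) ^ 2 ≤ 64 * v ^ (6 * A) := by
        calc (K₁ : ℝ) ^ 2 ≤ (8 * v ^ (3 * A)) ^ 2 := by gcongr
          _ = 64 * v ^ (6 * A) := by rw [mul_pow, ← pow_mul]; ring_nf
      calc 31 * (21 * 50) ^ 10 * v ^ 20 * (2 * (K₁ : ℝ) ^ 2 * |u - v|) ≤
            31 * (21 * 50) ^ 10 * v ^ 20 * (2 * (64 * v ^ (6 * A)) * H) := by gcongr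
        _ = (128 * (31 * (21 * 50) ^ 10)) * (v ^ 20 * v ^ (6 * A) * H) := by ring
        _ ≤ v * (v ^ 20 * v ^ (6 * A) * H) := by
            gcongr
            refine le_trans ?_ hv7
            rw [hC₀]
            have : (0 : ℝ) ≤ 4 * CB * 27 + 1600 * (31 * (21 * 50) ^ 10) := by positivity
            linarith
        _ = 1 / v ^ (B + 3) := by
            rw [hH, hA', show 6 * A + B + 24 = 6 * A + (B + 3) + 20 + 1 by ring, pow_add, pow_add, pow_add, pow_one]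
            field_simp
        _ ≤ 1 / v ^ (B + 2) := by
            gcongr
            norm_num
    have hfin := comp_mean hh'0.le (fun u => hdif v hv1 K hKK hK2 u) hlip (hbox.trans hbox2)
    refine hfin.trans (le_of_eq ?_)
    ring
  -- the scale `H`
  have hHlo : Real.exp (-(0.4166 * v)) ≤ H := hhlo.trans hcase.le
  have h1 := hone h hhlo hcase.le
  have h2 := hone H hHlo le_rfl
  have h3 := hlarge H le_rfl (by linarith)
  have hpi := Real.pi_gt_three
  have hpi4 := Real.pi_lt_d2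
  set F := FF v v a K₁ with hF
  set δ := 1 / v ^ (B + 2) with hδ
  have hδ0 : 0 < δ := by positivity
  have h4 : |F - 2 * Real.pi| ≤ (3 + 2 * Real.pi * C) * δ := by
    have e1 : H * |F - 2 * Real.pi| ≤ H * ((3 + 2 * Real.pi * C) * δ) := by
      rw [← abs_of_pos hH0, ← abs_mul]
      have e2 : H * (F - 2 * Real.pi) = -(2 * Real.pi * SL v H - H * F) + 2 * Real.pi * (SL v H - H) := by ring
      rw [abs_of_pos hH0, e2]
      refine (abs_add_le _ _).trans ?_
      rw [abs_neg, abs_mul, abs_of_pos (by positivity : 0 < 2 * Real.pi)]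
      calc |2 * Real.pi * SL v H - H * F| + 2 * Real.pi * |SL v H - H| ≤
            3 / v ^ (B + 2) * H + 2 * Real.pi * (C * H / v ^ (B + 2)) := by gcongr
        _ = H * ((3 + 2 * Real.pi * C) * δ) := by rw [hδ]; ring
    exact le_of_mul_le_mul_left e1 hH0
  have h5 : 2 * Real.pi * |SL v h - h| ≤ 2 * Real.pi * ((6 + C) * h * δ) := by
    rw [← abs_of_pos (by positivity : 0 < 2 * Real.pi), ← abs_mul, abs_of_pos (by positivity : 0 < 2 * Real.pi)]
    have e2 : 2 * Real.pi * (SL v h - h) = (2 * Real.pi * SL v h - h * F) + h * (F - 2 * Real.pi) := by ring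
    rw [e2]
    refine (abs_add_le _ _).trans ?_
    rw [abs_mul h, abs_of_pos hh0]
    calc |2 * Real.pi * SL v h - h * F| + h * |F - 2 * Real.pi| ≤
          3 / v ^ (B + 2) * h + h * ((3 + 2 * Real.pi * C) * δ) := by gcongr
      _ = (6 + 2 * Real.pi * C) * h * δ := by rw [hδ]; ring
      _ ≤ 2 * Real.pi * ((6 + C) * h * δ) := by
          have : 0 < h * δ := by positivity
          nlinarith
  have h6 : |SL v h - h| ≤ (6 + C) * h * δ := le_of_mul_le_mul_left h5 (by positivity)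
  refine h6.trans ?_
  rw [hδ, mul_one_div]
  gcongr

end Pool.Agent.H39x.LP
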