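import Mathlib
import Pool.Agent.H376R2.MR.Fej

/-!
# Project LP: the integral of the Fejer kernel over an interval
-/

set_option autoImplicit false

namespace Pool.Agent.H39x.LP

open Finset MeasureTheory Pool.Agent.H376R2.MR

theorem fj_cont (K : ℕ) : Continuous (Fj K) := by
  unfold Fj
  exact continuous_finsetSum _ fun k _ =>
    continuous_const.mul (Real.continuous_cos.comp (continuous_const.mul continuous_id))

theorem fj_neg (K : ℕ) (t : ℝ) : Fj K (-t) = Fj K t := by
  unfold Fj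
  refine Finset.sum_congr rfl fun k _ => ?_
  rw [mul_neg, Real.cos_neg]

theorem fj_int {K : ℕ} (hK : 1 ≤ K) : ∫ t in (-Real.pi)..Real.pi, Fj K t = 2 * Real.pi := by
  unfold Fj
  have hi : ∀ k ∈ FK K, IntervalIntegrable (fun t : ℝ => (1 - |(k : ℝ)| / K) * Real.cos (k * t)) volume
      (-Real.pi) Real.pi := fun k _ => Continuous.intervalIntegrable (by fun_prop) _ _
  rw [intervalIntegral.integral_finsetSum hi]
  rw [Finset.sum_eq_single 0]
  · simp
    ring
  · intro k _ hk
    rw [intervalIntegral.integral_const_mul]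
    have hk' : (k : ℝ) ≠ 0 := by exact_mod_cast hk
    rw [intervalIntegral.integral_comp_mul_left (fun x => Real.cos x) hk', integral_cos]
    rw [mul_neg, Real.sin_neg, Real.sin_int_mul_pi]
    simp
  · intro h
    exfalso
    apply h
    unfold FK
    rw [Finset.mem_Ioo]
    omega

theorem fj_ii (K : ℕ) (a b : ℝ) : IntervalIntegrable (Fj K) volume a b := (fj_cont K).intervalIntegrable a b

/-- tails of the kernel -/
theorem fj_tail {K : ℕ} (hK : 1 ≤ K) {a b : ℝ} (ha : 0 < a) (hab : a ≤ b) (hb : b ≤ Real.pi) :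
    ∫ t in a..b, Fj K t ≤ 10 / (K * a) := by
  have hK0 : (0 : ℝ) < K := by exact_mod_cast hK
  have hpi2 : Real.pi ^ 2 ≤ 10 := by nlinarith [Real.pi_lt_d2, Real.pi_gt_three]
  have hder : ∀ t ∈ Set.uIcc a b, HasDerivAt (fun t : ℝ => -(10 / K * t⁻¹)) (10 / (K * t ^ 2)) t := by
    intro t ht
    rw [Set.uIcc_of_le hab] at ht
    have ht0 : t ≠ 0 := by linarith [ht.1]
    have h1 := ((hasDerivAt_inv ht0).const_mul (10 / (K : ℝ))).neg
    have h2 : 10 / ((K : ℝ) * t ^ 2) = -(10 / (K : ℝ) * -(t ^ 2)⁻¹) := by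
      rw [div_mul_eq_div_mul_one_div, one_div]
      ring
    rw [h2]
    exact h1
  have hcont : ContinuousOn (fun t : ℝ => 10 / (K * t ^ 2)) (Set.uIcc a b) := by
    intro t ht
    rw [Set.uIcc_of_le hab] at ht
    have ht0 : (K : ℝ) * t ^ 2 ≠ 0 := by
      have : 0 < t := by linarith [ht.1]
      positivity
    have h3 : ContinuousAt (fun t : ℝ => (K : ℝ) * t ^ 2) t := by fun_prop
    exact (continuousAt_const.div h3 ht0).continuousWithinAt
  have hint := intervalIntegral.integral_eq_sub_of_hasDerivAt hder hcont.intervalIntegrable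
  have h1 : ∫ t in a..b, Fj K t ≤ ∫ t in a..b, 10 / ((K : ℝ) * t ^ 2) := by
    refine intervalIntegral.integral_mono_on hab (fj_ii K a b) hcont.intervalIntegrable fun t ht => ?_
    have ht0 : 0 < t := by linarith [ht.1]
    have h2 := Fj_le_sq hK ht0.ne' (by rw [abs_of_pos ht0]; linarith [ht.2])
    refine h2.trans ?_
    gcongr
  refine h1.trans ?_
  rw [hint]
  have hb0 : 0 < b := by linarith
  have h3 : 0 ≤ 10 / K * b⁻¹ := by positivity
  have h4 : 10 / (K * a) = 10 / K * a⁻¹ := by field_simp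
  rw [h4]
  linarith

theorem fj_tail_neg {K : ℕ} (hK : 1 ≤ K) {a b : ℝ} (ha : 0 < a) (hab : a ≤ b) (hb : b ≤ Real.pi) :
    ∫ t in (-b)..(-a), Fj K t ≤ 10 / (K * a) := by
  have h1 : ∫ t in (-b)..(-a), Fj K t = ∫ t in a..b, Fj K t := by
    have h2 := intervalIntegral.integral_comp_neg (a := a) (b := b) (Fj K)
    rw [← h2]
    exact intervalIntegral.integral_congr fun t _ => fj_neg K t
  rw [h1]
  exact fj_tail hK ha hab hb

theorem fj_int_nonneg (K : ℕ) {a b : ℝ} (hab : a ≤ b) : 0 ≤ ∫ t in a..b, Fj K t :=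
  intervalIntegral.integral_nonneg hab fun t _ => Fj_nonneg K t

/-- the smoothed indicator function of `[v, v + h]` -/
noncomputable def bx (K : ℕ) (v h x : ℝ) : ℝ := ∫ u in v..(v + h), Fj K (x - u)

theorem bx_eq (K : ℕ) (v h x : ℝ) : bx K v h x = ∫ t in (x - (v + h))..(x - v), Fj K t := by
  unfold bx
  rw [intervalIntegral.integral_comp_sub_left (fun t => Fj K t) x]

/-- the error function -/
noncomputable def er' (K : ℕ) (s : ℝ) : ℝ := if K * |s| < 1 then 7 else 10 / (K * |s|)

theorem er'_nonneg (K : ℕ) (s : ℝ) : 0 ≤ er' K s := by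
  unfold er'
  split_ifs
  · norm_num
  · positivity

theorem bx_bound {K : ℕ} (hK : 1 ≤ K) {v h x : ℝ} (hh : 0 ≤ h) (h1 : -3 ≤ x - (v + h)) (h2 : x - v ≤ 3) :
    |bx K v h x - (if v ≤ x ∧ x ≤ v + h then 2 * Real.pi else 0)| ≤ er' K (x - v) + er' K (x - (v + h)) := by
  have hK0 : (0 : ℝ) < K := by exact_mod_cast hK
  have hpi := Real.pi_gt_three
  have hpi4 := Real.pi_lt_d2
  have hsplit : ∫ t in (-Real.pi)..Real.pi, Fj K t = (∫ t in (-Real.pi)..(x - (v + h)), Fj K t) +
      (bx K v h x + ∫ t in (x - v)..Real.pi, Fj K t) := by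
    rw [bx_eq, intervalIntegral.integral_add_adjacent_intervals (fj_ii _ _ _) (fj_ii _ _ _),
      intervalIntegral.integral_add_adjacent_intervals (fj_ii _ _ _) (fj_ii _ _ _)]
  rw [fj_int hK] at hsplit
  have hA := fj_int_nonneg K (show -Real.pi ≤ x - (v + h) by linarith)
  have hB := fj_int_nonneg K (show x - v ≤ Real.pi by linarith)
  have hG : 0 ≤ bx K v h x := by
    rw [bx_eq]
    exact fj_int_nonneg K (by linarith)
  have hG2 : bx K v h x ≤ 2 * Real.pi := by linarith
  have hcrude : |bx K v h x - (if v ≤ x ∧ x ≤ v + h then 2 * Real.pi else 0)| ≤ 7 := by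
    split_ifs
    · rw [abs_le]; constructor <;> linarith
    · rw [abs_le]; constructor <;> linarith
  have e1 := er'_nonneg K (x - v)
  have e2 := er'_nonneg K (x - (v + h))
  by_cases hc1 : K * |x - v| < 1
  · have : er' K (x - v) = 7 := by unfold er'; rw [if_pos hc1]
    linarith
  by_cases hc2 : K * |x - (v + h)| < 1
  · have : er' K (x - (v + h)) = 7 := by unfold er'; rw [if_pos hc2]
    linarith
  have f1 : er' K (x - v) = 10 / (K * |x - v|) := by unfold er'; rw [if_neg hc1]
  have f2 : er' K (x - (v + h)) = 10 / (K * |x - (v + h)|) := by unfold er'; rw [if_neg hc2]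
  have g1 : 0 < |x - v| := by
    by_contra h0
    have : |x - v| = 0 := le_antisymm (not_lt.1 h0) (abs_nonneg _)
    rw [this, mul_zero] at hc1
    exact hc1 one_pos
  have g2 : 0 < |x - (v + h)| := by
    by_contra h0
    have : |x - (v + h)| = 0 := le_antisymm (not_lt.1 h0) (abs_nonneg _)
    rw [this, mul_zero] at hc2
    exact hc2 one_pos
  rcases lt_or_ge x v with hx | hx
  · -- left of the interval
    rw [if_neg (by rintro ⟨h3, _⟩; linarith), sub_zero, abs_of_nonneg hG]
    have g3 : |x - v| = v - x := by rw [abs_of_neg (by linarith)]; ring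
    rw [g3] at g1
    have h3 := fj_tail_neg hK (a := v - x) (b := v + h - x) g1 (by linarith) (by linarith)
    have h4 : bx K v h x = ∫ t in (-(v + h - x))..(-(v - x)), Fj K t := by
      rw [bx_eq]
      congr 1 <;> ring
    rw [h4, f1, g3]
    linarith
  rcases lt_or_ge (v + h) x with hx2 | hx2
  · rw [if_neg (by rintro ⟨_, h3⟩; linarith), sub_zero, abs_of_nonneg hG]
    have g3 : |x - (v + h)| = x - (v + h) := abs_of_pos (by linarith)
    rw [g3] at g2
    have h3 := fj_tail hK (a := x - (v + h)) (b := x - v) g2 (by linarith) (by linarith)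
    rw [bx_eq, f2, g3]
    linarith
  · rw [if_pos ⟨hx, hx2⟩]
    have g3 : |x - v| = x - v := abs_of_nonneg (by linarith)
    have g4 : |x - (v + h)| = v + h - x := by rw [abs_of_nonpos (by linarith)]; ring
    rw [g3] at g1
    rw [g4] at g2
    have h3 := fj_tail hK (a := x - v) (b := Real.pi) g1 (by linarith) le_rfl
    have h4 := fj_tail_neg hK (a := v + h - x) (b := Real.pi) g2 (by linarith) le_rfl
    have h5 : -(v + h - x) = x - (v + h) := by ring
    rw [h5] at h4
    rw [f1, f2, g3, g4, abs_le]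
    constructor <;> linarith

/-- crude bound away from the interval -/
theorem bx_far {K : ℕ} (hK : 1 ≤ K) {v h x δ : ℝ} (hh : 0 ≤ h) (hδ : 0 < δ)
    (hx : ∀ u ∈ Set.Icc v (v + h), δ ≤ |x - u| ∧ |x - u| ≤ 3) : |bx K v h x| ≤ 10 / (K * δ ^ 2) * h := by
  have hK0 : (0 : ℝ) < K := by exact_mod_cast hK
  have hpi := Real.pi_gt_three
  have hpi2 : Real.pi ^ 2 ≤ 10 := by nlinarith [Real.pi_lt_d2, Real.pi_gt_three]
  unfold bx
  have h1 : ∀ u ∈ Set.uIoc v (v + h), ‖Fj K (x - u)‖ ≤ 10 / (K * δ ^ 2) := by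
    intro u hu
    rw [Set.uIoc_of_le (by linarith)] at hu
    obtain ⟨h2, h3⟩ := hx u ⟨hu.1.le, hu.2⟩
    rw [Real.norm_eq_abs, abs_of_nonneg (Fj_nonneg _ _)]
    have hne : x - u ≠ 0 := by
      intro h
      rw [h, abs_zero] at h2
      linarith
    refine (Fj_le_sq hK hne (by linarith)).trans ?_
    rw [← sq_abs (x - u)]
    gcongr
  have h2 := intervalIntegral.norm_integral_le_of_norm_le_const h1
  rw [Real.norm_eq_abs] at h2
  refine h2.trans (le_of_eq ?_)
  rw [show v + h - v = h by ring, abs_of_nonneg hh]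

/-- Lipschitz bound -/
theorem fj_lip (K : ℕ) (s t : ℝ) : |Fj K s - Fj K t| ≤ 2 * (K : ℝ) ^ 2 * |s - t| := by
  unfold Fj
  rw [← Finset.sum_sub_distrib]
  refine (Finset.abs_sum_le_sum_abs _ _).trans ?_
  have h1 : ∀ k ∈ FK K, |(1 - |(k : ℝ)| / K) * Real.cos (k * s) - (1 - |(k : ℝ)| / K) * Real.cos (k * t)| ≤
      K * |s - t| := by
    intro k hk
    simp only [FK, Finset.mem_Ioo] at hk
    have hk1 : |(k : ℝ)| < K := by
      rw [abs_lt]
      constructor
      · exact_mod_cast hk.1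
      · exact_mod_cast hk.2
    have hK0 : (0 : ℝ) < K := lt_of_le_of_lt (abs_nonneg _) hk1
    rw [← mul_sub, abs_mul]
    have h2 : |1 - |(k : ℝ)| / K| ≤ 1 := by
      have h3 : |(k : ℝ)| / K ≤ 1 := by rw [div_le_one hK0]; exact hk1.le
      have h4 : 0 ≤ |(k : ℝ)| / K := by positivity
      rw [abs_le]; constructor <;> linarith
    have h3 : |Real.cos (k * s) - Real.cos (k * t)| ≤ |(k : ℝ) * s - k * t| := by
      have := Real.abs_cos_sub_cos_le (k * s) (k * t)
      exact this
    have h4 : |(k : ℝ) * s - k * t| = |(k : ℝ)| * |s - t| := by rw [← mul_sub, abs_mul]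
    calc |1 - |(k : ℝ)| / K| * |Real.cos (k * s) - Real.cos (k * t)| ≤ 1 * (|(k : ℝ)| * |s - t|) := by
          rw [← h4]; gcongr
      _ ≤ 1 * (K * |s - t|) := by gcongr
      _ = _ := one_mul _
  refine (Finset.sum_le_card_nsmul _ _ _ h1).trans ?_
  rw [nsmul_eq_mul]
  have h2 : ((FK K).card : ℝ) ≤ 2 * K := by
    have h : (FK K).card ≤ 2 * K := by
      unfold FK
      rw [Int.card_Ioo]
      omega
    exact_mod_cast h
  calc ((FK K).card : ℝ) * (K * |s - t|) ≤ 2 * K * (K * |s - t|) := by gcongr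
    _ = _ := by ring

end Pool.Agent.H39x.LP
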