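import Pool.Agent.H39x.LP.Asy

/-!
# Project LP: the prime number theorem in intervals of length `x ^ 0.5834`
-/

set_option autoImplicit false

namespace Pool.Agent.H39x.LP

open Finset Filter Topology Pool.Agent.Q240.KS Pool.Agent.Q278.KS
open Pool.Agent.H305R2 (pr pr_nonneg)

theorem sp_asy : ∃ C Y₀ : ℝ, 0 < C ∧ ∀ v h : ℝ, Y₀ ≤ v → Real.exp (-(0.4166 * v)) ≤ h → h ≤ 1 →
    |SP v h - h| ≤ C * h / v := by
  obtain ⟨C₁, Y₁, hC₁, h1⟩ := asy 1
  obtain ⟨C₂, hC₂, h2⟩ := sl_sp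
  obtain ⟨Y₂, hY₂⟩ := eventually_atTop.1 (ev_poly 1 1 (show (0 : ℝ) < 0.0834 by norm_num))
  refine ⟨C₁ + C₂, max Y₁ (max Y₂ 3), by positivity, fun v h hv hh0 hh1 => ?_⟩
  have hv1 : Y₁ ≤ v := (le_max_left _ _).trans hv
  have hv2 : Y₂ ≤ v := ((le_max_left _ _).trans (le_max_right _ _)).trans hv
  have hv3 : 3 ≤ v := ((le_max_right _ _).trans (le_max_right _ _)).trans hv
  have hh : 0 < h := (Real.exp_pos _).trans_le hh0
  have e1 := h1 v h hv1 hh0 hh1
  have e2 := h2 v h hv3 hh.le hh1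
  rw [pow_one] at e1
  have e3 : Real.exp (-(v / 2)) ≤ h / v := by
    have e4 := hY₂ v hv2
    rw [one_mul, pow_one] at e4
    have hv0 : 0 < v := by linarith
    rw [le_div_iff₀ hv0]
    calc Real.exp (-(v / 2)) * v ≤ Real.exp (-(v / 2)) * Real.exp (0.0834 * v) := by gcongr
      _ = Real.exp (-(0.4166 * v)) := by rw [← Real.exp_add]; congr 1; ring
      _ ≤ h := hh0
  have e5 := abs_sub_le (SP v h) (SL v h) h
  rw [abs_sub_comm (SP v h) (SL v h)] at e5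
  calc |SP v h - h| ≤ |SL v h - SP v h| + |SL v h - h| := e5
    _ ≤ C₂ * (h / v) + C₁ * h / v := by
        refine add_le_add (e2.trans ?_) e1
        gcongr
    _ = _ := by ring

/-- the number of primes in `(A, B]` -/
noncomputable def pc (A B : ℕ) : ℝ := (((Ioc A B).filter Nat.Prime).card : ℝ)

theorem sp_card {A B : ℕ} (hA : 3 ≤ A) (hAB : A + 1 ≤ B) :
    pc A B * (Real.log (A + 1) / B) ≤ SP (Real.log (A + 1)) (Real.log (B / (A + 1))) ∧
    SP (Real.log (A + 1)) (Real.log (B / (A + 1))) ≤ pc A B * (Real.log B / (A + 1)) := by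
  have hA0 : (0 : ℝ) < A + 1 := by positivity
  have hA3 : (3 : ℝ) ≤ A := by exact_mod_cast hA
  have hAB' : (A : ℝ) + 1 ≤ B := by exact_mod_cast hAB
  have hB0 : (0 : ℝ) < B := by linarith
  have e1 : iA (Real.log (A + 1)) = A := by
    unfold iA
    rw [Real.exp_log hA0]
    have : ⌈(A : ℝ) + 1⌉₊ = A + 1 := by
      have := Nat.ceil_natCast (R := ℝ) (A + 1)
      push_cast at this
      exact this
    rw [this]
    rfl
  have e2 : ⌊Real.exp (Real.log (A + 1) + Real.log (B / (A + 1)))⌋₊ = B := by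
    rw [Real.exp_add, Real.exp_log hA0, Real.exp_log (by positivity), mul_div_cancel₀ _ hA0.ne', Nat.floor_natCast]
  have e3 : SP (Real.log (A + 1)) (Real.log (B / (A + 1))) = ∑ k ∈ (Ioc A B).filter Nat.Prime, Real.log k / k := by
    unfold SP
    rw [e1, e2, Finset.sum_filter]
    refine Finset.sum_congr rfl fun k _ => ?_
    unfold pr
    split_ifs <;> simp
  rw [e3]
  unfold pc
  constructor
  · rw [← nsmul_eq_mul, ← Finset.sum_const]
    refine Finset.sum_le_sum fun k hk => ?_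
    rw [mem_filter, mem_Ioc] at hk
    have hk1 : (A : ℝ) + 1 ≤ k := by exact_mod_cast hk.1.1
    have hk2 : (k : ℝ) ≤ B := by exact_mod_cast hk.1.2
    have hk0 : (0 : ℝ) < k := by linarith
    have hl : 0 ≤ Real.log (A + 1) := Real.log_nonneg (by linarith)
    exact div_le_div₀ (Real.log_nonneg (by linarith)) (Real.log_le_log hA0 hk1) hk0 hk2
  · rw [← nsmul_eq_mul, ← Finset.sum_const]
    refine Finset.sum_le_sum fun k hk => ?_
    rw [mem_filter, mem_Ioc] at hk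
    have hk1 : (A : ℝ) + 1 ≤ k := by exact_mod_cast hk.1.1
    have hk2 : (k : ℝ) ≤ B := by exact_mod_cast hk.1.2
    have hk0 : (0 : ℝ) < k := by linarith
    exact div_le_div₀ (Real.log_nonneg (by linarith)) (Real.log_le_log hk0 hk2) hA0 hk1

theorem cnt_up {N v hh A B y l δ C : ℝ} (hN0 : 0 ≤ N) (hB0 : 0 < B) (hA0 : 0 < A) (hy0 : 0 < y) (hC : 0 < C)
    (hδ0 : 0 < δ) (hδl : δ * l = 1) (hvl : l ≤ v) (h1 : N * (v / B) ≤ hh * (1 + C * δ)) (hh1 : hh ≤ y / A)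
    (hBy : B ≤ A * (1 + δ)) : N ≤ y * δ * (1 + δ) * (1 + C * δ) := by
  have h2 : N * v ≤ hh * (1 + C * δ) * B := by
    rw [mul_div_assoc'] at h1
    rwa [div_le_iff₀ hB0] at h1
  have h3 : N * l ≤ N * v := mul_le_mul_of_nonneg_left hvl hN0
  have h4 : hh * B ≤ y * (1 + δ) := by
    calc hh * B ≤ (y / A) * (A * (1 + δ)) := mul_le_mul hh1 hBy hB0.le (by positivity)
      _ = y * (1 + δ) := by field_simp
  have h6 : N * l ≤ y * (1 + δ) * (1 + C * δ) := by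
    calc N * l ≤ hh * (1 + C * δ) * B := h3.trans h2
      _ = (hh * B) * (1 + C * δ) := by ring
      _ ≤ (y * (1 + δ)) * (1 + C * δ) := by
          refine mul_le_mul_of_nonneg_right h4 (by positivity)
  calc N = N * l * δ := by rw [mul_assoc, mul_comm l δ, hδl, mul_one]
    _ ≤ (y * (1 + δ) * (1 + C * δ)) * δ := mul_le_mul_of_nonneg_right h6 hδ0.le
    _ = _ := by ring

theorem cnt_low {N v hh A B y l δ C : ℝ} (hN0 : 0 ≤ N) (hB0 : 0 < B) (hA0 : 0 < A) (hy0 : 0 < y)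
    (hδ0 : 0 < δ) (hδ8 : δ ≤ 1 / 8) (hδl : δ * l = 1) (hCδ : C * δ ≤ 1 / 2) (hvh : v + hh ≤ l + 2)
    (h1 : hh * (1 - C * δ) ≤ N * ((v + hh) / (A + 1))) (hh2 : (y - 1) / B ≤ hh)
    (hBy : B = A + y) (hyA : y ≤ δ * A) (hyl : l ≤ y) :
    y * δ * (1 - δ) * (1 - δ) * (1 - C * δ) * (1 - 2 * δ) ≤ N := by
  have hA10 : 0 < A + 1 := by linarith
  have h2 : hh * (1 - C * δ) * (A + 1) ≤ N * (v + hh) := by
    rw [mul_div_assoc'] at h1
    rwa [le_div_iff₀ hA10] at h1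
  have h3 : N * (v + hh) ≤ N * (l + 2) := mul_le_mul_of_nonneg_left hvh hN0
  have h6 : y * (1 - δ) ≤ y - 1 := by
    have : 1 ≤ y * δ := by
      rw [← hδl, mul_comm y δ]
      exact mul_le_mul_of_nonneg_left hyl hδ0.le
    linarith
  have hy1 : 0 ≤ y - 1 := by
    have : 0 ≤ y * (1 - δ) := mul_nonneg hy0.le (by linarith)
    linarith
  have h4 : y * (1 - δ) * (1 - δ) ≤ hh * (A + 1) := by
    have h5 : (1 - δ) ≤ (A + 1) / B := by
      rw [le_div_iff₀ hB0, hBy]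
      have : 0 ≤ δ * y := by positivity
      linarith
    calc y * (1 - δ) * (1 - δ) ≤ (y - 1) * ((A + 1) / B) := mul_le_mul h6 h5 (by linarith) hy1
      _ = ((y - 1) / B) * (A + 1) := by ring
      _ ≤ hh * (A + 1) := mul_le_mul_of_nonneg_right hh2 hA10.le
  have h7 : y * (1 - δ) * (1 - δ) * (1 - C * δ) ≤ N * (l + 2) := by
    calc y * (1 - δ) * (1 - δ) * (1 - C * δ) ≤ hh * (A + 1) * (1 - C * δ) :=
          mul_le_mul_of_nonneg_right h4 (by linarith)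
      _ = hh * (1 - C * δ) * (A + 1) := by ring
      _ ≤ _ := h2.trans h3
  have h8 : (l + 2) * (δ * (1 - 2 * δ)) ≤ 1 := by
    have : (l + 2) * (δ * (1 - 2 * δ)) = (δ * l) * (1 - 2 * δ) + 2 * δ * (1 - 2 * δ) := by ring
    rw [this, hδl]
    nlinarith
  calc y * δ * (1 - δ) * (1 - δ) * (1 - C * δ) * (1 - 2 * δ) =
        (y * (1 - δ) * (1 - δ) * (1 - C * δ)) * (δ * (1 - 2 * δ)) := by ring
    _ ≤ (N * (l + 2)) * (δ * (1 - 2 * δ)) := by
        refine mul_le_mul_of_nonneg_right h7 ?_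
        have : 0 ≤ 1 - 2 * δ := by linarith
        positivity
    _ = N * ((l + 2) * (δ * (1 - 2 * δ))) := by ring
    _ ≤ N * 1 := mul_le_mul_of_nonneg_left h8 hN0
    _ = N := mul_one N

theorem cnt_fin {N y δ C : ℝ} (hy0 : 0 < y) (hC : 0 < C) (hδ0 : 0 < δ) (hδ8 : δ ≤ 1 / 8) (hCδ : C * δ ≤ 1 / 2)
    (hup : N ≤ y * δ * (1 + δ) * (1 + C * δ))
    (hlow : y * δ * (1 - δ) * (1 - δ) * (1 - C * δ) * (1 - 2 * δ) ≤ N) :
    |N - y * δ| ≤ (4 * C + 8) * δ * (y * δ) := by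
  have hyδ : 0 < y * δ := by positivity
  have hCl0 : 0 < C * δ := by positivity
  rw [abs_le]
  constructor
  · have h1 : 1 - (4 + C) * δ ≤ (1 - δ) * (1 - δ) * (1 - C * δ) * (1 - 2 * δ) := by
      have g1 : 1 - 2 * δ ≤ (1 - δ) * (1 - δ) := by nlinarith
      have g2 : 1 - (2 + C) * δ ≤ (1 - δ) * (1 - δ) * (1 - C * δ) := by
        have g4 : (1 - 2 * δ) * (1 - C * δ) ≤ (1 - δ) * (1 - δ) * (1 - C * δ) :=
          mul_le_mul_of_nonneg_right g1 (by linarith)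
        have g5 : 0 ≤ 2 * δ * (C * δ) := by positivity
        linarith
      have g6 : (1 - (2 + C) * δ) * (1 - 2 * δ) ≤ (1 - δ) * (1 - δ) * (1 - C * δ) * (1 - 2 * δ) :=
        mul_le_mul_of_nonneg_right g2 (by linarith)
      have g3 : 0 ≤ (2 + C) * δ * (2 * δ) := by positivity
      linarith
    have h2 : y * δ * (1 - (4 + C) * δ) ≤ y * δ * ((1 - δ) * (1 - δ) * (1 - C * δ) * (1 - 2 * δ)) :=
      mul_le_mul_of_nonneg_left h1 hyδ.le
    have h3 : y * δ * ((1 - δ) * (1 - δ) * (1 - C * δ) * (1 - 2 * δ)) =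
        y * δ * (1 - δ) * (1 - δ) * (1 - C * δ) * (1 - 2 * δ) := by ring
    have h4 : 0 ≤ (3 * C + 4) * δ * (y * δ) := by positivity
    have h5 : y * δ * (1 - (4 + C) * δ) = y * δ - (4 + C) * δ * (y * δ) := by ring
    have h6 : (4 * C + 8) * δ * (y * δ) = (4 + C) * δ * (y * δ) + (3 * C + 4) * δ * (y * δ) := by ring
    linarith
  · have h1 : (1 + δ) * (1 + C * δ) ≤ 1 + (1 + 2 * C) * δ := by
      have : δ * (C * δ) ≤ 1 * (C * δ) := mul_le_mul_of_nonneg_right (by linarith) hCl0.le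
      linarith
    have h2 : y * δ * ((1 + δ) * (1 + C * δ)) ≤ y * δ * (1 + (1 + 2 * C) * δ) :=
      mul_le_mul_of_nonneg_left h1 hyδ.le
    have h4 : 0 ≤ (2 * C + 7) * δ * (y * δ) := by positivity
    have h6 : (4 * C + 8) * δ * (y * δ) = (1 + 2 * C) * δ * (y * δ) + (2 * C + 7) * δ * (y * δ) := by ring
    have h7 : y * δ * (1 + δ) * (1 + C * δ) = y * δ * ((1 + δ) * (1 + C * δ)) := by ring
    linarith

/-- **The prime number theorem in intervals `(A, B]` with `B - A ≥ 8 A ^ 0.5834`.** -/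
theorem pcount : ∃ C X₀ : ℝ, 0 < C ∧ ∀ A B : ℕ, X₀ ≤ A → 8 * (A : ℝ) ^ (0.5834 : ℝ) ≤ (B : ℝ) - A →
    (B : ℝ) - A ≤ A / Real.log A →
    |pc A B - (B - A) / Real.log A| ≤ C * ((B - A) / Real.log A ^ 2) := by
  obtain ⟨C, Y₀, hC, h⟩ := sp_asy
  obtain ⟨X₁, hX₁⟩ := eventually_atTop.1 (Real.tendsto_log_atTop.eventually_ge_atTop (max Y₀ (2 * C + 8)))
  refine ⟨4 * C + 8, max X₁ 3, by positivity, fun A B hA hAB1 hAB2 => ?_⟩
  have hA3 : (3 : ℝ) ≤ A := (le_max_right _ _).trans hA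
  have hA3' : 3 ≤ A := by exact_mod_cast hA3
  have hA0 : (0 : ℝ) < A := by linarith
  have hl := hX₁ A ((le_max_left _ _).trans hA)
  set l := Real.log A with hldef
  have hl1 : Y₀ ≤ l := (le_max_left _ _).trans hl
  have hl2 : 2 * C + 8 ≤ l := (le_max_right _ _).trans hl
  have hl0 : 0 < l := by linarith
  obtain ⟨y, hy⟩ : ∃ y : ℝ, y = (B : ℝ) - A := ⟨_, rfl⟩
  rw [← hy] at hAB1 hAB2 ⊢
  have hpw : 1 ≤ (A : ℝ) ^ (0.5834 : ℝ) := Real.one_le_rpow (by linarith) (by norm_num)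
  have hy8 : 8 ≤ y := by linarith
  have hy0 : 0 < y := by linarith
  have hBy : (B : ℝ) = A + y := by linarith
  have hAB : A + 1 ≤ B := by
    have : (A : ℝ) + 1 ≤ B := by linarith
    exact_mod_cast this
  have hyl : l ≤ y := by
    -- `log A ≤ A ^ 0.5834 / 0.5834`
    have h1 := Real.log_le_rpow_div hA0.le (show (0 : ℝ) < 0.5834 by norm_num)
    have h2 : (A : ℝ) ^ (0.5834 : ℝ) / 0.5834 ≤ 8 * (A : ℝ) ^ (0.5834 : ℝ) := by
      rw [div_le_iff₀ (by norm_num)]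
      nlinarith
    linarith
  have hAB2' : y * l ≤ A := by rwa [le_div_iff₀ hl0] at hAB2
  have hyA : y ≤ A := by nlinarith
  set v := Real.log (A + 1) with hv
  have hA10 : (0 : ℝ) < A + 1 := by linarith
  have hvl : l ≤ v := Real.log_le_log hA0 (by linarith)
  have hvl2 : v ≤ l + 1 := by
    have h1 : v = l + Real.log ((A + 1) / A) := by
      rw [hv, hldef, Real.log_div hA10.ne' hA0.ne']; ring
    have h2 := Real.log_le_sub_one_of_pos (show 0 < ((A : ℝ) + 1) / A by positivity)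
    have h3 : ((A : ℝ) + 1) / A - 1 = 1 / A := by field_simp; ring
    have h4 : 1 / (A : ℝ) ≤ 1 := by rw [div_le_one hA0]; linarith
    linarith
  have hv0 : 0 < v := by linarith
  have hB0 : (0 : ℝ) < B := by linarith
  set hh := Real.log (B / (A + 1)) with hhd
  have hh1 : hh ≤ y / A := by
    have h1 := Real.log_le_sub_one_of_pos (show 0 < (B : ℝ) / (A + 1) by positivity)
    have h2 : (B : ℝ) / (A + 1) - 1 ≤ y / A := by
      rw [hBy, div_sub_one hA10.ne', div_le_div_iff₀ hA10 hA0]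
      nlinarith
    linarith
  have hh2 : (y - 1) / B ≤ hh := by
    have h1 := Real.one_sub_inv_le_log_of_pos (show 0 < (B : ℝ) / (A + 1) by positivity)
    have h2 : 1 - ((B : ℝ) / (A + 1))⁻¹ = (y - 1) / B := by
      rw [inv_div, eq_div_iff hB0.ne', sub_mul, div_mul_cancel₀ _ hB0.ne', hBy]
      ring
    linarith
  have hyAl : y / A ≤ 1 / l := by
    rw [div_le_div_iff₀ hA0 hl0, one_mul]
    exact hAB2'
  have hl8 : 1 / l ≤ 1 / 8 := by
    apply one_div_le_one_div_of_le (by norm_num)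
    linarith
  have hhle : hh ≤ 1 := by linarith
  have hB2 : (B : ℝ) ≤ 2 * (A + 1) := by linarith
  have hhge : Real.exp (-(0.4166 * v)) ≤ hh := by
    refine le_trans ?_ hh2
    have h1 : Real.exp (-(0.4166 * v)) = ((A : ℝ) + 1) ^ (0.5834 : ℝ) / (A + 1) := by
      rw [Real.rpow_def_of_pos hA10, ← hv, eq_div_iff hA10.ne']
      conv_lhs => rw [← Real.exp_log hA10, ← hv]
      rw [← Real.exp_add]
      congr 1
      ring
    have h2 : ((A : ℝ) + 1) ^ (0.5834 : ℝ) ≤ 2 * (A : ℝ) ^ (0.5834 : ℝ) := by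
      calc ((A : ℝ) + 1) ^ (0.5834 : ℝ) ≤ (2 * A : ℝ) ^ (0.5834 : ℝ) :=
            Real.rpow_le_rpow hA10.le (by linarith) (by norm_num)
        _ = (2 : ℝ) ^ (0.5834 : ℝ) * (A : ℝ) ^ (0.5834 : ℝ) := Real.mul_rpow (by norm_num) hA0.le
        _ ≤ 2 * (A : ℝ) ^ (0.5834 : ℝ) := by
            refine mul_le_mul_of_nonneg_right ?_ (by positivity)
            calc (2 : ℝ) ^ (0.5834 : ℝ) ≤ (2 : ℝ) ^ (1 : ℝ) :=
                  Real.rpow_le_rpow_of_exponent_le (by norm_num) (by norm_num)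
              _ = 2 := Real.rpow_one 2
    rw [h1, div_le_div_iff₀ hA10 hB0]
    have h3 : ((A : ℝ) + 1) ^ (0.5834 : ℝ) ≤ y / 4 := by linarith
    have h4 : 0 ≤ ((A : ℝ) + 1) ^ (0.5834 : ℝ) := by positivity
    calc ((A : ℝ) + 1) ^ (0.5834 : ℝ) * B ≤ (y / 4) * (2 * (A + 1)) := mul_le_mul h3 hB2 hB0.le (by positivity)
      _ ≤ (y - 1) * (A + 1) := by nlinarith
  have hh0 : 0 < hh := (Real.exp_pos _).trans_le hhge
  have key := h v hh (hl1.trans hvl) hhge hhle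
  obtain ⟨k1, k2⟩ := abs_le.1 key
  obtain ⟨c1, c2⟩ := sp_card hA3' hAB
  rw [← hv, ← hhd] at c1 c2
  have hlogB : Real.log B = v + hh := by
    rw [hhd, Real.log_div hB0.ne' hA10.ne', ← hv]; ring
  rw [hlogB] at c2
  set N := pc A B with hN
  have hN0 : 0 ≤ N := Nat.cast_nonneg _
  have hCv : C * hh / v ≤ C / l * hh := by
    rw [div_mul_eq_mul_div, div_le_div_iff₀ hv0 hl0]
    have : 0 < C * hh := by positivity
    nlinarith
  have hCl : C / l ≤ 1 / 2 := by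
    rw [div_le_div_iff₀ hl0 (by norm_num)]; linarith
  have hCl0 : 0 < C / l := by positivity
  obtain ⟨δ, hδ⟩ : ∃ δ : ℝ, δ = 1 / l := ⟨_, rfl⟩
  have hδ0 : 0 < δ := by rw [hδ]; positivity
  have hδ8 : δ ≤ 1 / 8 := by rw [hδ]; exact hl8
  have hδl : δ * l = 1 := by rw [hδ, one_div, inv_mul_cancel₀ hl0.ne']
  have hCδ : C / l = C * δ := by rw [hδ]; ring
  rw [hCδ] at hCl hCv hCl0
  rw [← hδ] at hyAl
  have hyA' : y ≤ δ * A := by rwa [div_le_iff₀ hA0] at hyAl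
  have htarget : (4 * C + 8) * (y / l ^ 2) = (4 * C + 8) * δ * (y * δ) := by
    rw [hδ]; ring
  have hyl' : y / l = y * δ := by rw [hδ]; ring
  rw [htarget, hyl']
  have hup : N ≤ y * δ * (1 + δ) * (1 + C * δ) :=
    cnt_up (v := v) (hh := hh) hN0 hB0 hA0 hy0 hC hδ0 hδl hvl (by linarith) hh1 (by rw [hBy]; linarith)
  have hlow : y * δ * (1 - δ) * (1 - δ) * (1 - C * δ) * (1 - 2 * δ) ≤ N :=
    cnt_low (v := v) (hh := hh) hN0 hB0 hA0 hy0 hδ0 hδ8 hδl hCl (by linarith) (by linarith) hh2 hBy hyA' hyl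
  exact cnt_fin hy0 hC hδ0 hδ8 hCl hup hlow

end Pool.Agent.H39x.LP
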