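import Pool.Agent.W66.XE

/-!
# Project LP: the sieve for the near pairs
-/

set_option autoImplicit false

namespace Pool.Agent.H39x.LP

open Finset Filter Topology
open Pool.Agent.W66 (MM MM_ne dvd_primorial le_of_dvd_primorial two_dvd_MM lt_of_not_dvd_MM sift_two no_mid_prime)
open Pool.Agent.W66X (ratio_bound_D)
open Pool.Agent.H305R2 (roughPart roughPart_prime log_nat_tendsto)
open Pool.Agent.Helper112.E456.SieveAux (DD)

/-- the number of `n ≤ H` such that `n + b₁` and `b ^ d n + b₂` have prime rough parts and small smooth parts -/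
theorem near_sieve {b : ℕ} (hb : 2 ≤ b) {κ : ℝ} (hκ : 0 < κ) (D : ℕ) : ∃ C : ℝ, 0 < C ∧
    ∀ᶠ p : ℕ in atTop, ∀ (q d b₁ b₂ H : ℕ) (z T : ℝ), p ≤ q → q ≤ D * p →
      (b₂ : ℤ) - (b : ℤ) ^ d * b₁ ≠ 0 → ((b₂ : ℤ) - (b : ℤ) ^ d * b₁).natAbs ≤ b ^ (D * q) →
      κ * p ≤ Real.log H → (H : ℝ) ^ ((1 : ℝ) / 8) ≤ z → z * T ≤ b₁ → z * T ≤ b₂ →
      ∀ S : Finset ℕ, S ⊆ Icc 1 H →
      (∀ n ∈ S, ((roughPart p (n + b₁)).Prime ∧ (((n + b₁) / roughPart p (n + b₁) : ℕ) : ℝ) < T) ∧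
        ((roughPart q (b ^ d * n + b₂)).Prime ∧
          (((b ^ d * n + b₂) / roughPart q (b ^ d * n + b₂) : ℕ) : ℝ) < T)) →
      (S.card : ℝ) ≤ C * (Real.log p / p) ^ 2 * H := by
  obtain ⟨C0, hC0, hsv⟩ := sift_two
  obtain ⟨C1, hC1, hrat⟩ := ratio_bound_D hb D
  refine ⟨C0 * (2 * C1) ^ 2 / κ ^ 2, by positivity, ?_⟩
  obtain ⟨P, hP⟩ := eventually_atTop.1 hrat
  have hlarge : ∀ᶠ p : ℕ in atTop, 2 / κ < p := tendsto_natCast_atTop_atTop.eventually_gt_atTop _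
  filter_upwards [eventually_ge_atTop P, hlarge, eventually_ge_atTop (max 2 D)] with p hpP hpl hp2'
    q d b₁ b₂ H z T hpq hqD hr hrb hH hz hzT1 hzT2 S hS hSc
  have hp2 : 2 ≤ p := (le_max_left _ _).trans hp2'
  have hpD : D ≤ p := (le_max_right _ _).trans hp2'
  have hp2r : (2 : ℝ) ≤ p := by exact_mod_cast hp2
  have hp0 : (0 : ℝ) < p := by linarith
  rw [div_lt_iff₀ hκ] at hpl
  have hHlog : 2 < Real.log H := by
    have : (p : ℝ) * κ = κ * p := mul_comm _ _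
    linarith
  have hH2 : 2 ≤ H := by
    by_contra h
    have : H = 0 ∨ H = 1 := by omega
    rcases this with h1 | h1
    · rw [h1] at hHlog; simp at hHlog; linarith
    · rw [h1] at hHlog; simp at hHlog; linarith
  have hH0 : (0 : ℝ) < H := by exact_mod_cast (by omega : 0 < H)
  obtain ⟨r, hrd⟩ : ∃ r : ℕ, r = ((b₂ : ℤ) - (b : ℤ) ^ d * b₁).natAbs := ⟨_, rfl⟩
  have hr0 : 0 < r := by rw [hrd]; exact Int.natAbs_pos.2 hr
  rw [← hrd] at hrb
  have hM0 : MM q b d r ≠ 0 := MM_ne hb hr0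
  have hDD : DD 1 b₁ (b ^ d) b₂ ∣ MM q b d r := by
    have e : DD 1 b₁ (b ^ d) b₂ = b ^ d * r := by
      unfold DD
      have e2 : ((((1 * b₂ : ℕ) : ℤ)) - ((b ^ d * b₁ : ℕ) : ℤ)).natAbs = r := by
        rw [hrd, one_mul]
        push_cast
        rfl
      rw [e2, one_mul]
    rw [e]; unfold MM; exact dvd_mul_left _ _
  have hmain := hsv 1 b₁ (b ^ d) b₂ H (MM q b d r) one_pos (by positivity)
    (two_dvd_MM (by omega)) hM0 hDD hH2 S hS (by
      intro n hn l hl hlz hlM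
      have hql := lt_of_not_dvd_MM hl hlM
      have hQn := hSc _ hn
      have e1 : 1 * n + b₁ = n + b₁ := by ring
      rw [e1]
      have c1 : (b₁ : ℝ) ≤ ((n + b₁ : ℕ) : ℝ) := by exact_mod_cast (by omega : b₁ ≤ n + b₁)
      have c2 : (b₂ : ℝ) ≤ ((b ^ d * n + b₂ : ℕ) : ℝ) := by exact_mod_cast Nat.le_add_left _ _
      constructor
      · exact no_mid_prime hQn.1.1 hQn.1.2 (hzT1.trans c1) hl (by omega) (hlz.trans hz)
      · exact no_mid_prime hQn.2.1 hQn.2.2 (hzT2.trans c2) hl hql (hlz.trans hz))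
  have hr1 := hP q (by omega) d r hr0 hrb
  have hlq : Real.log q ≤ 2 * Real.log p := by
    have hq2p : (q : ℝ) ≤ p * p := by
      have : q ≤ p * p := hqD.trans (Nat.mul_le_mul_right _ hpD)
      exact_mod_cast this
    have hq0 : (0 : ℝ) < q := by exact_mod_cast (by omega : 0 < q)
    calc Real.log q ≤ Real.log (p * p) := Real.log_le_log hq0 hq2p
      _ = 2 * Real.log p := by rw [Real.log_mul hp0.ne' hp0.ne']; ring
  have hlp0 : 0 ≤ Real.log p := Real.log_natCast_nonneg p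
  have hr2 : ((MM q b d r : ℕ) : ℝ) / (Nat.totient (MM q b d r) : ℝ) ≤ 2 * C1 * Real.log p := by
    calc _ ≤ C1 * Real.log q := hr1
      _ ≤ C1 * (2 * Real.log p) := by gcongr
      _ = _ := by ring
  have hr00 : 0 ≤ ((MM q b d r : ℕ) : ℝ) / (Nat.totient (MM q b d r) : ℝ) := by positivity
  have hκp : 0 < κ * p := by positivity
  calc (S.card : ℝ) ≤ C0 * (((MM q b d r : ℕ) : ℝ) / (Nat.totient (MM q b d r) : ℝ)) ^ 2 * H /
        (Real.log H) ^ 2 := hmain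
    _ ≤ C0 * (2 * C1 * Real.log p) ^ 2 * H / (κ * p) ^ 2 := by gcongr
    _ = _ := by field_simp

end Pool.Agent.H39x.LP
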