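import Pool.Agent.H39x.LP.Disc
import Pool.Agent.H39x.LP.Near

/-!
# Project LP: one and two point averages of the family
-/

set_option autoImplicit false

namespace Pool.Agent.H39x.LP

open Finset Filter Topology MeasureTheory
open Pool.Agent.H305R2 (roughPart log_nat_tendsto ZZ ZZ_nonneg)
open Pool.Agent.TH888.R (ZZ_rate)

variable {b : ℕ} {κ a c₁ : ℝ} {A : ℕ → ℕ}

theorem ex_bounds {κ : ℝ} (hκ : 0 < κ) (q : ℕ) : κ * q - 1 < ex κ q ∧ (ex κ q : ℝ) ≤ κ * q := by
  unfold ex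
  exact ⟨by linarith [Nat.lt_floor_add_one (κ * q)], Nat.floor_le (by positivity)⟩

theorem ex_mono {κ : ℝ} (hκ : 0 < κ) {p q : ℕ} (h : p ≤ q) : ex κ p ≤ ex κ q := by
  unfold ex
  refine Nat.floor_mono ?_
  have : (p : ℝ) ≤ q := by exact_mod_cast h
  gcongr

theorem pow_exp {b : ℕ} (hb : 2 ≤ b) (n : ℕ) : ((b ^ n : ℕ) : ℝ) = Real.exp (Real.log b * n) := by
  have hb0 : (0 : ℝ) < b := by positivity
  rw [mul_comm, Real.exp_nat_mul, Real.exp_log hb0]
  push_cast
  rfl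

theorem Fam.B_le (h : Fam b κ a c₁ A) (q : ℕ) : ((b ^ ex κ q : ℕ) : ℝ) ≤ Real.exp (κ * (Real.log b * q)) := by
  have ha := h.l0
  rw [pow_exp h.hb, Real.exp_le_exp]
  have := (ex_bounds h.κ0 q).2
  calc Real.log b * (ex κ q : ℝ) ≤ Real.log b * (κ * q) := by gcongr
    _ = _ := by ring

/-- the mean value -/
noncomputable def cw (a : ℝ) (q : ℕ) : ℝ := Real.exp Real.eulerMascheroniConstant / a * (Real.log q / q)

theorem cw_nonneg {a : ℝ} (ha : 0 < a) (q : ℕ) : 0 ≤ cw a q := by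
  unfold cw
  have := Real.log_natCast_nonneg q
  positivity

/-- the exponent between `0.5834` and the relative number of digits -/
theorem Fam.kk (h : Fam b κ a c₁ A) : ∃ κ₁ δ : ℝ, 0.5834 < κ₁ ∧ κ₁ ≤ 1 ∧ 0 < δ ∧
    κ * Real.log b = κ₁ * a + δ := by
  have ha := h.ha
  refine ⟨(0.5834 + κ * Real.log b / a) / 2, (κ * Real.log b - 0.5834 * a) / 2, ?_, ?_, by linarith [h.hκ], ?_⟩
  · have : 0.5834 < κ * Real.log b / a := by
      rw [lt_div_iff₀ ha]; exact h.hκ
    linarith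
  · have : κ * Real.log b / a < 1 := by
      rw [div_lt_one ha]; exact h.hκ1
    linarith
  · field_simp
    ring

theorem Fam.one_pt (h : Fam b κ a c₁ A) : ∃ K : ℝ, 0 < K ∧ ∀ᶠ q : ℕ in atTop,
    |(∑ k ∈ range (b ^ ex κ q), ph A q k) / ((b ^ ex κ q : ℕ) : ℝ) - cw a q| ≤ K / q := by
  obtain ⟨κ₁, δ, hκ₁, hκ₁', hδ, hκδ⟩ := h.kk
  obtain ⟨K, hK, hev⟩ := h.blk hκ₁ hκ₁'
  refine ⟨K, hK, ?_⟩
  have hl := h.l0
  filter_upwards [hev, tendsto_natCast_atTop_atTop.eventually_ge_atTop (Real.log b / δ)] with q h1 h2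
  rw [div_le_iff₀ hδ] at h2
  have hB : (0 : ℝ) < ((b ^ ex κ q : ℕ) : ℝ) := by
    have := h.hb
    positivity
  have h3 := h1 0 (b ^ ex κ q) (by
    rw [pow_exp h.hb, Real.exp_le_exp]
    have h4 := mul_le_mul_of_nonneg_left (ex_bounds h.κ0 q).1.le hl.le
    have e : Real.log b * (κ * q - 1) = (κ * Real.log b) * q - Real.log b := by ring
    rw [e, hκδ] at h4
    linarith) (by
    push_cast
    rw [zero_add]
    have := h.B_le q
    push_cast at this
    exact this)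
  simp only [zero_add] at h3
  have e1 : (∑ k ∈ range (b ^ ex κ q), ph A q k) / ((b ^ ex κ q : ℕ) : ℝ) - cw a q =
      (∑ k ∈ range (b ^ ex κ q), ph A q k - ((b ^ ex κ q : ℕ) : ℝ) * cw a q) / ((b ^ ex κ q : ℕ) : ℝ) := by
    field_simp
  rw [e1, abs_div, abs_of_pos hB, div_le_iff₀ hB]
  refine h3.trans (le_of_eq ?_)
  ring

/-- distant pairs -/
theorem Fam.far (h : Fam b κ a c₁ A) : ∃ K η : ℝ, 0 < K ∧ 0 < η ∧ η ≤ 1 ∧ ∀ᶠ q : ℕ in atTop, ∀ p : ℕ,
    (p : ℝ) ≤ η * q → ∀ mp : ℝ,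
    |(∑ k ∈ range (b ^ ex κ p), (ph A p k - mp) * ∑ i ∈ range (b ^ (ex κ q - ex κ p)),
      (ph A q (b ^ (ex κ q - ex κ p) * k + i) - cw a q)) / ((b ^ ex κ q : ℕ) : ℝ)| ≤
      K / q * ((∑ k ∈ range (b ^ ex κ p), |ph A p k - mp|) / ((b ^ ex κ p : ℕ) : ℝ)) := by
  obtain ⟨κ₁, δ, hκ₁, hκ₁', hδ, hκδ⟩ := h.kk
  obtain ⟨K, hK, hev⟩ := h.blk hκ₁ hκ₁'
  have hl := h.l0
  have ha := h.ha
  have hκ0 := h.κ0
  have hκl : 0 < κ * Real.log b := by positivity
  have hδle : δ ≤ κ * Real.log b := by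
    have : 0 < κ₁ * a := by
      have : 0 < κ₁ := by linarith
      positivity
    linarith
  refine ⟨K, δ / (2 * (κ * Real.log b)), hK, by positivity, ?_, ?_⟩
  · rw [div_le_one (by positivity)]
    linarith
  filter_upwards [hev, tendsto_natCast_atTop_atTop.eventually_ge_atTop (2 * Real.log b / δ),
    eventually_ge_atTop 1] with q h1 h2 hq1 p hp mp
  have hq0 : (0 : ℝ) < q := by exact_mod_cast hq1
  rw [div_le_iff₀ hδ] at h2
  have hpκ : κ * Real.log b * p ≤ δ / 2 * q := by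
    calc κ * Real.log b * p ≤ κ * Real.log b * (δ / (2 * (κ * Real.log b)) * q) := by gcongr
      _ = δ / 2 * q := by field_simp
  have hpq : p ≤ q := by
    have : (p : ℝ) ≤ q := by
      refine hp.trans ?_
      refine mul_le_of_le_one_left hq0.le ?_
      rw [div_le_one (by positivity)]
      linarith
    exact_mod_cast this
  set m := b ^ ex κ p with hm
  set n := b ^ (ex κ q - ex κ p) with hn
  have hmn : b ^ ex κ q = m * n := by
    rw [hm, hn, ← pow_add]
    congr 1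
    have := ex_mono hκ0 hpq
    omega
  have hb0 : 0 < b := by have := h.hb; omega
  have hm0 : (0 : ℝ) < m := by rw [hm]; positivity
  have hn0 : (0 : ℝ) < n := by rw [hn]; positivity
  have hnbig : Real.exp (κ₁ * (a * q)) ≤ n := by
    rw [hn, pow_exp h.hb, Real.exp_le_exp]
    have h4 := (ex_bounds hκ0 q).1
    have h5 := (ex_bounds hκ0 p).2
    have h6 : ((ex κ q - ex κ p : ℕ) : ℝ) = ex κ q - ex κ p := Nat.cast_sub (ex_mono hκ0 hpq)
    have h7 : Real.log b * (κ * q - 1 - κ * p) ≤ Real.log b * ((ex κ q - ex κ p : ℕ) : ℝ) := by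
      rw [h6]
      exact mul_le_mul_of_nonneg_left (by linarith) hl.le
    have e : Real.log b * (κ * q - 1 - κ * p) = (κ * Real.log b) * q - Real.log b - κ * Real.log b * p := by ring
    rw [e] at h7
    have e2 : (κ * Real.log b) * q = κ₁ * (a * q) + δ * q := by rw [hκδ]; ring
    linarith
  have hin : ∀ k ∈ range m, |∑ i ∈ range n, (ph A q (n * k + i) - cw a q)| ≤ K * (n / q) := by
    intro k hk
    rw [mem_range] at hk
    have h3 := h1 (n * k) n hnbig (by
      have h4 : n * k + n ≤ m * n := by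
        calc n * k + n = n * (k + 1) := by ring
          _ ≤ n * m := Nat.mul_le_mul_left _ hk
          _ = m * n := mul_comm _ _
      have h5 := h.B_le q
      rw [hmn] at h5
      refine le_trans ?_ h5
      exact_mod_cast h4)
    rw [Finset.sum_sub_distrib, Finset.sum_const, card_range, nsmul_eq_mul]
    exact h3
  have hqe : ((b ^ ex κ q : ℕ) : ℝ) = m * n := by rw [hmn]; push_cast; rfl
  rw [hqe, abs_div, abs_of_pos (by positivity : (0 : ℝ) < m * n)]
  have hsum : |∑ k ∈ range m, (ph A p k - mp) * ∑ i ∈ range n, (ph A q (n * k + i) - cw a q)| ≤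
      (∑ k ∈ range m, |ph A p k - mp|) * (K * (n / q)) := by
    rw [Finset.sum_mul]
    refine (Finset.abs_sum_le_sum_abs _ _).trans (Finset.sum_le_sum fun k hk => ?_)
    rw [abs_mul]
    exact mul_le_mul_of_nonneg_left (hin k hk) (abs_nonneg _)
  rw [div_le_iff₀ (by positivity)]
  refine hsum.trans (le_of_eq ?_)
  field_simp

/-- the indicator of a large smooth part -/
noncomputable def lph (A : ℕ → ℕ) (S : ℝ) (q k : ℕ) : ℝ :=
  if (roughPart q (A q + k)).Prime ∧ ¬ ((((A q + k) / roughPart q (A q + k) : ℕ) : ℝ) ≤ S) then 1 else 0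

theorem lph_nonneg (A : ℕ → ℕ) (S : ℝ) (q k : ℕ) : 0 ≤ lph A S q k := by unfold lph; split_ifs <;> norm_num

theorem sum_lph (A : ℕ → ℕ) (S : ℝ) (q H : ℕ) (h : 1 ≤ A q) :
    ∑ i ∈ range H, lph A S q i = (((Ioc (A q - 1) (A q - 1 + H)).filter (fun m => (roughPart q m).Prime ∧
      ¬ (((m / roughPart q m : ℕ) : ℝ) ≤ S))).card : ℝ) := by
  classical
  have h1 : Ioc (A q - 1) (A q - 1 + H) = Ico (A q) (A q + H) := by
    ext m
    simp only [mem_Ioc, mem_Ico]
    omega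
  rw [h1]
  have h2 : (((Ico (A q) (A q + H)).filter (fun m => (roughPart q m).Prime ∧
      ¬ (((m / roughPart q m : ℕ) : ℝ) ≤ S))).card : ℝ) =
      ∑ m ∈ Ico (A q) (A q + H), if (roughPart q m).Prime ∧ ¬ (((m / roughPart q m : ℕ) : ℝ) ≤ S)
        then (1 : ℝ) else 0 := by
    rw [Finset.sum_ite, Finset.sum_const_zero, add_zero, Finset.sum_const, nsmul_eq_mul, mul_one]
  rw [h2, Finset.sum_Ico_eq_sum_range]
  have h3 : A q + H - A q = H := by omega
  rw [h3]
  rfl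

end Pool.Agent.H39x.LP
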