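import Pool.Agent.Q211.KS.Near
import Pool.Agent.Q298.KS.Tri
import Pool.Agent.Q298.KS.Mb
import Pool.Agent.Q298.KS.Sb1
import Pool.Agent.Q14.KS.Smo
import Pool.Agent.H376R2.MR.Mv

/-!
# Project LP: the low frequencies

For every tuple of Heath-Brown's identity the sum of the absolute values of the Dirichlet polynomial over the
frequencies between a power of `Y` and `e^{Y/100}` is smaller than any power of `Y`.
-/

set_option autoImplicit false

namespace Pool.Agent.H39x.LP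

open Finset Pool.Agent.H376R2.MR Pool.Agent.Q240.KS Pool.Agent.Q211.KS

theorem sum_inv_sq' (S : Finset ℤ) {D : ℝ} (hD : 0 < D) (hS : ∀ τ ∈ S, D ≤ |(τ : ℝ)|) :
    ∑ τ ∈ S, 1 / (τ : ℝ) ^ 2 ≤ 4 / D := by
  classical
  obtain ⟨k, hk⟩ : ∃ k : ℕ, k + 1 = ⌈D⌉₊ := ⟨⌈D⌉₊ - 1, Nat.sub_add_cancel (Nat.ceil_pos.2 hD)⟩
  obtain ⟨n, hn⟩ : ∃ n : ℕ, ∀ τ ∈ S, τ.natAbs ∈ Ioo k n := by
    refine ⟨S.sup Int.natAbs + 1, fun τ hτ => ?_⟩
    rw [Finset.mem_Ioo]
    constructor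
    · have h1 : ⌈D⌉₊ ≤ τ.natAbs := by
        rw [Nat.ceil_le]
        have := hS τ hτ
        rwa [Nat.cast_natAbs, Int.cast_abs]
      omega
    · exact Nat.lt_succ_of_le (Finset.le_sup (f := Int.natAbs) hτ)
  have h1 : ∑ τ ∈ S, 1 / (τ : ℝ) ^ 2 =
      ∑ j ∈ Ioo k n, ∑ τ ∈ S.filter (fun τ => τ.natAbs = j), 1 / (τ : ℝ) ^ 2 :=
    (Finset.sum_fiberwise_of_maps_to hn _).symm
  rw [h1]
  have h2 : ∀ j ∈ Ioo k n, ∑ τ ∈ S.filter (fun τ => τ.natAbs = j), 1 / (τ : ℝ) ^ 2 ≤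
      2 * ((j : ℝ) ^ 2)⁻¹ := by
    intro j _
    have h3 : ∀ τ ∈ S.filter (fun τ => τ.natAbs = j), 1 / (τ : ℝ) ^ 2 = ((j : ℝ) ^ 2)⁻¹ := by
      intro τ hτ
      rw [Finset.mem_filter] at hτ
      rw [← hτ.2, Nat.cast_natAbs, Int.cast_abs, sq_abs, one_div]
    rw [Finset.sum_congr rfl h3, Finset.sum_const, nsmul_eq_mul]
    apply mul_le_mul_of_nonneg_right _ (by positivity)
    have h4 : S.filter (fun τ => τ.natAbs = j) ⊆ {(j : ℤ), -(j : ℤ)} := by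
      intro τ hτ
      rw [Finset.mem_filter] at hτ
      rw [Finset.mem_insert, Finset.mem_singleton]
      omega
    have h5 := (Finset.card_le_card h4).trans Finset.card_le_two
    exact_mod_cast h5
  refine (Finset.sum_le_sum h2).trans ?_
  rw [← Finset.mul_sum]
  have h6 := sum_Ioo_inv_sq_le (α := ℝ) k n
  have h7 : (D : ℝ) ≤ (k : ℝ) + 1 := by
    have : ((k + 1 : ℕ) : ℝ) = (⌈D⌉₊ : ℝ) := by rw [hk]
    push_cast at this
    rw [this]
    exact Nat.le_ceil D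
  calc 2 * ∑ i ∈ Ioo k n, ((i : ℝ) ^ 2)⁻¹ ≤ 2 * (2 / ((k : ℝ) + 1)) := by gcongr
    _ ≤ 2 * (2 / D) := by gcongr
    _ = 4 / D := by ring

theorem sb1_all : S_SB1 := Pool.Agent.Q298.KS.sb1 Pool.Agent.Q14.KS.smo

theorem dy_le {Y : ℝ} (hY : 0 ≤ Y) {d : Fin 10 → ℕ} (hd : d ∈ DY Y) (i : Fin 10) :
    (d i : ℝ) ≤ 20 * (Y + 1) := by
  unfold DY at hd
  rw [Finset.mem_filter, Fintype.mem_piFinset] at hd
  have h1 := Finset.mem_range.1 (hd.1 i)
  have h2 : d i ≤ ⌊20 * (Y + 1)⌋₊ := by omega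
  exact (Nat.cast_le.2 h2).trans (Nat.floor_le (by linarith))

/-- trivial bound of every factor -/
theorem pf_le {Y : ℝ} (hY : 5 ≤ Y) {d : Fin 10 → ℕ} (hd : d ∈ DY Y) (k : ℤ) (i : Fin 10) :
    ‖PF (zY Y) (ty i) (d i) k‖ ≤ 50 * Y := by
  have h1 := (Pool.Agent.Q298.KS.tri (zY Y) (ty i) (d i) k).1
  have h2 := dy_le (by linarith) hd i
  linarith

/-- mean squares of a long Moebius factor at low frequencies -/
theorem ms_low : ∃ C : ℝ, 1 ≤ C ∧ ∀ (z : ℕ) (t : Fin 3) (d : ℕ) (K : ℕ) (L : Finset ℤ), t ≠ 2 → 1 ≤ d → 1 ≤ K →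
    (K : ℝ) ≤ 2 * Real.exp (((d : ℝ) - 1) / 20) → L ⊆ FK K → ∑ k ∈ L, ‖PF z t d k‖ ^ 2 ≤ C := by
  classical
  obtain ⟨C, hC, h⟩ := Pool.Agent.H376R2.MR.mv
  refine ⟨7 * C + 1, by linarith, fun z t d K L ht hd hK hKN hL => ?_⟩
  have hd1 : (1 : ℝ) ≤ d := by exact_mod_cast hd
  have h1 := h (sp0 d) (fun n => ((cf z t d n : ℝ) : ℂ)) (Real.exp (((d : ℝ) - 1) / 20))
    (Real.exp (((d : ℝ) + 1) / 20)) K (Real.one_le_exp (by linarith)) (Real.exp_le_exp.2 (by linarith)) (by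
      intro n hn
      obtain ⟨h1, h2, h3⟩ := mem_sp0 hn
      have hn0 : (0 : ℝ) < n := by exact_mod_cast h1
      rw [← Real.le_log_iff_exp_le hn0, ← Real.log_le_iff_le_exp hn0]
      constructor <;> linarith) hK
  rw [← Real.exp_sub, Real.log_exp] at h1
  have h2 : ∑ k ∈ L, ‖PF z t d k‖ ^ 2 ≤ ∑ k ∈ FK K, ‖DP (sp0 d) (fun n => ((cf z t d n : ℝ) : ℂ)) k‖ ^ 2 := by
    refine le_trans (Finset.sum_le_sum_of_subset_of_nonneg hL fun _ _ _ => by positivity) (le_of_eq ?_)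
    exact Finset.sum_congr rfl fun k _ => by rw [PF_eq]
  have h3 : ∑ n ∈ sp0 d, ‖((cf z t d n : ℝ) : ℂ)‖ ^ 2 * ((n : ℝ) + K) ≤ 6 := by
    have h4 := (Pool.Agent.Q298.KS.tri z t d 0).2.2.2 ht
    have h5 : ∀ n ∈ sp0 d, ‖((cf z t d n : ℝ) : ℂ)‖ ^ 2 * ((n : ℝ) + K) ≤ 3 * ((n : ℝ) * cf z t d n ^ 2) := by
      intro n hn
      obtain ⟨h1, h2, h3⟩ := mem_sp0 hn
      have hn0 : (0 : ℝ) < n := by exact_mod_cast h1
      have hn1 : Real.exp (((d : ℝ) - 1) / 20) ≤ n := by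
        rw [← Real.le_log_iff_exp_le hn0]; linarith
      rw [Complex.norm_real, Real.norm_eq_abs, sq_abs]
      have h6 : (n : ℝ) + K ≤ 3 * n := by linarith
      calc cf z t d n ^ 2 * ((n : ℝ) + K) ≤ cf z t d n ^ 2 * (3 * n) := by gcongr
        _ = _ := by ring
    have h6 : ∑ n ∈ sp0 d, (n : ℝ) * cf z t d n ^ 2 ≤ ∑ n ∈ sp d, (n : ℝ) * cf z t d n ^ 2 := by
      apply Finset.sum_le_sum_of_subset_of_nonneg
      · unfold sp0
        exact Finset.filter_subset _ _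
      · intro n _ _
        positivity
    have h7 := Finset.sum_le_sum h5
    rw [← Finset.mul_sum] at h7
    linarith
  have h8 : (1 : ℝ) + (((d : ℝ) + 1) / 20 - ((d : ℝ) - 1) / 20) = 1.1 := by ring_nf
  rw [h8] at h1
  have h9 : C * 1.1 * ∑ n ∈ sp0 d, ‖((cf z t d n : ℝ) : ℂ)‖ ^ 2 * ((n : ℝ) + K) ≤ C * 1.1 * 6 := by gcongr
  linarith

theorem low (B : ℕ) : ∃ (A : ℕ) (Y₀ : ℝ), ∀ Y : ℝ, Y₀ ≤ Y → ∀ d ∈ DY Y, ∀ L : Finset ℤ,
    (∀ k ∈ L, Y ^ A ≤ |(k : ℝ)| ∧ |(k : ℝ)| ≤ Real.exp (Y / 100)) →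
    ∑ k ∈ L, ‖EE (zY Y) d k‖ ≤ 1 / Y ^ B := by
  classical
  obtain ⟨C₁, hC₁, hs⟩ := sb1_all
  obtain ⟨C₂, hC₂, hms⟩ := ms_low
  obtain ⟨C₃, hC₃, hm⟩ := Pool.Agent.Q298.KS.mb 1 (B + 2)
  refine ⟨B + 11, max 400 (max (8 * C₁ * 50 ^ 10) (C₂ * C₃ * 3200)), ?_⟩
  intro Y hY d hd L hL
  have hY1 : 400 ≤ Y := (le_max_left _ _).trans hY
  have hY2 : 8 * C₁ * 50 ^ 10 ≤ Y := ((le_max_left _ _).trans (le_max_right _ _)).trans hY
  have hY3 : C₂ * C₃ * 3200 ≤ Y := ((le_max_right _ _).trans (le_max_right _ _)).trans hY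
  have hY0 : 0 < Y := by linarith
  have hdu : ∀ i, (d i : ℝ) ≤ 20 * (Y + 1) := fun i => dy_le hY0.le hd i
  have hd2 : |(∑ i, (d i : ℝ)) / 20 - Y| ≤ 1 := by
    unfold DY at hd
    exact (Finset.mem_filter.1 hd).2
  have hYA : (0 : ℝ) < Y ^ (B + 11) := by positivity
  have hkpos : ∀ k ∈ L, 0 < |(k : ℝ)| := fun k hk => lt_of_lt_of_le hYA (hL k hk).1
  have hk0 : ∀ k ∈ L, k ≠ 0 := by
    intro k hk h
    have := hkpos k hk
    rw [h] at this
    simp at this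
  by_cases hcase : ∃ i : Fin 10, 5 ≤ (i : ℕ) ∧ Y / 5 + 20 ≤ (d i : ℝ)
  · obtain ⟨i, hi5, hi⟩ := hcase
    have hty : ty i ≠ 0 := by
      unfold ty
      rw [if_neg (by omega)]
      split_ifs <;> decide
    have hEE : ∀ k ∈ L, ‖EE (zY Y) d k‖ ≤ 2 * C₁ * (50 * Y) ^ 10 * (1 / (k : ℝ) ^ 2) := by
      intro k hk
      have hkp := hkpos k hk
      have h0 : |(k : ℝ)| ≤ Real.exp ((d i : ℝ) / 20 - 1) :=
        (hL k hk).2.trans (Real.exp_le_exp.2 (by linarith))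
      have h1 := hs (zY Y) (ty i) (d i) k hty (hk0 k hk) h0
      have h2 : Real.exp (-((d i : ℝ) / 10)) ≤ 1 / (k : ℝ) ^ 2 := by
        have h3 : |(k : ℝ)| ≤ Real.exp ((d i : ℝ) / 20) := h0.trans (Real.exp_le_exp.2 (by linarith))
        have h4 : (k : ℝ) ^ 2 ≤ Real.exp ((d i : ℝ) / 10) := by
          rw [← sq_abs]
          calc |(k : ℝ)| ^ 2 ≤ Real.exp ((d i : ℝ) / 20) ^ 2 := by gcongr
            _ = _ := by rw [← Real.exp_nat_mul]; congr 1; push_cast; ring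
        rw [Real.exp_neg, ← one_div]
        apply one_div_le_one_div_of_le _ h4
        rw [← sq_abs]
        positivity
      have h3 : ‖PF (zY Y) (ty i) (d i) k‖ ≤ 2 * C₁ * (50 * Y) * (1 / (k : ℝ) ^ 2) := by
        refine h1.trans ?_
        have := hdu i
        calc C₁ * (1 + (d i : ℝ)) * (1 / (k : ℝ) ^ 2 + Real.exp (-((d i : ℝ) / 10)))
            ≤ C₁ * (50 * Y) * (1 / (k : ℝ) ^ 2 + 1 / (k : ℝ) ^ 2) := by
              gcongr
              linarith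
          _ = _ := by ring
      unfold EE
      rw [norm_prod, ← Finset.mul_prod_erase univ _ (Finset.mem_univ i)]
      have h4 : ∏ x ∈ univ.erase i, ‖PF (zY Y) (ty x) (d x) k‖ ≤ (50 * Y) ^ 9 := by
        refine (Finset.prod_le_prod (fun i _ => norm_nonneg _) fun i _ => pf_le (by linarith) hd k i).trans ?_
        rw [Finset.prod_const, Finset.card_erase_of_mem (Finset.mem_univ i)]
        simp
      calc _ ≤ 2 * C₁ * (50 * Y) * (1 / (k : ℝ) ^ 2) * (50 * Y) ^ 9 := by gcongr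
        _ = _ := by ring
    have h1 := Finset.sum_le_sum hEE
    rw [← Finset.mul_sum] at h1
    have h2 := sum_inv_sq' L hYA (fun k hk => (hL k hk).1)
    refine h1.trans ?_
    calc 2 * C₁ * (50 * Y) ^ 10 * ∑ k ∈ L, 1 / (k : ℝ) ^ 2
        ≤ 2 * C₁ * (50 * Y) ^ 10 * (4 / Y ^ (B + 11)) := by gcongr
      _ = (8 * C₁ * 50 ^ 10) * (Y ^ 10 / Y ^ (B + 11)) := by ring
      _ ≤ Y * (Y ^ 10 / Y ^ (B + 11)) := by gcongr
      _ = 1 / Y ^ B := by
        rw [pow_add]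
        field_simp
  push Not at hcase
  have h5 : ∀ i : Fin 10, 5 ≤ (i : ℕ) → (d i : ℝ) < Y / 5 + 20 := hcase
  rcases L.eq_empty_or_nonempty with rfl | ⟨k₀, hk₀⟩
  · rw [Finset.sum_empty]
    positivity
  -- the Moebius factors
  by_cases hz : ∃ i : Fin 10, (i : ℕ) < 5 ∧ 4 * Y + 9 ≤ (d i : ℝ)
  · obtain ⟨i, hi, hi9⟩ := hz
    have hty : ty i = 0 := by
      unfold ty
      rw [if_pos hi]
    have hEE : ∀ k ∈ L, ‖EE (zY Y) d k‖ = 0 := by
      intro k _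
      have h1 : PF (zY Y) (ty i) (d i) k = 0 := by
        by_contra h
        rw [hty] at h
        linarith [mob_short h]
      unfold EE
      rw [norm_eq_zero]
      exact Finset.prod_eq_zero (Finset.mem_univ i) h1
    rw [Finset.sum_congr rfl hEE, Finset.sum_const_zero]
    positivity
  push Not at hz
  have h4 : ∀ i : Fin 10, (i : ℕ) < 5 → (d i : ℝ) < 4 * Y + 9 := hz
  have h3 : ∀ j : Fin 10, (j : ℕ) < 5 → 2 * Y + 1 ≤ (d j : ℝ) := by
    intro j hj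
    have h1 : ∑ i, (d i : ℝ) = d j + ∑ i ∈ univ.erase j, (d i : ℝ) :=
      (Finset.add_sum_erase univ (fun i => (d i : ℝ)) (Finset.mem_univ j)).symm
    have h2 : ∑ i ∈ univ.erase j, (d i : ℝ) ≤
        ∑ i ∈ univ.erase j, (if (i : ℕ) < 5 then 4 * Y + 9 else Y / 5 + 20) := by
      refine Finset.sum_le_sum fun i _ => ?_
      split_ifs with hi
      · exact (h4 i hi).le
      · exact (h5 i (by omega)).le
    have h6 : ∑ i : Fin 10, (if (i : ℕ) < 5 then 4 * Y + 9 else Y / 5 + 20) =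
        (4 * Y + 9) + ∑ i ∈ univ.erase j, (if (i : ℕ) < 5 then 4 * Y + 9 else Y / 5 + 20) := by
      rw [← Finset.add_sum_erase univ _ (Finset.mem_univ j), if_pos hj]
    have h7 : ∑ i : Fin 10, (if (i : ℕ) < 5 then 4 * Y + 9 else Y / 5 + 20) =
        5 * (4 * Y + 9) + 5 * (Y / 5 + 20) := by
      simp only [Fin.sum_univ_succ, Fin.val_succ, Fin.val_zero]
      norm_num
      ring
    have h8 := (abs_le.1 hd2).1
    linarith
  set K : ℕ := ⌈Real.exp (Y / 100)⌉₊ + 1 with hK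
  have he1 : (1 : ℝ) ≤ Real.exp (Y / 100) := Real.one_le_exp (by positivity)
  have hKle : (K : ℝ) ≤ 3 * Real.exp (Y / 100) := by
    have h1 := Nat.ceil_lt_add_one (Real.exp_pos (Y / 100)).le
    rw [hK]
    push_cast
    linarith
  have hLK : L ⊆ FK K := by
    intro k hk'
    have h1 : |(k : ℝ)| ≤ Real.exp (Y / 100) := (hL k hk').2
    have h2 : |(k : ℝ)| < K := by
      rw [hK]
      push_cast
      linarith [Nat.le_ceil (Real.exp (Y / 100))]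
    have h3 : |k| < (K : ℤ) := by exact_mod_cast h2
    unfold FK
    rw [Finset.mem_Ioo]
    exact abs_lt.1 h3
  have hmsq : ∀ i : Fin 10, (i : ℕ) < 5 → ∑ k ∈ L, ‖PF (zY Y) (ty i) (d i) k‖ ^ 2 ≤ C₂ := by
    intro i hi
    have hty : ty i ≠ 2 := by
      unfold ty
      rw [if_pos hi]
      decide
    have hdi := h3 i hi
    refine hms (zY Y) (ty i) (d i) K L hty (by
      have : (1 : ℝ) ≤ (d i : ℝ) := by linarith
      exact_mod_cast this) (by omega) ?_ hLK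
    refine hKle.trans ?_
    have e1 : Real.exp (Y / 10) ≤ Real.exp (((d i : ℝ) - 1) / 20) := Real.exp_le_exp.2 (by linarith)
    have e2 : Real.exp (Y / 10) = Real.exp (9 * Y / 100) * Real.exp (Y / 100) := by
      rw [← Real.exp_add]; congr 1; ring
    have e3 : (2 : ℝ) ≤ Real.exp (9 * Y / 100) := by
      have := Real.add_one_le_exp (9 * Y / 100)
      linarith
    nlinarith
  have hEE : ∀ k ∈ L, ‖EE (zY Y) d k‖ ≤
      C₃ * 3200 * Y / Y ^ (B + 2) * (‖PF (zY Y) (ty 0) (d 0) k‖ * ‖PF (zY Y) (ty 1) (d 1) k‖) := by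
    intro k hk'
    have hb : ∀ i : Fin 10, ‖PF (zY Y) (ty i) (d i) k‖ ≤
        (![‖PF (zY Y) (ty 0) (d 0) k‖, ‖PF (zY Y) (ty 1) (d 1) k‖, C₃ / Y ^ (B + 2), 2, 2, 2, 2, 2, 2,
          50 * Y] : Fin 10 → ℝ) i := by
      have hT : ∀ i : Fin 10, ty i ≠ 2 → ‖PF (zY Y) (ty i) (d i) k‖ ≤ 2 := fun i hi =>
        (Pool.Agent.Q298.KS.tri (zY Y) (ty i) (d i) k).2.1 hi
      have h2' : ‖PF (zY Y) (ty 2) (d 2) k‖ ≤ C₃ / Y ^ (B + 2) := by
        have hd2' := h3 2 (by norm_num)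
        have h1 := hm (zY Y) (d 2) k (by
          refine (hL k hk').2.trans (Real.exp_le_exp.2 ?_)
          push_cast
          linarith)
        have h6 : ty 2 = 0 := by
          unfold ty
          rw [if_pos (by norm_num)]
        rw [h6]
        refine h1.trans ?_
        apply div_le_div_of_nonneg_left (by linarith) (by positivity)
        exact pow_le_pow_left₀ hY0.le (by linarith) _
      intro i
      fin_cases i
      · exact le_rfl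
      · exact le_rfl
      · exact h2'
      · exact hT 3 (by decide)
      · exact hT 4 (by decide)
      · exact hT 5 (by decide)
      · exact hT 6 (by decide)
      · exact hT 7 (by decide)
      · exact hT 8 (by decide)
      · exact pf_le (by linarith) hd k 9
    unfold EE
    rw [norm_prod]
    refine (Finset.prod_le_prod (fun i _ => norm_nonneg _) fun i _ => hb i).trans (le_of_eq ?_)
    simp [Fin.prod_univ_succ]
    ring
  have hCS : ∑ k ∈ L, ‖PF (zY Y) (ty 0) (d 0) k‖ * ‖PF (zY Y) (ty 1) (d 1) k‖ ≤ C₂ := by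
    have h1 := hmsq 0 (by norm_num)
    have h2 := hmsq 1 (by norm_num)
    have h6 : ∀ k ∈ L, ‖PF (zY Y) (ty 0) (d 0) k‖ * ‖PF (zY Y) (ty 1) (d 1) k‖ ≤
        (‖PF (zY Y) (ty 0) (d 0) k‖ ^ 2 + ‖PF (zY Y) (ty 1) (d 1) k‖ ^ 2) / 2 := by
      intro k _
      nlinarith [sq_nonneg (‖PF (zY Y) (ty 0) (d 0) k‖ - ‖PF (zY Y) (ty 1) (d 1) k‖)]
    have h7 := Finset.sum_le_sum h6
    rw [← Finset.sum_div, Finset.sum_add_distrib] at h7
    linarith
  refine (Finset.sum_le_sum hEE).trans ?_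
  rw [← Finset.mul_sum]
  calc C₃ * 3200 * Y / Y ^ (B + 2) *
        ∑ k ∈ L, ‖PF (zY Y) (ty 0) (d 0) k‖ * ‖PF (zY Y) (ty 1) (d 1) k‖
      ≤ C₃ * 3200 * Y / Y ^ (B + 2) * C₂ := mul_le_mul_of_nonneg_left hCS (by positivity)
    _ = C₂ * C₃ * 3200 * (Y / Y ^ (B + 2)) := by ring
    _ ≤ Y * (Y / Y ^ (B + 2)) := mul_le_mul_of_nonneg_right hY3 (by positivity)
    _ = 1 / Y ^ B := by
        rw [pow_add]
        field_simp

end Pool.Agent.H39x.LP
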