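import Pool.Agent.H39x.LP.Opt
import Pool.Agent.H39x.LP.Low

/-!
# Project LP: the Fejer sums at two scales are close

`FF Y u (aY Y) K` is nearly independent of `K` for `Y ^ (3 A) ≤ K ≤ e^{(0.4166 + η) Y}`.
-/

set_option autoImplicit false

namespace Pool.Agent.H39x.LP

open Finset Filter Topology Pool.Agent.H376R2.MR Pool.Agent.Q240.KS Pool.Agent.Q278.KS Pool.Agent.Q278.KT
open Pool.Agent.Q257.KS Pool.Agent.Q95.KS

/-- the sum over one class of frequencies is small -/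
theorem class_small (B : ℕ) : ∃ (G : ℕ) (ε' η Y₀ : ℝ), 0 < ε' ∧ 0 < η ∧ η ≤ 1 / 10 ∧ ∀ Y : ℝ, Y₀ ≤ Y → ∀ K : ℕ,
    1 ≤ K → (K : ℝ) ≤ Real.exp ((0.4166 + η) * Y) → ∀ m : ℤ → ℝ, (∀ k, |m k| ≤ 1) → ∀ u : ℝ, ∀ d ∈ DY Y,
    ∀ r : ℕ, ∀ g ∈ Fintype.piFinset (fun _ : Fin 10 => range (G + 1)),
    ‖SS Y G (ε' * Y) ⌈Real.exp (Y / 200)⌉₊ K r d g m u‖ ≤ 1 / Y ^ B := by
  classical
  obtain ⟨ε₀, hε₀, hε₀1, HN⟩ := Pool.Agent.Q240.KT.near2_all (1 / 200) (by norm_num)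
  obtain ⟨YN, HN⟩ := HN B
  obtain ⟨ε', η₁, YF, hε', hε'0, hη₁, HF⟩ := far (1 / 400) (ε₀ / 2) (by norm_num) (by positivity) (by linarith)
  have hT := Pool.Agent.Q298.KS.tri
  obtain ⟨G, hG⟩ : ∃ G : ℕ, G = ⌈3 / ε'⌉₊ := ⟨_, rfl⟩
  have hGpos : 3 ≤ ε' * G := by
    have := Nat.le_ceil (3 / ε')
    rw [← hG, div_le_iff₀ hε'] at this
    linarith
  have hGle : ε' * G ≤ 4 := by
    have h1 : (G : ℝ) ≤ 3 / ε' + 1 := by rw [hG]; exact (Nat.ceil_lt_add_one (by positivity)).le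
    have h2 : ε' * (3 / ε' + 1) = 3 + ε' := by field_simp
    have h3 : ε' * G ≤ ε' * (3 / ε' + 1) := by gcongr
    linarith
  have hev : ∀ᶠ Y : ℝ in atTop, 800 ≤ Y ∧ YN ≤ Y ∧ YF ≤ Y ∧
      2 * (1 + 50 * Y) ^ (10 + B) ≤ Real.exp (1 * Y) ∧ 1 * (1 + 50 * Y) ^ (10 + B) ≤ Real.exp (η₁ * Y) := by
    refine (eventually_ge_atTop 800).and ((eventually_ge_atTop YN).and ((eventually_ge_atTop YF).and
      ((ev_poly' _ (by norm_num) _ (by norm_num)).and (ev_poly' _ (by norm_num) _ hη₁))))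
  obtain ⟨Y₀, hY₀⟩ := eventually_atTop.1 hev
  refine ⟨G, ε', min η₁ (1 / 10), Y₀, hε', lt_min hη₁ (by norm_num), min_le_right _ _, ?_⟩
  intro Y hYY K hKpos hKle m hmb u d hd r g hg
  obtain ⟨hY, kN, kF, k1, k2⟩ := hY₀ Y hYY
  rw [one_mul] at k2
  have hYpos : 0 < Y := by linarith
  have hη1 : min η₁ (1 / 10) ≤ η₁ := min_le_left _ _
  have hη2 : min η₁ (1 / 10) ≤ 1 / 10 := min_le_right _ _
  have hK3 : (K : ℝ) ≤ Real.exp ((0.4166 + η₁) * Y) :=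
    hKle.trans (Real.exp_le_exp.2 (mul_le_mul_of_nonneg_right (by linarith) hYpos.le))
  have hK4 : (K : ℝ) ≤ Real.exp (0.82 * Y) :=
    hKle.trans (Real.exp_le_exp.2 (mul_le_mul_of_nonneg_right (by linarith) hYpos.le))
  set K₀ : ℕ := ⌈Real.exp (Y / 200)⌉₊ with hK₀
  set s : ℝ := ε' * Y with hs
  have hs0 : 0 ≤ s := by positivity
  have hK₀1 : Real.exp (1 / 200 * Y) ≤ K₀ := by
    rw [show 1 / 200 * Y = Y / 200 by ring]
    exact Nat.le_ceil _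
  rw [Fintype.mem_piFinset] at hg
  have h50 : 50 * Y ≤ 1 + 50 * Y := by linarith
  have hYB : Y ^ B ≤ (1 + 50 * Y) ^ B := by gcongr; linarith
  have hYBp : 0 < Y ^ B := by positivity
  set L := LS Y G s K₀ K r d g with hL
  set S : ℝ := ∑ i, (g i : ℝ) with hS
  set κ : Fin 10 → ℝ := fun i => ε' * (g i : ℝ) with hκ
  set kap : ℝ := ∑ i, κ i with hkap
  have hkapS : S * s = kap * Y := by
    rw [hS, hs, hkap, hκ]
    simp only
    rw [← Finset.mul_sum]; ring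
  have hκ0 : ∀ i, 0 ≤ κ i := fun i => by simp only [hκ]; positivity
  have hkle : ∀ i, κ i ≤ kap := fun i => Finset.single_le_sum (fun j _ => hκ0 j) (mem_univ i)
  have hk0 : 0 ≤ kap := Finset.sum_nonneg fun i _ => hκ0 i
  have hbd := SS_le' (s := s) (G := G) (K₀ := K₀) (K := K) (r := r) (g := g) hT u hmb
    (by linarith) hd hs0
  rw [← hL, ← hS, hkapS] at hbd
  have hLc : (L.card : ℝ) ≤ 2 * K := by
    have h1 : L ⊆ FK K := fun k hk => (mem_LS.1 hk).1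
    exact le_trans (by exact_mod_cast Finset.card_le_card h1) (card_FK K)
  rcases L.eq_empty_or_nonempty with he | hLne
  · rw [he] at hbd
    simp only [Finset.card_empty, Nat.cast_zero, zero_mul] at hbd
    exact hbd.trans (by positivity)
  have hkl : ∀ k ∈ L, Real.exp (1 / 200 * Y) ≤ |(k : ℝ)| ∧ |(k : ℝ)| < K := by
    intro k hk
    have h1 := mem_LS.1 hk
    constructor
    · refine hK₀1.trans ?_
      have := h1.2.1
      exact_mod_cast this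
    · have h2 := h1.1
      unfold FK at h2
      rw [mem_Ioo] at h2
      rw [abs_lt]
      constructor
      · exact_mod_cast h2.1
      · exact_mod_cast h2.2
  by_cases hcase1 : ∃ i, g i = G
  · obtain ⟨i, hi⟩ := hcase1
    have h3 : 3 ≤ kap := by
      refine hGpos.trans ?_
      have := hkle i
      simp only [hκ] at this
      rw [hi] at this
      exact this
    have h4 : (L.card : ℝ) * ((50 * Y) ^ 10 * Real.exp (-(kap * Y))) ≤
        2 * Real.exp (0.82 * Y) * ((50 * Y) ^ 10 * Real.exp (-(3 * Y))) := by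
      gcongr
      linarith
    refine (hbd.trans h4).trans ?_
    rw [le_div_iff₀ hYBp]
    calc 2 * Real.exp (0.82 * Y) * ((50 * Y) ^ 10 * Real.exp (-(3 * Y))) * Y ^ B
        ≤ 2 * Real.exp (0.82 * Y) * ((1 + 50 * Y) ^ 10 * Real.exp (-(3 * Y))) * (1 + 50 * Y) ^ B := by gcongr
      _ = (2 * (1 + 50 * Y) ^ (10 + B)) * (Real.exp (0.82 * Y) * Real.exp (-(3 * Y))) := by
          rw [pow_add]; ring
      _ ≤ Real.exp (1 * Y) * (Real.exp (0.82 * Y) * Real.exp (-(3 * Y))) := by gcongr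
      _ = Real.exp ((1 + 0.82 - 3) * Y) := by rw [← Real.exp_add, ← Real.exp_add]; congr 1; ring
      _ ≤ 1 := by
        rw [Real.exp_le_one_iff]
        nlinarith
  push Not at hcase1
  have hgG : ∀ i, g i < G := by
    intro i
    have := hg i
    rw [mem_range] at this
    have := hcase1 i
    omega
  have hPF : ∀ k ∈ L, ∀ i, Real.exp (-((κ i + ε') * Y)) ≤ ‖PF (zY Y) (ty i) (d i) k‖ := by
    intro k hk i
    have h1 := cg_high hs0 ((mem_LS.1 hk).2.2.2.2 i) (hgG i)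
    refine le_of_eq_of_le ?_ h1.le
    congr 1
    simp only [hκ, hs]
    ring
  by_cases hcase2 : kap < ε₀ / 2
  · have h1 := HN Y kN d hd L (by
      intro k hk
      have := hkl k hk
      exact ⟨this.1, (this.2.le).trans hK4⟩) (by
      intro k hk i
      refine le_trans ?_ (hPF k hk i)
      apply Real.exp_le_exp.2
      have := hkle i
      apply neg_le_neg
      apply mul_le_mul_of_nonneg_right _ hYpos.le
      linarith)
    exact (SS_le _ hmb).trans h1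
  push Not at hcase2
  obtain ⟨k₁, hk₁⟩ := hLne
  have hk₁' := mem_LS.1 hk₁
  have hT1 : (2:ℝ) ^ r ≤ |(k₁ : ℝ)| := by exact_mod_cast hk₁'.2.2.1
  have hT2 : |(k₁ : ℝ)| < (2:ℝ) ^ (r + 1) := by exact_mod_cast hk₁'.2.2.2.1
  have h1 := HF Y kF d hd ((2:ℝ) ^ r) (by
      have h2 := (hkl k₁ hk₁).1
      have h3 : Real.exp (1 / 200 * Y) = Real.exp (1 / 400 * Y) * Real.exp (1 / 400 * Y) := by
        rw [← Real.exp_add]; congr 1; ring
      have h5 : (2:ℝ) ^ (r + 1) = 2 * 2 ^ r := by ring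
      rw [h3] at h2
      rw [h5] at hT2
      refine lemD (B := 0) h2 hT2 ?_
      have := Real.add_one_le_exp (1 / 400 * Y)
      linarith) (by
      exact (hT1.trans (hkl k₁ hk₁).2.le).trans hK3) L ⟨k₁, hk₁⟩ (by
      intro k hk
      have h2 := mem_LS.1 hk
      constructor
      · exact_mod_cast h2.2.2.1
      · have h3 : |(k : ℝ)| < (2:ℝ) ^ (r + 1) := by exact_mod_cast h2.2.2.2.1
        have h5 : (2:ℝ) ^ (r + 1) = 2 * 2 ^ r := by ring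
        linarith) κ hκ0 hcase2 hPF
  obtain ⟨R, hLR, hAlt⟩ := h1
  have hL1 : (1 : ℝ) ≤ (L.card : ℝ) := by exact_mod_cast (Finset.card_pos.2 ⟨k₁, hk₁⟩)
  have hR0 : 0 ≤ R := by
    have h2 : 1 ≤ Real.exp (R * Y) := hL1.trans hLR
    rw [Real.one_le_exp_iff] at h2
    exact le_of_mul_le_mul_right (by linarith) hYpos
  have hκ4 : ∀ i, κ i ≤ 4 := by
    intro i
    have h2 : (g i : ℝ) ≤ G := by exact_mod_cast (hgG i).le
    calc κ i = ε' * (g i : ℝ) := rfl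
      _ ≤ ε' * G := by gcongr
      _ ≤ 4 := hGle
  have hkap40 : kap ≤ 40 := by
    rw [hkap]
    refine (Finset.sum_le_card_nsmul univ κ 4 fun i _ => hκ4 i).trans ?_
    simp
    norm_num
  have hfirst : R ≤ kap + -η₁ := by
    rcases hAlt with h2 | h2 | ⟨S', hS'⟩
    · exact h2
    · exfalso
      linarith
    · exfalso
      obtain ⟨w1, w2, w3⟩ := hS'
      have h3 : 0 ≤ ∑ i ∈ S', κ i := Finset.sum_nonneg fun i _ => hκ0 i
      have h4 : R - 80 ≤ gg κ R S' := by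
        unfold gg
        linarith
      have h5 : ∑ i ∈ S', (d i : ℝ) / (20 * Y) ≤ 2 := by
        calc ∑ i ∈ S', (d i : ℝ) / (20 * Y) ≤ ∑ i, (d i : ℝ) / (20 * Y) :=
              Finset.sum_le_sum_of_subset_of_nonneg (Finset.subset_univ _) fun i _ _ => by positivity
          _ = (∑ i, (d i : ℝ)) / 20 / Y := by rw [← Finset.sum_div]; field_simp
          _ ≤ 2 := by
            rw [div_le_iff₀ hYpos]
            have h6 : |(∑ i, (d i : ℝ)) / 20 - Y| ≤ 1 := by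
              unfold DY at hd
              exact (Finset.mem_filter.1 hd).2
            linarith [(abs_le.1 h6).2]
      linarith
  refine hbd.trans ?_
  rw [le_div_iff₀ hYBp]
  calc (L.card : ℝ) * ((50 * Y) ^ 10 * Real.exp (-(kap * Y))) * Y ^ B
      ≤ Real.exp (R * Y) * ((1 + 50 * Y) ^ 10 * Real.exp (-(kap * Y))) * (1 + 50 * Y) ^ B := by gcongr
    _ ≤ Real.exp ((kap + -η₁) * Y) * ((1 + 50 * Y) ^ 10 * Real.exp (-(kap * Y))) * (1 + 50 * Y) ^ B := by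
        gcongr
    _ = (1 + 50 * Y) ^ (10 + B) * (Real.exp ((kap + -η₁) * Y) * Real.exp (-(kap * Y))) := by
        rw [pow_add]; ring
    _ ≤ Real.exp (η₁ * Y) * (Real.exp ((kap + -η₁) * Y) * Real.exp (-(kap * Y))) := by gcongr
    _ = 1 := by
        rw [← Real.exp_add, ← Real.exp_add]
        rw [show η₁ * Y + ((kap + -η₁) * Y + -(kap * Y)) = 0 by ring, Real.exp_zero]

theorem ee_le {Y : ℝ} (hY : 5 ≤ Y) {d : Fin 10 → ℕ} (hd : d ∈ DY Y) (k : ℤ) :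
    ‖EE (zY Y) d k‖ ≤ (50 * Y) ^ 10 := by
  unfold EE
  rw [norm_prod]
  refine (Finset.prod_le_prod (fun i _ => norm_nonneg _) fun i _ => pf_le hY hd k i).trans ?_
  simp

theorem aa_le_sum (Y : ℝ) (k : ℤ) : ‖AA (zY Y) Y k‖ ≤ 31 * ∑ d ∈ DY Y, ‖EE (zY Y) d k‖ := by
  unfold AA
  refine (norm_sum_le _ _).trans ?_
  rw [Finset.mul_sum]
  refine Finset.sum_le_sum fun d _ => ?_
  rw [norm_mul]
  have h2 : ‖(ed d : ℂ)‖ ≤ 31 := by
    rw [← Complex.ofReal_intCast, Complex.norm_real, Real.norm_eq_abs]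
    exact ed_bound d
  gcongr

theorem ap_norm (Y u : ℝ) (k : ℤ) : ‖AP Y u (aY Y) k‖ = ‖AA (zY Y) Y k‖ := by
  unfold AP
  rw [AA_eq, norm_mul, Complex.norm_exp_ofReal_mul_I, one_mul]
  rfl

theorem ap_eq (Y u : ℝ) (k : ℤ) : AP Y u (aY Y) k =
    Complex.exp (((k : ℝ) * u : ℝ) * Complex.I) * AA (zY Y) Y k := by
  unfold AP
  rw [AA_eq]
  rfl

/-- the high frequencies -/
theorem high (B : ℕ) : ∃ (η Y₀ : ℝ), 0 < η ∧ η ≤ 1 / 10 ∧ ∀ Y : ℝ, Y₀ ≤ Y → ∀ K : ℕ,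
    1 ≤ K → (K : ℝ) ≤ Real.exp ((0.4166 + η) * Y) → ∀ m : ℤ → ℝ, (∀ k, |m k| ≤ 1) → ∀ u : ℝ,
    ‖∑ k ∈ (FK K).filter (fun k => (⌈Real.exp (Y / 200)⌉₊ : ℤ) ≤ |k|), ((m k : ℝ) : ℂ) *
      Complex.exp (((k : ℝ) * u : ℝ) * Complex.I) * AA (zY Y) Y k‖ ≤ 1 / Y ^ B := by
  classical
  obtain ⟨G, ε', η, Y₁, hε', hη, hη10, hcl⟩ := class_small (B + 12)
  obtain ⟨A, hA⟩ : ∃ A : ℝ, A = 31 * 21 ^ 10 * 2 * ((G : ℝ) + 1) ^ 10 := ⟨_, rfl⟩
  have hA0 : 0 < A := by rw [hA]; positivity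
  refine ⟨η, max Y₁ (max 100 (A + 1)), hη, hη10, ?_⟩
  intro Y hY K hK hKle m hm u
  have hY1 : Y₁ ≤ Y := (le_max_left _ _).trans hY
  have hY2 : 100 ≤ Y := ((le_max_left _ _).trans (le_max_right _ _)).trans hY
  have hY3 : A + 1 ≤ Y := ((le_max_right _ _).trans (le_max_right _ _)).trans hY
  have hY0 : 0 < Y := by linarith
  by_contra hcon
  push Not at hcon
  obtain ⟨d, hd, r, _, g, hg, h⟩ := Pool.Agent.Q222.KS.cls Y ⌈Real.exp (Y / 200)⌉₊ K G (ε' * Y) u (1 / Y ^ B) m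
    (Nat.one_le_ceil_iff.2 (Real.exp_pos _)) (by positivity) hcon.le
  have h1 := h.trans (hcl Y hY1 K hK hKle m hm u d hd r g hg)
  have hlog : ((Nat.log 2 K : ℕ) : ℝ) + 1 ≤ 2 * Y := lemB2 hY2 hK (hKle.trans (Real.exp_le_exp.2
    (mul_le_mul_of_nonneg_right (by linarith) hY0.le)))
  have hcd := card_DY (by linarith : (21 : ℝ) ≤ Y)
  have hc0 : (0 : ℝ) < (DY Y).card := by exact_mod_cast Finset.card_pos.2 ⟨d, hd⟩
  have h2 : 31 * ((DY Y).card : ℝ) * ((Nat.log 2 K : ℕ) + 1) * ((G : ℝ) + 1) ^ 10 ≤ A * Y ^ 11 := by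
    calc 31 * ((DY Y).card : ℝ) * ((Nat.log 2 K : ℕ) + 1) * ((G : ℝ) + 1) ^ 10
        ≤ 31 * (21 * Y) ^ 10 * (2 * Y) * ((G : ℝ) + 1) ^ 10 := by gcongr
      _ = A * Y ^ 11 := by rw [hA]; ring
  have h3 : 1 / Y ^ B / (A * Y ^ 11) ≤ 1 / Y ^ (B + 12) := by
    refine le_trans ?_ h1
    gcongr
  have h4 : 1 / Y ^ (B + 12) < 1 / Y ^ B / (A * Y ^ 11) := by
    rw [div_div, one_div_lt_one_div (by positivity) (by positivity)]
    calc Y ^ B * (A * Y ^ 11) = A * (Y ^ B * Y ^ 11) := by ring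
      _ < Y * (Y ^ B * Y ^ 11) := mul_lt_mul_of_pos_right (by linarith) (by positivity)
      _ = Y ^ (B + 12) := by rw [pow_add]; ring
  linarith

theorem dif (B : ℕ) : ∃ (A : ℕ) (η Y₀ : ℝ), 0 < η ∧ ∀ Y : ℝ, Y₀ ≤ Y → ∀ K : ℕ,
    ⌈Y ^ A⌉₊ ^ 3 ≤ K → (K : ℝ) ≤ Real.exp ((0.4166 + η) * Y) → ∀ u : ℝ,
    |FF Y u (aY Y) K - FF Y u (aY Y) (⌈Y ^ A⌉₊ ^ 3)| ≤ 1 / Y ^ B := by
  classical
  obtain ⟨A₁, Y₁, hlow⟩ := low (B + 12)
  obtain ⟨η, Y₂, hη, hη10, hhigh⟩ := high (B + 1)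
  obtain ⟨A, hA⟩ : ∃ A : ℕ, A = A₁ + B + 23 := ⟨_, rfl⟩
  have hevA : ∀ᶠ Y : ℝ in atTop, 2 * Y ^ A ≤ Real.exp (1 / 200 * Y) :=
    ev_poly 2 A (by norm_num)
  obtain ⟨Y₃, hY₃⟩ := eventually_atTop.1 hevA
  refine ⟨A, η, max (max Y₁ Y₂) (max (max 200 Y₃) (62 * (21 * 50) ^ 10 + 31 * 21 ^ 10)), hη, ?_⟩
  intro Y hY K hKA hKle u
  have hY1 : Y₁ ≤ Y := ((le_max_left _ _).trans (le_max_left _ _)).trans hY
  have hY2 : Y₂ ≤ Y := ((le_max_right _ _).trans (le_max_left _ _)).trans hY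
  have hY3 : 200 ≤ Y := (((le_max_left _ _).trans (le_max_left _ _)).trans (le_max_right _ _)).trans hY
  have hY4 : Y₃ ≤ Y := (((le_max_right _ _).trans (le_max_left _ _)).trans (le_max_right _ _)).trans hY
  have hY5 : 62 * (21 * 50) ^ 10 + 31 * 21 ^ 10 ≤ Y :=
    ((le_max_right _ _).trans (le_max_right _ _)).trans hY
  have hY0 : 0 < Y := by linarith
  have hYA1 : 1 ≤ Y ^ A := one_le_pow₀ (by linarith)
  set Q : ℕ := ⌈Y ^ A⌉₊ with hQ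
  have hQ1 : Y ^ A ≤ Q := Nat.le_ceil _
  have hQ2 : (Q : ℝ) ≤ 2 * Y ^ A := by
    have := (Nat.ceil_lt_add_one (by positivity : 0 ≤ Y ^ A)).le
    linarith
  have hQpos : 1 ≤ Q := by
    have : (1 : ℝ) ≤ Q := hYA1.trans hQ1
    exact_mod_cast this
  have hQ0 : (0 : ℝ) < Q := by exact_mod_cast hQpos
  set K₁ : ℕ := Q ^ 3 with hK₁
  have hK₁1 : 1 ≤ K₁ := Nat.one_le_pow _ _ hQpos
  have hKpos : 1 ≤ K := hK₁1.trans hKA
  set K₀ : ℕ := ⌈Real.exp (Y / 200)⌉₊ with hK₀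
  have hQK₀ : Q ≤ K₀ := by
    have h1 : (Q : ℝ) ≤ K₀ := by
      refine (hQ2.trans (hY₃ Y hY4)).trans ?_
      rw [show 1 / 200 * Y = Y / 200 by ring]
      exact Nat.le_ceil _
    exact_mod_cast h1
  set m : ℤ → ℝ := mK K₁ K with hm
  have hmb : ∀ k, |m k| ≤ 1 := fun k => mK_bd hK₁1 hKA k
  have hsum := mK_sum Y u (aY Y) hK₁1 hKA
  -- the total number of tuples
  have hcd := card_DY (by linarith : (21 : ℝ) ≤ Y)
  -- part 0
  have hP0 : ‖∑ k ∈ (FK K).filter (fun k => ¬ (Q : ℤ) ≤ |k|), ((mK K₁ K k : ℝ) : ℂ) * AP Y u (aY Y) k‖ ≤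
      62 * (21 * 50) ^ 10 / Y ^ (B + 2) := by
    have h1 : ∀ k ∈ (FK K).filter (fun k => ¬ (Q : ℤ) ≤ |k|),
        ‖((mK K₁ K k : ℝ) : ℂ) * AP Y u (aY Y) k‖ ≤ 1 / (Q : ℝ) ^ 2 * (31 * ((21 * Y) ^ 10 * (50 * Y) ^ 10)) := by
      intro k hk
      have hkQ : |k| < (Q : ℤ) := not_le.1 (Finset.mem_filter.1 hk).2
      have hkQ' : |(k : ℝ)| ≤ Q := by exact_mod_cast hkQ.le
      rw [norm_mul, ap_norm]
      have h2 : ‖((mK K₁ K k : ℝ) : ℂ)‖ ≤ 1 / (Q : ℝ) ^ 2 := by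
        rw [Complex.norm_real, Real.norm_eq_abs]
        have hK₁c : (K₁ : ℝ) = (Q : ℝ) ^ 3 := by rw [hK₁]; push_cast; ring
        have hK₁0 : (0 : ℝ) < K₁ := by rw [hK₁c]; positivity
        have hK₁K : (K₁ : ℝ) ≤ K := by exact_mod_cast hKA
        have hK0 : (0 : ℝ) < K := hK₁0.trans_le hK₁K
        have hQ1' : (1 : ℝ) ≤ Q := hYA1.trans hQ1
        have e1 : |(k : ℝ)| / K₁ ≤ 1 / (Q : ℝ) ^ 2 := by
          rw [hK₁c, div_le_div_iff₀ (by positivity) (by positivity)]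
          calc |(k : ℝ)| * (Q : ℝ) ^ 2 ≤ Q * (Q : ℝ) ^ 2 := by gcongr
            _ = 1 * (Q : ℝ) ^ 3 := by ring
        have e2 : |(k : ℝ)| / K ≤ |(k : ℝ)| / K₁ := by gcongr
        have e3 : 1 / (Q : ℝ) ^ 2 ≤ 1 := by
          rw [div_le_one (by positivity)]
          exact one_le_pow₀ hQ1'
        have e4 : 0 ≤ |(k : ℝ)| / K := by positivity
        unfold mK
        rw [max_eq_right (by linarith), max_eq_right (by linarith), abs_le]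
        constructor <;> linarith
      have h3 : ‖AA (zY Y) Y k‖ ≤ 31 * ((21 * Y) ^ 10 * (50 * Y) ^ 10) := by
        refine (aa_le_sum Y k).trans ?_
        gcongr
        refine (Finset.sum_le_card_nsmul (DY Y) _ ((50 * Y) ^ 10) fun d hd => ee_le (by linarith) hd k).trans ?_
        rw [nsmul_eq_mul]
        gcongr
      exact mul_le_mul h2 h3 (norm_nonneg _) (by positivity)
    have h2 : (((FK K).filter (fun k => ¬ (Q : ℤ) ≤ |k|)).card : ℝ) ≤ 2 * Q := by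
      have h3 : (FK K).filter (fun k => ¬ (Q : ℤ) ≤ |k|) ⊆ FK Q := by
        intro k hk
        have hkQ : |k| < (Q : ℤ) := not_le.1 (Finset.mem_filter.1 hk).2
        unfold FK
        rw [Finset.mem_Ioo]
        exact abs_lt.1 hkQ
      exact le_trans (by exact_mod_cast Finset.card_le_card h3) (card_FK Q)
    refine (norm_sum_le _ _).trans ((Finset.sum_le_card_nsmul _ _ _ h1).trans ?_)
    rw [nsmul_eq_mul]
    calc (((FK K).filter (fun k => ¬ (Q : ℤ) ≤ |k|)).card : ℝ) *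
          (1 / (Q : ℝ) ^ 2 * (31 * ((21 * Y) ^ 10 * (50 * Y) ^ 10)))
        ≤ 2 * Q * (1 / (Q : ℝ) ^ 2 * (31 * ((21 * Y) ^ 10 * (50 * Y) ^ 10))) := by gcongr
      _ = 62 * (21 * 50) ^ 10 * (Y ^ 20 / Q) := by field_simp; ring
      _ ≤ 62 * (21 * 50) ^ 10 * (Y ^ 20 / Y ^ A) := by gcongr
      _ ≤ 62 * (21 * 50) ^ 10 * (Y ^ 20 / Y ^ (20 + (B + 2))) := by
        have : Y ^ (20 + (B + 2)) ≤ Y ^ A := pow_le_pow_right₀ (by linarith) (by omega)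
        gcongr
      _ = 62 * (21 * 50) ^ 10 / Y ^ (B + 2) := by
        rw [pow_add]
        field_simp
  -- part 1
  have hP1 : ‖∑ k ∈ ((FK K).filter (fun k => (Q : ℤ) ≤ |k|)).filter (fun k => ¬ (K₀ : ℤ) ≤ |k|),
      ((mK K₁ K k : ℝ) : ℂ) * AP Y u (aY Y) k‖ ≤ 31 * 21 ^ 10 / Y ^ (B + 2) := by
    set L := ((FK K).filter (fun k => (Q : ℤ) ≤ |k|)).filter (fun k => ¬ (K₀ : ℤ) ≤ |k|) with hL
    have hLr : ∀ k ∈ L, Y ^ A₁ ≤ |(k : ℝ)| ∧ |(k : ℝ)| ≤ Real.exp (Y / 100) := by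
      intro k hk
      have h1 := (Finset.mem_filter.1 (Finset.mem_filter.1 hk).1).2
      have h2 : |k| < (K₀ : ℤ) := not_le.1 (Finset.mem_filter.1 hk).2
      constructor
      · have h3 : (Q : ℝ) ≤ |(k : ℝ)| := by exact_mod_cast h1
        refine le_trans ?_ (hQ1.trans h3)
        exact pow_le_pow_right₀ (by linarith) (by omega)
      · have h3 : |(k : ℝ)| + 1 ≤ K₀ := by
          have : |k| + 1 ≤ (K₀ : ℤ) := by omega
          exact_mod_cast this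
        have h4 : (K₀ : ℝ) ≤ Real.exp (Y / 200) + 1 := (Nat.ceil_lt_add_one (Real.exp_pos _).le).le
        have h5 : Real.exp (Y / 200) ≤ Real.exp (Y / 100) := Real.exp_le_exp.2 (by linarith)
        linarith
    have h1 : ‖∑ k ∈ L, ((mK K₁ K k : ℝ) : ℂ) * AP Y u (aY Y) k‖ ≤
        ∑ k ∈ L, 31 * ∑ d ∈ DY Y, ‖EE (zY Y) d k‖ := by
      refine (norm_sum_le _ _).trans (Finset.sum_le_sum fun k _ => ?_)
      rw [norm_mul, ap_norm, Complex.norm_real, Real.norm_eq_abs]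
      have h2 := hmb k
      have h3 := aa_le_sum Y k
      calc |mK K₁ K k| * ‖AA (zY Y) Y k‖ ≤ 1 * (31 * ∑ d ∈ DY Y, ‖EE (zY Y) d k‖) :=
            mul_le_mul h2 h3 (norm_nonneg _) (by norm_num)
        _ = _ := one_mul _
    refine h1.trans ?_
    rw [← Finset.mul_sum, Finset.sum_comm]
    have h2 : ∑ d ∈ DY Y, ∑ k ∈ L, ‖EE (zY Y) d k‖ ≤ (21 * Y) ^ 10 * (1 / Y ^ (B + 12)) := by
      refine (Finset.sum_le_card_nsmul (DY Y) _ (1 / Y ^ (B + 12)) fun d hd => hlow Y hY1 d hd L hLr).trans ?_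
      rw [nsmul_eq_mul]
      gcongr
    calc 31 * ∑ d ∈ DY Y, ∑ k ∈ L, ‖EE (zY Y) d k‖ ≤ 31 * ((21 * Y) ^ 10 * (1 / Y ^ (B + 12))) := by gcongr
      _ = 31 * 21 ^ 10 / Y ^ (B + 2) := by
        rw [show B + 12 = 10 + (B + 2) by ring, pow_add, mul_pow]
        field_simp
  -- part 2
  have hP2 : ‖∑ k ∈ ((FK K).filter (fun k => (Q : ℤ) ≤ |k|)).filter (fun k => (K₀ : ℤ) ≤ |k|),
      ((mK K₁ K k : ℝ) : ℂ) * AP Y u (aY Y) k‖ ≤ 1 / Y ^ (B + 1) := by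
    have h1 := hhigh Y hY2 K hKpos hKle m hmb u
    have h2 : ((FK K).filter (fun k => (Q : ℤ) ≤ |k|)).filter (fun k => (K₀ : ℤ) ≤ |k|) =
        (FK K).filter (fun k => (K₀ : ℤ) ≤ |k|) := by
      ext k
      simp only [Finset.mem_filter]
      constructor
      · rintro ⟨⟨h3, _⟩, h4⟩
        exact ⟨h3, h4⟩
      · rintro ⟨h3, h4⟩
        exact ⟨⟨h3, le_trans (by exact_mod_cast hQK₀) h4⟩, h4⟩
    rw [h2]
    refine le_trans (le_of_eq ?_) h1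
    congr 1
    refine Finset.sum_congr rfl fun k _ => ?_
    rw [ap_eq]
    ring
  have hnorm : |FF Y u (aY Y) K - FF Y u (aY Y) K₁| =
      ‖∑ k ∈ FK K, ((mK K₁ K k : ℝ) : ℂ) * AP Y u (aY Y) k‖ := by
    rw [hsum, Complex.norm_real, Real.norm_eq_abs]
  rw [hnorm, ← Finset.sum_filter_add_sum_filter_not (FK K) (fun k => (Q : ℤ) ≤ |k|),
    ← Finset.sum_filter_add_sum_filter_not ((FK K).filter (fun k => (Q : ℤ) ≤ |k|)) (fun k => (K₀ : ℤ) ≤ |k|)]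
  have htri := (norm_add_le (∑ k ∈ ((FK K).filter (fun k => (Q : ℤ) ≤ |k|)).filter (fun k => (K₀ : ℤ) ≤ |k|),
      ((mK K₁ K k : ℝ) : ℂ) * AP Y u (aY Y) k + ∑ k ∈ ((FK K).filter (fun k => (Q : ℤ) ≤ |k|)).filter
      (fun k => ¬ (K₀ : ℤ) ≤ |k|), ((mK K₁ K k : ℝ) : ℂ) * AP Y u (aY Y) k)
    (∑ k ∈ (FK K).filter (fun k => ¬ (Q : ℤ) ≤ |k|), ((mK K₁ K k : ℝ) : ℂ) * AP Y u (aY Y) k))
  have htri2 := (norm_add_le (∑ k ∈ ((FK K).filter (fun k => (Q : ℤ) ≤ |k|)).filter (fun k => (K₀ : ℤ) ≤ |k|),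
      ((mK K₁ K k : ℝ) : ℂ) * AP Y u (aY Y) k) (∑ k ∈ ((FK K).filter (fun k => (Q : ℤ) ≤ |k|)).filter
      (fun k => ¬ (K₀ : ℤ) ≤ |k|), ((mK K₁ K k : ℝ) : ℂ) * AP Y u (aY Y) k))
  have hfin : 1 / Y ^ (B + 1) + 31 * 21 ^ 10 / Y ^ (B + 2) + 62 * (21 * 50) ^ 10 / Y ^ (B + 2) ≤ 1 / Y ^ B := by
    have e1 : 31 * 21 ^ 10 / Y ^ (B + 2) + 62 * (21 * 50) ^ 10 / Y ^ (B + 2) ≤ 1 / Y ^ (B + 1) := by
      rw [← add_div, div_le_div_iff₀ (by positivity) (by positivity)]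
      calc (31 * 21 ^ 10 + 62 * (21 * 50) ^ 10) * Y ^ (B + 1) ≤ Y * Y ^ (B + 1) := by
            gcongr
            linarith
        _ = 1 * Y ^ (B + 2) := by ring
    have e2 : 2 * (1 / Y ^ (B + 1)) ≤ 1 / Y ^ B := by
      rw [mul_one_div, div_le_div_iff₀ (by positivity) (by positivity)]
      calc 2 * Y ^ B ≤ Y * Y ^ B := by gcongr; linarith
        _ = 1 * Y ^ (B + 1) := by ring
    linarith
  linarith

end Pool.Agent.H39x.LP
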