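import Pool.Agent.H39x.LP.RCount
import Pool.Agent.TH888.R.Sys

/-!
# Project LP: the family `A q + ⌊θ b ^ e(q)⌋`, one point averages
-/

set_option autoImplicit false

namespace Pool.Agent.H39x.LP

open Finset Filter Topology MeasureTheory
open Pool.Agent.H305R2 (roughPart log_nat_tendsto)

/-- the indicator of `A q + k` having prime `q`-rough part -/
noncomputable def ph (A : ℕ → ℕ) (q k : ℕ) : ℝ := if (roughPart q (A q + k)).Prime then 1 else 0

/-- the number of random digits -/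
noncomputable def ex (κ : ℝ) (q : ℕ) : ℕ := ⌊κ * q⌋₊

theorem ph_nonneg (A : ℕ → ℕ) (q k : ℕ) : 0 ≤ ph A q k := by unfold ph; split_ifs <;> norm_num

theorem ph_le_one (A : ℕ → ℕ) (q k : ℕ) : ph A q k ≤ 1 := by unfold ph; split_ifs <;> norm_num

theorem sum_ph (A : ℕ → ℕ) (q u H : ℕ) (h : 1 ≤ A q) :
    ∑ i ∈ range H, ph A q (u + i) = rc q (A q + u - 1) (A q + u - 1 + H) := by
  classical
  unfold rc
  have h1 : Ioc (A q + u - 1) (A q + u - 1 + H) = Ico (A q + u) (A q + u + H) := by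
    ext m
    simp only [mem_Ioc, mem_Ico]
    omega
  rw [h1]
  have h2 : (((Ico (A q + u) (A q + u + H)).filter (fun m => (roughPart q m).Prime)).card : ℝ) =
      ∑ m ∈ Ico (A q + u) (A q + u + H), if (roughPart q m).Prime then (1 : ℝ) else 0 := by
    rw [Finset.sum_ite, Finset.sum_const_zero, add_zero, Finset.sum_const, nsmul_eq_mul, mul_one]
  rw [h2, Finset.sum_Ico_eq_sum_range]
  have h3 : A q + u + H - (A q + u) = H := by omega
  rw [h3]
  refine Finset.sum_congr rfl fun i _ => ?_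
  unfold ph
  rw [← add_assoc]

theorem double_sum (f : ℕ → ℝ) (m n : ℕ) :
    ∑ k ∈ range (m * n), f k = ∑ k ∈ range m, ∑ i ∈ range n, f (n * k + i) := by
  induction m with
  | zero => simp
  | succ m ih =>
    rw [add_mul, one_mul, Finset.sum_range_add, ih, Finset.sum_range_succ, mul_comm m n]

/-- the integral of a function of the floor -/
theorem int_floor (F : ℕ → ℝ) {B : ℕ} (hB : 0 < B) :
    ∫ t in Set.Ico (0 : ℝ) 1, F ⌊t * B⌋₊ = (∑ k ∈ range B, F k) / B := by
  have hB0 : (0 : ℝ) < B := by exact_mod_cast hB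
  have h1 : ∀ t ∈ Set.Ico (0 : ℝ) 1, F ⌊t * B⌋₊ =
      ∑ k ∈ range B, (Set.Ico ((k : ℝ) / B) (((k : ℝ) + 1) / B)).indicator (fun _ => F k) t := by
    intro t ht
    have h2 : ⌊t * B⌋₊ ∈ range B := by
      rw [mem_range, Nat.floor_lt (by have := ht.1; positivity)]
      have := ht.2
      nlinarith
    rw [Finset.sum_eq_single_of_mem _ h2]
    · rw [Set.indicator_of_mem]
      rw [Set.mem_Ico, div_le_iff₀ hB0, lt_div_iff₀ hB0]
      exact ⟨Nat.floor_le (by have := ht.1; positivity), Nat.lt_floor_add_one _⟩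
    · intro k _ hk
      rw [Set.indicator_of_notMem]
      intro h3
      rw [Set.mem_Ico, div_le_iff₀ hB0, lt_div_iff₀ hB0] at h3
      exact hk ((Nat.floor_eq_iff (by have := ht.1; positivity)).2 h3).symm
  rw [setIntegral_congr_fun measurableSet_Ico h1, integral_finsetSum]
  · rw [Finset.sum_div]
    refine Finset.sum_congr rfl fun k hk => ?_
    rw [mem_range] at hk
    have hk1 : (k : ℝ) + 1 ≤ B := by exact_mod_cast hk
    rw [integral_indicator measurableSet_Ico, Measure.restrict_restrict measurableSet_Ico,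
      Set.inter_eq_left.2 (Set.Ico_subset_Ico (by positivity) (by rw [div_le_one hB0]; exact hk1)),
      setIntegral_const, Real.volume_real_Ico_of_le (by gcongr; linarith), smul_eq_mul]
    field_simp
    ring
  · intro k _
    exact (integrable_const _).indicator measurableSet_Ico

/-- the hypotheses on the family: `A q` has the size `e ^ (a q)`, and `κ q` digits in base `b` vary -/
structure Fam (b : ℕ) (κ a c₁ : ℝ) (A : ℕ → ℕ) : Prop where
  hb : 2 ≤ b
  ha : 0 < a
  hκ : 0.5834 * a < κ * Real.log b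
  hκ1 : κ * Real.log b < a
  hA : ∀ᶠ q : ℕ in atTop, |Real.log (A q) - a * q| ≤ c₁

variable {b : ℕ} {κ a c₁ : ℝ} {A : ℕ → ℕ}

theorem Fam.l0 (h : Fam b κ a c₁ A) : 0 < Real.log b := Real.log_pos (by exact_mod_cast h.hb)

theorem Fam.κ0 (h : Fam b κ a c₁ A) : 0 < κ := by
  have h1 := h.l0
  have h2 := h.hκ
  have h3 := h.ha
  by_contra h4
  have : κ * Real.log b ≤ 0 := mul_nonpos_of_nonpos_of_nonneg (not_lt.1 h4) h1.le
  linarith

theorem Fam.size (h : Fam b κ a c₁ A) :
    ∀ᶠ q : ℕ in atTop, 4 * (q : ℝ) ^ 2 * Real.exp (κ * (Real.log b * q)) ≤ A q := by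
  have ha := h.ha
  set ε := a - κ * Real.log b with hε
  have hε0 : 0 < ε := by linarith [h.hκ1]
  have e1 : ∀ᶠ q : ℕ in atTop, 4 * (q : ℝ) ^ 2 ≤ Real.exp (ε / 2 * q) :=
    tendsto_natCast_atTop_atTop.eventually (Pool.Agent.Q278.KS.ev_poly 4 2 (half_pos hε0))
  filter_upwards [h.hA, e1, tendsto_natCast_atTop_atTop.eventually_ge_atTop (2 * (|c₁| + 1) / ε),
    eventually_ge_atTop 1] with q hq h1 h2 h3
  have hq0 : (0 : ℝ) < q := by exact_mod_cast h3
  rw [div_le_iff₀ hε0] at h2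
  obtain ⟨A1, A2⟩ := abs_le.1 hq
  have hc := le_abs_self c₁
  have hA0 : (0 : ℝ) < A q := by
    rcases Nat.eq_zero_or_pos (A q) with h0 | h0
    · exfalso
      rw [h0, Nat.cast_zero, Real.log_zero] at A1
      have h4 : ε * q ≤ a * q := by
        refine mul_le_mul_of_nonneg_right ?_ hq0.le
        have := mul_pos h.κ0 h.l0
        linarith
      have := abs_nonneg c₁
      linarith
    · exact_mod_cast h0
  calc 4 * (q : ℝ) ^ 2 * Real.exp (κ * (Real.log b * q)) ≤
        Real.exp (ε / 2 * q) * Real.exp (κ * (Real.log b * q)) := by gcongr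
    _ = Real.exp (ε / 2 * q + κ * (Real.log b * q)) := by rw [← Real.exp_add]
    _ ≤ Real.exp (Real.log (A q)) := by
        rw [Real.exp_le_exp]
        have h4 : ε * q = a * q - κ * (Real.log b * q) := by rw [hε]; ring
        linarith
    _ = A q := Real.exp_log hA0

/-- the average over a block -/
theorem Fam.blk (h : Fam b κ a c₁ A) {κ₁ : ℝ} (hκ₁ : 0.5834 < κ₁) (hκ₁' : κ₁ ≤ 1) :
    ∃ K : ℝ, 0 < K ∧ ∀ᶠ q : ℕ in atTop, ∀ u H : ℕ, Real.exp (κ₁ * (a * q)) ≤ H →
      (u : ℝ) + H ≤ Real.exp (κ * (Real.log b * q)) →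
      |∑ i ∈ range H, ph A q (u + i) -
        H * (Real.exp Real.eulerMascheroniConstant / a * (Real.log q / q))| ≤ K * (H / q) := by
  obtain ⟨K, hK, hev⟩ := rough_count (c₁ + 1) h.ha hκ₁ hκ₁'
  refine ⟨K, hK, ?_⟩
  filter_upwards [hev, h.size, h.hA, eventually_ge_atTop 1] with q h1 h2 h3 h4 u H h5 h6
  have hq1 : (1 : ℝ) ≤ q := by exact_mod_cast h4
  have hE : 1 ≤ Real.exp (κ * (Real.log b * q)) := by
    have := h.l0
    have := h.κ0
    exact Real.one_le_exp (by positivity)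
  have hq2 : (1 : ℝ) ≤ (q : ℝ) ^ 2 := one_le_pow₀ hq1
  have hA4 : (4 : ℝ) ≤ A q := by
    refine le_trans ?_ h2
    nlinarith
  have hA4' : 4 ≤ A q := by exact_mod_cast hA4
  have hA0 : (0 : ℝ) < A q := by linarith
  have hEA : Real.exp (κ * (Real.log b * q)) ≤ A q / (4 * (q : ℝ) ^ 2) := by
    rw [le_div_iff₀ (by positivity)]
    linarith
  have hu0 : (0 : ℝ) ≤ u := Nat.cast_nonneg u
  have hH0 : (0 : ℝ) ≤ H := Nat.cast_nonneg H
  have hEA2 : (A q : ℝ) / (4 * (q : ℝ) ^ 2) ≤ A q / 4 := by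
    gcongr
    linarith
  set M := A q + u - 1 with hM
  have hMr : (M : ℝ) = A q + u - 1 := by
    have : M + 1 = A q + u := by omega
    have : (M : ℝ) + 1 = A q + u := by exact_mod_cast this
    linarith
  have hM1 : (A q : ℝ) / 2 ≤ M := by rw [hMr]; linarith
  have hM2 : (M : ℝ) ≤ 2 * A q := by rw [hMr]; linarith
  have hM0 : (0 : ℝ) < M := by linarith
  rw [sum_ph A q u H (by omega)]
  have hlog2 : Real.log 2 ≤ 1 := by
    have := Real.log_two_lt_d9
    linarith
  have h7 := h1 M (M + H) (by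
    obtain ⟨A1, A2⟩ := abs_le.1 h3
    have e1 := Real.log_le_log (by positivity) hM1
    have e2 := Real.log_le_log hM0 hM2
    rw [Real.log_div hA0.ne' (by norm_num)] at e1
    rw [Real.log_mul (by norm_num) hA0.ne'] at e2
    rw [abs_le]
    constructor <;> linarith) (by
    push_cast
    linarith) (by
    push_cast
    have e1 : (A q : ℝ) / (4 * (q : ℝ) ^ 2) ≤ M / (q : ℝ) ^ 2 := by
      rw [div_le_div_iff₀ (by positivity) (by positivity)]
      nlinarith
    linarith)
  push_cast at h7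
  rw [add_sub_cancel_left] at h7
  exact h7

end Pool.Agent.H39x.LP
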