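import Pool.Agent.H39x.LP.Pair

/-!
# Project LP: the family is a system of nearly independent events
-/

set_option autoImplicit false

namespace Pool.Agent.H39x.LP

open Finset Filter Topology MeasureTheory
open Pool.Agent.H305R2 (roughPart log_nat_tendsto)
open Pool.Agent.TH888.R (Sys wt wt_nonneg wt_le_one)

variable {b : ℕ} {κ a c₁ : ℝ} {A : ℕ → ℕ}

/-- the `q`-th event -/
noncomputable def fq (b : ℕ) (κ : ℝ) (A : ℕ → ℕ) (q : ℕ) (t : ℝ) : ℝ :=
  ph A q ⌊t * ((b ^ ex κ q : ℕ) : ℝ)⌋₊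

/-- the mean of the `q`-th event -/
noncomputable def mq (a : ℝ) (q : ℕ) : ℝ := min 1 (cw a q)

theorem measurable_fq (b : ℕ) (κ : ℝ) (A : ℕ → ℕ) (q : ℕ) : Measurable (fq b κ A q) := by
  unfold fq
  exact (measurable_from_nat (f := ph A q)).comp (Nat.measurable_floor.comp (measurable_id.mul_const _))

theorem fq_nonneg (b : ℕ) (κ : ℝ) (A : ℕ → ℕ) (q : ℕ) (t : ℝ) : 0 ≤ fq b κ A q t := ph_nonneg _ _ _

theorem fq_le_one (b : ℕ) (κ : ℝ) (A : ℕ → ℕ) (q : ℕ) (t : ℝ) : fq b κ A q t ≤ 1 := ph_le_one _ _ _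

theorem mq_nonneg {a : ℝ} (ha : 0 < a) (q : ℕ) : 0 ≤ mq a q := le_min (by norm_num) (cw_nonneg ha q)

theorem integrable_bdd {f : ℝ → ℝ} (hf : Measurable f) {M : ℝ} (h : ∀ t, |f t| ≤ M) :
    Integrable f (volume.restrict (Set.Ico (0 : ℝ) 1)) :=
  Measure.integrableOn_of_bounded (M := M) (by simp) hf.aestronglyMeasurable
    (Eventually.of_forall fun t => h t)

/-- two point integrals -/
theorem int_pair (hb : 0 < b) {κ : ℝ} (hκ : 0 < κ) (F G : ℕ → ℝ) {p q : ℕ} (hpq : p ≤ q) :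
    ∫ t in Set.Ico (0 : ℝ) 1, F ⌊t * ((b ^ ex κ p : ℕ) : ℝ)⌋₊ * G ⌊t * ((b ^ ex κ q : ℕ) : ℝ)⌋₊ =
      (∑ k ∈ range (b ^ ex κ p), F k * ∑ i ∈ range (b ^ (ex κ q - ex κ p)),
        G (b ^ (ex κ q - ex κ p) * k + i)) / ((b ^ ex κ q : ℕ) : ℝ) := by
  set m := b ^ ex κ p with hm
  set n := b ^ (ex κ q - ex κ p) with hn
  have hmn : b ^ ex κ q = m * n := by
    rw [hm, hn, ← pow_add]
    congr 1
    have := ex_mono hκ hpq
    omega
  have hn0' : 0 < n := by rw [hn]; positivity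
  have hn0 : (0 : ℝ) < n := by exact_mod_cast hn0'
  have e1 : ∀ t : ℝ, F ⌊t * (m : ℝ)⌋₊ * G ⌊t * ((b ^ ex κ q : ℕ) : ℝ)⌋₊ =
      (fun k => F (k / n) * G k) ⌊t * ((b ^ ex κ q : ℕ) : ℝ)⌋₊ := by
    intro t
    have e2 : ⌊t * (m : ℝ)⌋₊ = ⌊t * ((b ^ ex κ q : ℕ) : ℝ)⌋₊ / n := by
      rw [← Nat.floor_div_natCast]
      congr 1
      rw [hmn]
      push_cast
      field_simp
    show F ⌊t * (m : ℝ)⌋₊ * G ⌊t * ((b ^ ex κ q : ℕ) : ℝ)⌋₊ = F (⌊t * ((b ^ ex κ q : ℕ) : ℝ)⌋₊ / n) * _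
    rw [e2]
  calc ∫ t in Set.Ico (0 : ℝ) 1, F ⌊t * (m : ℝ)⌋₊ * G ⌊t * ((b ^ ex κ q : ℕ) : ℝ)⌋₊ =
        ∫ t in Set.Ico (0 : ℝ) 1, (fun k => F (k / n) * G k) ⌊t * ((b ^ ex κ q : ℕ) : ℝ)⌋₊ :=
        setIntegral_congr_fun measurableSet_Ico fun t _ => e1 t
    _ = (∑ k ∈ range (b ^ ex κ q), (fun k => F (k / n) * G k) k) / ((b ^ ex κ q : ℕ) : ℝ) :=
        int_floor (fun k => F (k / n) * G k) (by positivity)
    _ = _ := by
        congr 1
        rw [hmn, double_sum]
        refine Finset.sum_congr rfl fun k _ => ?_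
        rw [Finset.mul_sum]
        refine Finset.sum_congr rfl fun i hi => ?_
        rw [mem_range] at hi
        show F ((n * k + i) / n) * G (n * k + i) = _
        rw [Nat.mul_add_div hn0', Nat.div_eq_of_lt hi, add_zero]

/-- the mean -/
theorem Fam.int_one (h : Fam b κ a c₁ A) : ∃ K : ℝ, 0 < K ∧ ∀ᶠ q : ℕ in atTop,
    ∫ t in Set.Ico (0 : ℝ) 1, fq b κ A q t ≤ K * wt q ∧ cw a q ≤ K * wt q ∧ mq a q = cw a q ∧
      (∑ k ∈ range (b ^ ex κ q), ph A q k) / ((b ^ ex κ q : ℕ) : ℝ) ≤ K * wt q := by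
  obtain ⟨K1, hK1, hone⟩ := h.one_pt
  have ha := h.ha
  have hc0 : 0 < Real.exp Real.eulerMascheroniConstant / a := by positivity
  refine ⟨Real.exp Real.eulerMascheroniConstant / a + K1, by positivity, ?_⟩
  have hb0 : 0 < b := by have := h.hb; omega
  have e1 : ∀ᶠ q : ℕ in atTop, cw a q ≤ 1 := by
    have h4 : Tendsto (fun q : ℕ => Real.log q / q) atTop (𝓝 0) := by
      have h5 : Tendsto (fun x : ℝ => Real.log x / x) atTop (𝓝 0) := by
        have := Real.tendsto_pow_log_div_mul_add_atTop 1 0 1 one_ne_zero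
        simpa using this
      exact h5.comp tendsto_natCast_atTop_atTop
    have h6 := h4.const_mul (Real.exp Real.eulerMascheroniConstant / a)
    rw [mul_zero] at h6
    exact (h6.eventually_lt_const (show (0 : ℝ) < 1 by norm_num)).mono fun q hq => hq.le
  filter_upwards [hone, e1, log_nat_tendsto.eventually_ge_atTop 1, eventually_ge_atTop 1] with q h1 h2 h3 h4
  have hq0 : (0 : ℝ) < q := by exact_mod_cast h4
  have h5 : 1 / (q : ℝ) ≤ wt q := by
    unfold wt
    gcongr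
  have h6 := (abs_le.1 h1).2
  have h7 : cw a q = Real.exp Real.eulerMascheroniConstant / a * wt q := rfl
  have hw := wt_nonneg q
  have h8 : K1 / q ≤ K1 * wt q := by
    rw [div_eq_mul_one_div]
    gcongr
  have h9 : (∑ k ∈ range (b ^ ex κ q), ph A q k) / ((b ^ ex κ q : ℕ) : ℝ) ≤
      (Real.exp Real.eulerMascheroniConstant / a + K1) * wt q := by
    rw [add_mul, ← h7]
    linarith
  refine ⟨?_, ?_, min_eq_right h2, h9⟩
  · unfold fq
    rw [int_floor _ (by positivity)]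
    exact h9
  · rw [add_mul, ← h7]
    have : 0 ≤ K1 * wt q := by positivity
    linarith

/-- geometric sum over the differences -/
theorem geo (hb : 2 ≤ b) {κ : ℝ} (hκ : 0 < κ) : ∃ K : ℝ, 0 < K ∧ ∀ (q : ℕ) (T : Finset ℕ), (∀ p ∈ T, p < q) →
    ∑ p ∈ T, ((b : ℝ) ^ (ex κ q - ex κ p))⁻¹ ≤ K := by
  have ha : 0 < Real.log b := Real.log_pos (by exact_mod_cast hb)
  set r := Real.exp (-(κ * Real.log b)) with hr
  have hr0 : 0 < r := Real.exp_pos _
  have hr1 : r < 1 := by
    rw [hr, Real.exp_lt_one_iff]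
    have : 0 < κ * Real.log b := by positivity
    linarith
  have hb0 : (0 : ℝ) < b := by positivity
  refine ⟨b * (1 - r)⁻¹, by have : 0 < 1 - r := by linarith
                            positivity, fun q T hT => ?_⟩
  calc ∑ p ∈ T, ((b : ℝ) ^ (ex κ q - ex κ p))⁻¹ ≤ ∑ p ∈ range q, b * r ^ (q - 1 - p) := by
        refine le_trans (Finset.sum_le_sum_of_subset_of_nonneg (t := range q)
          (fun p hp => mem_range.2 (hT p hp)) fun _ _ _ => by positivity) ?_
        refine Finset.sum_le_sum fun p hp => ?_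
        rw [mem_range] at hp
        have h1 := (ex_bounds hκ q).1
        have h2 := (ex_bounds hκ p).2
        have h3 : ((ex κ q - ex κ p : ℕ) : ℝ) = ex κ q - ex κ p := Nat.cast_sub (ex_mono hκ hp.le)
        have h4 : ((q - 1 - p : ℕ) : ℝ) = q - 1 - p := by
          rw [Nat.cast_sub (by omega), Nat.cast_sub (by omega)]
          simp
        have h5 : (b : ℝ) = Real.exp (Real.log b) := (Real.exp_log hb0).symm
        have h6 : ((b : ℝ) ^ (ex κ q - ex κ p))⁻¹ = Real.exp (-(Real.log b * ((ex κ q : ℝ) - ex κ p))) := by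
          rw [Real.exp_neg, ← h3, mul_comm (Real.log b), Real.exp_nat_mul, Real.exp_log hb0]
        have h7 : (b : ℝ) * r ^ (q - 1 - p) = Real.exp (Real.log b - κ * Real.log b * ((q : ℝ) - 1 - p)) := by
          rw [hr, ← Real.exp_nat_mul, h4]
          nth_rewrite 1 [h5]
          rw [← Real.exp_add]
          congr 1
          ring
        rw [h6, h7, Real.exp_le_exp]
        have h8 : κ * (q : ℝ) - κ * p - 1 ≤ (ex κ q : ℝ) - ex κ p := by linarith
        have h9 := mul_le_mul_of_nonneg_left h8 ha.le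
        have h10 : 0 < κ * Real.log b := by positivity
        have e1 : Real.log b * (κ * (q : ℝ) - κ * p - 1) =
            κ * Real.log b * ((q : ℝ) - 1 - p) + κ * Real.log b - Real.log b := by ring
        rw [e1] at h9
        linarith
    _ = b * ∑ p ∈ range q, r ^ (q - 1 - p) := by rw [Finset.mul_sum]
    _ = b * ∑ p ∈ range q, r ^ p := by rw [Finset.sum_range_reflect (fun p => r ^ p) q]
    _ ≤ b * (1 - r)⁻¹ := by
        refine mul_le_mul_of_nonneg_left ?_ hb0.le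
        have h1 := summable_geometric_of_lt_one hr0.le hr1
        rw [← tsum_geometric_of_lt_one hr0.le hr1]
        exact h1.sum_le_tsum _ fun _ _ => by positivity

theorem Fam.sys (h : Fam b κ a c₁ A) : Sys (volume.restrict (Set.Ico (0 : ℝ) 1)) (fun q t => fq b κ A q t)
    (fun q _ => mq a q) (fun _ => Real.exp Real.eulerMascheroniConstant / a) := by
  classical
  have ha := h.ha
  have hκ0 := h.κ0
  have hb0 : 0 < b := by have := h.hb; omega
  obtain ⟨K1, hK1, hev1⟩ := h.int_one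
  obtain ⟨K2, η, hK2, hη, hη1, hev2⟩ := h.far
  obtain ⟨D, hD⟩ : ∃ D : ℕ, 1 / η ≤ D := ⟨⌈1 / η⌉₊, Nat.le_ceil _⟩
  obtain ⟨K3, hK3, hev3⟩ := h.near D
  obtain ⟨K4, hK4, hgeo⟩ := geo h.hb hκ0
  obtain ⟨C5, hC5⟩ := Pool.Agent.Helper601.Mertens.mertens_log
  obtain ⟨P1, h1⟩ := eventually_atTop.1 hev1
  obtain ⟨P2, h2⟩ := eventually_atTop.1 hev2
  obtain ⟨P3, h3⟩ := eventually_atTop.1 hev3
  obtain ⟨P4, h4⟩ := eventually_atTop.1 (log_nat_tendsto.eventually_ge_atTop 1)
  refine ⟨fun q => measurable_fq b κ A q, fun q => measurable_const, fun q t => ?_, fun q _ => mq_nonneg ha q,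
    fun q _ => min_le_left _ _, ⟨0, le_rfl, P1, Eventually.of_forall fun t q hq _ => ?_⟩,
    ⟨Real.exp Real.eulerMascheroniConstant / a, Real.exp Real.eulerMascheroniConstant / a,
      by positivity, Eventually.of_forall fun t => ⟨le_rfl, le_rfl⟩⟩, ?_,
    ⟨K1, hK1.le, P1, fun q hq _ => (h1 q hq).1⟩⟩
  · unfold fq ph
    split_ifs
    · exact Or.inr rfl
    · exact Or.inl rfl
  · rw [(h1 q hq).2.2.1]
    have : cw a q = Real.exp Real.eulerMascheroniConstant / a * wt q := rfl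
    rw [this]
    simp
  set P := max (max P1 P2) (max P3 (max P4 3)) with hP
  have hPall : ∀ q, P ≤ q → P1 ≤ q ∧ P2 ≤ q ∧ P3 ≤ q ∧ P4 ≤ q ∧ 3 ≤ q := by
    intro q hq
    simp only [hP, max_le_iff] at hq
    exact ⟨hq.1.1, hq.1.2, hq.2.1, hq.2.2.1, hq.2.2.2⟩
  have hmK : ∀ q, P ≤ q → mq a q ≤ K1 * wt q := by
    intro q hq
    obtain ⟨_, g2, g3, _⟩ := h1 q (hPall q hq).1
    rw [g3]; exact g2
  have hfi : ∀ q, Integrable (fun t => fq b κ A q t) (volume.restrict (Set.Ico (0 : ℝ) 1)) := fun q =>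
    integrable_bdd (measurable_fq b κ A q) (M := 1) fun t => by
      rw [abs_of_nonneg (fq_nonneg _ _ _ _ _)]; exact fq_le_one _ _ _ _ _
  have hone1 : ∫ _ in Set.Ico (0 : ℝ) 1, (1 : ℝ) = 1 := by simp
  -- the distant pairs
  have hfar : ∀ q, P ≤ q → ∀ p, P ≤ p → (p : ℝ) ≤ η * q →
      |∫ t in Set.Ico (0 : ℝ) 1, (fq b κ A p t - mq a p) * (fq b κ A q t - mq a q)| ≤
        2 * K2 * K1 / q * wt p := by
    intro q hq p hp hpq
    have hq0 : (0 : ℝ) < q := by exact_mod_cast (by have := (hPall q hq).2.2.2.2; omega : 0 < q)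
    have hpq' : p ≤ q := by
      have : (p : ℝ) ≤ q := by nlinarith
      exact_mod_cast this
    have e1 : ∫ t in Set.Ico (0 : ℝ) 1, (fq b κ A p t - mq a p) * (fq b κ A q t - mq a q) =
        (∑ k ∈ range (b ^ ex κ p), (ph A p k - mq a p) * ∑ i ∈ range (b ^ (ex κ q - ex κ p)),
        (ph A q (b ^ (ex κ q - ex κ p) * k + i) - cw a q)) / ((b ^ ex κ q : ℕ) : ℝ) := by
      rw [← (h1 q (hPall q hq).1).2.2.1]
      exact int_pair hb0 hκ0 (fun k => ph A p k - mq a p) (fun k => ph A q k - mq a q) hpq'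
    rw [e1]
    refine (h2 q (hPall q hq).2.1 p hpq (mq a p)).trans ?_
    have hm0 : (0 : ℝ) < ((b ^ ex κ p : ℕ) : ℝ) := by
      have : 0 < b ^ ex κ p := by positivity
      exact_mod_cast this
    have e2 : (∑ k ∈ range (b ^ ex κ p), |ph A p k - mq a p|) / ((b ^ ex κ p : ℕ) : ℝ) ≤ 2 * K1 * wt p := by
      have e3 : ∑ k ∈ range (b ^ ex κ p), |ph A p k - mq a p| ≤
          ∑ k ∈ range (b ^ ex κ p), ph A p k + ((b ^ ex κ p : ℕ) : ℝ) * mq a p := by
        have : ∑ k ∈ range (b ^ ex κ p), |ph A p k - mq a p| ≤ ∑ k ∈ range (b ^ ex κ p), (ph A p k + mq a p) := by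
          refine Finset.sum_le_sum fun k _ => ?_
          have g1 := ph_nonneg A p k
          have g2 := mq_nonneg ha p
          rw [abs_le]; constructor <;> linarith
        refine this.trans (le_of_eq ?_)
        rw [Finset.sum_add_distrib, Finset.sum_const, card_range, nsmul_eq_mul]
      have e4 := (h1 p (hPall p hp).1).2.2.2
      have e5 := hmK p hp
      calc (∑ k ∈ range (b ^ ex κ p), |ph A p k - mq a p|) / ((b ^ ex κ p : ℕ) : ℝ) ≤
            (∑ k ∈ range (b ^ ex κ p), ph A p k + ((b ^ ex κ p : ℕ) : ℝ) * mq a p) / ((b ^ ex κ p : ℕ) : ℝ) := by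
            gcongr
        _ = (∑ k ∈ range (b ^ ex κ p), ph A p k) / ((b ^ ex κ p : ℕ) : ℝ) + mq a p := by
            field_simp
        _ ≤ 2 * K1 * wt p := by linarith
    calc K2 / q * ((∑ k ∈ range (b ^ ex κ p), |ph A p k - mq a p|) / ((b ^ ex κ p : ℕ) : ℝ)) ≤
          K2 / q * (2 * K1 * wt p) := by gcongr
      _ = _ := by ring
  -- the near pairs
  have hnear : ∀ q, P ≤ q → ∀ p, P ≤ p → η * q < p → p < q →
      |∫ t in Set.Ico (0 : ℝ) 1, (fq b κ A p t - mq a p) * (fq b κ A q t - mq a q)| ≤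
        (K3 / η + 3 * K1 ^ 2) * wt q * wt p + K3 / η * wt q * ((b : ℝ) ^ (ex κ q - ex κ p))⁻¹ := by
    intro q hq p hp hpq hlt
    have hp0 : (0 : ℝ) < p := by exact_mod_cast (by have := (hPall p hp).2.2.2.2; omega : 0 < p)
    have hq0 : (0 : ℝ) < q := by exact_mod_cast (by omega : 0 < q)
    have hwp : wt p ≤ 1 / η * wt q := by
      unfold wt
      have g1 : Real.log p ≤ Real.log q := Real.log_le_log hp0 (by exact_mod_cast hlt.le)
      have g2 : 0 ≤ Real.log q := Real.log_natCast_nonneg q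
      calc Real.log p / p ≤ Real.log q / (η * q) := div_le_div₀ g2 g1 (by positivity) hpq.le
        _ = 1 / η * (Real.log q / q) := by field_simp
    have hwp0 := wt_nonneg p
    have hwq0 := wt_nonneg q
    have hqD : q ≤ D * p := by
      have : (q : ℝ) ≤ D * p := by
        calc (q : ℝ) = (1 / η) * (η * q) := by field_simp
          _ ≤ D * p := by gcongr
      exact_mod_cast this
    have hpair := h3 p (hPall p hp).2.2.1 q hlt.le hqD
    have e0 := int_pair hb0 hκ0 (fun k => ph A p k) (fun k => ph A q k) hlt.le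
    have e1 : ∫ t in Set.Ico (0 : ℝ) 1, fq b κ A p t * fq b κ A q t ≤
        K3 * (wt p ^ 2 + ((b : ℝ) ^ (ex κ q - ex κ p))⁻¹ * wt p) := by
      have : ∫ t in Set.Ico (0 : ℝ) 1, fq b κ A p t * fq b κ A q t = _ := e0
      rw [this]
      exact hpair
    have g1 := (h1 p (hPall p hp).1).1
    have g2 := (h1 q (hPall q hq).1).1
    have g3 := hmK p hp
    have g4 := hmK q hq
    have g5 := mq_nonneg ha p
    have g6 := mq_nonneg ha q
    have i1 : Integrable (fun t => fq b κ A p t * fq b κ A q t) (volume.restrict (Set.Ico (0 : ℝ) 1)) :=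
      integrable_bdd ((measurable_fq b κ A p).mul (measurable_fq b κ A q)) (M := 1) fun t => by
        rw [abs_of_nonneg (mul_nonneg (fq_nonneg _ _ _ _ _) (fq_nonneg _ _ _ _ _))]
        exact mul_le_one₀ (fq_le_one _ _ _ _ _) (fq_nonneg _ _ _ _ _) (fq_le_one _ _ _ _ _)
    have e2 : |∫ t in Set.Ico (0 : ℝ) 1, (fq b κ A p t - mq a p) * (fq b κ A q t - mq a q)| ≤
        ∫ t in Set.Ico (0 : ℝ) 1, (fq b κ A p t * fq b κ A q t + mq a p * fq b κ A q t +
          mq a q * fq b κ A p t + mq a p * mq a q) := by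
      refine (abs_integral_le_integral_abs).trans ?_
      refine integral_mono_of_nonneg (Eventually.of_forall fun t => abs_nonneg _) ?_
        (Eventually.of_forall fun t => ?_)
      · exact ((i1.add ((hfi q).const_mul _)).add ((hfi p).const_mul _)).add (integrable_const _)
      · have f1 := fq_nonneg b κ A p t
        have f2 := fq_nonneg b κ A q t
        show |(fq b κ A p t - mq a p) * (fq b κ A q t - mq a q)| ≤ _
        rw [abs_le]
        constructor
        · have : 0 ≤ fq b κ A p t * fq b κ A q t := mul_nonneg f1 f2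
          have : 0 ≤ mq a p * mq a q := mul_nonneg g5 g6
          nlinarith
        · have : 0 ≤ mq a p * fq b κ A q t := mul_nonneg g5 f2
          have : 0 ≤ mq a q * fq b κ A p t := mul_nonneg g6 f1
          nlinarith
    have e3 : ∫ t in Set.Ico (0 : ℝ) 1, (fq b κ A p t * fq b κ A q t + mq a p * fq b κ A q t +
          mq a q * fq b κ A p t + mq a p * mq a q) =
        (∫ t in Set.Ico (0 : ℝ) 1, fq b κ A p t * fq b κ A q t) + mq a p * (∫ t in Set.Ico (0 : ℝ) 1, fq b κ A q t) +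
          mq a q * (∫ t in Set.Ico (0 : ℝ) 1, fq b κ A p t) + mq a p * mq a q := by
      have i2 : Integrable (fun t => mq a p * fq b κ A q t) (volume.restrict (Set.Ico (0 : ℝ) 1)) :=
        (hfi q).const_mul _
      have i3 : Integrable (fun t => mq a q * fq b κ A p t) (volume.restrict (Set.Ico (0 : ℝ) 1)) :=
        (hfi p).const_mul _
      have i12 : Integrable (fun t => fq b κ A p t * fq b κ A q t + mq a p * fq b κ A q t)
        (volume.restrict (Set.Ico (0 : ℝ) 1)) := i1.add i2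
      have i123 : Integrable (fun t => fq b κ A p t * fq b κ A q t + mq a p * fq b κ A q t +
        mq a q * fq b κ A p t) (volume.restrict (Set.Ico (0 : ℝ) 1)) := i12.add i3
      rw [integral_add i123 (integrable_const _), integral_add i12 i3, integral_add i1 i2,
        integral_const_mul, integral_const_mul]
      simp
    rw [e3] at e2
    have hK1q : 0 ≤ K1 * wt q := by positivity
    have hK1p : 0 ≤ K1 * wt p := by positivity
    have m1 : mq a p * (∫ t in Set.Ico (0 : ℝ) 1, fq b κ A q t) ≤ (K1 * wt p) * (K1 * wt q) :=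
      mul_le_mul g3 g2 (integral_nonneg fun t => fq_nonneg _ _ _ _ _) hK1p
    have m2 : mq a q * (∫ t in Set.Ico (0 : ℝ) 1, fq b κ A p t) ≤ (K1 * wt q) * (K1 * wt p) :=
      mul_le_mul g4 g1 (integral_nonneg fun t => fq_nonneg _ _ _ _ _) hK1q
    have m3 : mq a p * mq a q ≤ (K1 * wt p) * (K1 * wt q) := mul_le_mul g3 g4 g6 hK1p
    have hinv0 : 0 ≤ ((b : ℝ) ^ (ex κ q - ex κ p))⁻¹ := by positivity
    have m4 : K3 * (wt p ^ 2 + ((b : ℝ) ^ (ex κ q - ex κ p))⁻¹ * wt p) ≤
        K3 * ((1 / η * wt q) * wt p + ((b : ℝ) ^ (ex κ q - ex κ p))⁻¹ * (1 / η * wt q)) := by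
      refine mul_le_mul_of_nonneg_left (add_le_add ?_ ?_) hK3.le
      · rw [sq]; exact mul_le_mul_of_nonneg_right hwp hwp0
      · exact mul_le_mul_of_nonneg_left hwp hinv0
    refine e2.trans ?_
    have e5 : (K3 / η + 3 * K1 ^ 2) * wt q * wt p + K3 / η * wt q * ((b : ℝ) ^ (ex κ q - ex κ p))⁻¹ =
        K3 * ((1 / η * wt q) * wt p + ((b : ℝ) ^ (ex κ q - ex κ p))⁻¹ * (1 / η * wt q)) +
        ((K1 * wt p) * (K1 * wt q) + (K1 * wt q) * (K1 * wt p) + (K1 * wt p) * (K1 * wt q)) := by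
      ring
    rw [e5]
    linarith
  -- the row sums
  set Cc := 2 * K2 * K1 * (1 + |C5|) + (K3 / η + 3 * K1 ^ 2) + K3 / η * K4 + (K1 + K1 ^ 2) with hCc
  have hCc0 : 0 < Cc := by rw [hCc]; positivity
  refine ⟨η, Cc, hη, hCc0, P, (by simp only [hP]; omega), fun q hq _ => ?_, fun q hq _ T hT => ?_⟩
  · have g2 := (h1 q (hPall q hq).1).1
    have g4 := hmK q hq
    have g6 := mq_nonneg ha q
    have g7 : mq a q ≤ 1 := min_le_left _ _
    have hw := wt_nonneg q
    have hw1 := wt_le_one q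
    have e1 : ∫ t in Set.Ico (0 : ℝ) 1, (fq b κ A q t - mq a q) ^ 2 ≤
        ∫ t in Set.Ico (0 : ℝ) 1, (fq b κ A q t + mq a q * mq a q) := by
      refine integral_mono_of_nonneg (Eventually.of_forall fun t => sq_nonneg _)
        ((hfi q).add (integrable_const _)) (Eventually.of_forall fun t => ?_)
      have f1 := fq_nonneg b κ A q t
      have f2 := fq_le_one b κ A q t
      show (fq b κ A q t - mq a q) ^ 2 ≤ fq b κ A q t + mq a q * mq a q
      have f3 : fq b κ A q t * fq b κ A q t ≤ fq b κ A q t := mul_le_of_le_one_right f1 f2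
      have f4 : 0 ≤ fq b κ A q t * mq a q := mul_nonneg f1 g6
      nlinarith
    have e2 : ∫ t in Set.Ico (0 : ℝ) 1, (fq b κ A q t + mq a q * mq a q) =
        (∫ t in Set.Ico (0 : ℝ) 1, fq b κ A q t) + mq a q * mq a q := by
      rw [integral_add (hfi q) (integrable_const _)]
      simp
    refine e1.trans ?_
    rw [e2]
    have e3 : mq a q * mq a q ≤ K1 ^ 2 * wt q := by
      calc mq a q * mq a q ≤ (K1 * wt q) * (K1 * wt q) := mul_le_mul g4 g4 g6 (by positivity)
        _ = K1 ^ 2 * (wt q * wt q) := by ring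
        _ ≤ K1 ^ 2 * (wt q * 1) := by gcongr
        _ = _ := by ring
    have e4 : (K1 + K1 ^ 2) * wt q ≤ Cc * wt q := by
      refine mul_le_mul_of_nonneg_right ?_ hw
      rw [hCc]
      have : 0 ≤ 2 * K2 * K1 * (1 + |C5|) + (K3 / η + 3 * K1 ^ 2) + K3 / η * K4 := by positivity
      linarith
    linarith
  · have hq3 := (hPall q hq).2.2.2.2
    have hq0 : (0 : ℝ) < q := by exact_mod_cast (by omega : 0 < q)
    have hlq := h4 q (hPall q hq).2.2.2.1
    have hw := wt_nonneg q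
    set J : ℕ → ℝ := fun p =>
      |∫ t in Set.Ico (0 : ℝ) 1, (fq b κ A p t - mq a p) * (fq b κ A q t - mq a q)| with hJ
    change ∑ p ∈ T, J p ≤ _
    rw [← Finset.sum_filter_add_sum_filter_not T (fun p : ℕ => (p : ℝ) ≤ η * q)]
    have s1 : ∑ p ∈ T.filter (fun p : ℕ => (p : ℝ) ≤ η * q), J p ≤ 2 * K2 * K1 * (1 + |C5|) * wt q := by
      have g1 : ∑ p ∈ T.filter (fun p : ℕ => (p : ℝ) ≤ η * q), J p ≤
          ∑ p ∈ T.filter (fun p : ℕ => (p : ℝ) ≤ η * q), 2 * K2 * K1 / q * wt p := by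
        refine Finset.sum_le_sum fun p hp => ?_
        rw [mem_filter] at hp
        exact hfar q hq p (hT p hp.1).2.1 hp.2
      have g2 : ∑ p ∈ T.filter (fun p : ℕ => (p : ℝ) ≤ η * q), wt p ≤ (1 + |C5|) * Real.log q := by
        have g3 := (abs_le.1 (hC5 q (by omega))).2
        have g4 : ∑ p ∈ T.filter (fun p : ℕ => (p : ℝ) ≤ η * q), wt p ≤
            ∑ p ∈ (Finset.Icc 1 q).filter Nat.Prime, Real.log p / p := by
          refine Finset.sum_le_sum_of_subset_of_nonneg ?_ fun p _ _ => wt_nonneg p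
          intro p hp
          rw [mem_filter] at hp
          obtain ⟨t1, _, t3⟩ := hT p hp.1
          rw [mem_filter, mem_Icc]
          exact ⟨⟨t1.one_lt.le, t3.le⟩, t1⟩
        have g5 := le_abs_self C5
        have g6 : |C5| ≤ |C5| * Real.log q := le_mul_of_one_le_right (abs_nonneg _) hlq
        linarith
      refine g1.trans ?_
      rw [← Finset.mul_sum]
      calc 2 * K2 * K1 / q * ∑ p ∈ T.filter (fun p : ℕ => (p : ℝ) ≤ η * q), wt p ≤
            2 * K2 * K1 / q * ((1 + |C5|) * Real.log q) := by gcongr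
        _ = 2 * K2 * K1 * (1 + |C5|) * wt q := by unfold wt; ring
    set Sm := ∑ p ∈ T.filter (fun p : ℕ => η * q / Real.log q < (p : ℝ)), wt p with hSm
    have hSm0 : 0 ≤ Sm := Finset.sum_nonneg fun p _ => wt_nonneg p
    have s2 : ∑ p ∈ T.filter (fun p : ℕ => ¬ (p : ℝ) ≤ η * q), J p ≤
        (K3 / η + 3 * K1 ^ 2) * wt q * Sm + K3 / η * wt q * K4 := by
      have g1 : ∑ p ∈ T.filter (fun p : ℕ => ¬ (p : ℝ) ≤ η * q), J p ≤
          ∑ p ∈ T.filter (fun p : ℕ => ¬ (p : ℝ) ≤ η * q), ((K3 / η + 3 * K1 ^ 2) * wt q * wt p +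
            K3 / η * wt q * ((b : ℝ) ^ (ex κ q - ex κ p))⁻¹) := by
        refine Finset.sum_le_sum fun p hp => ?_
        rw [mem_filter, not_le] at hp
        obtain ⟨t1, t2, t3⟩ := hT p hp.1
        exact hnear q hq p t2 hp.2 t3
      refine g1.trans ?_
      rw [Finset.sum_add_distrib, ← Finset.mul_sum, ← Finset.mul_sum]
      have g2 : ∑ p ∈ T.filter (fun p : ℕ => ¬ (p : ℝ) ≤ η * q), wt p ≤ Sm := by
        refine Finset.sum_le_sum_of_subset_of_nonneg ?_ fun p _ _ => wt_nonneg p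
        intro p hp
        rw [mem_filter, not_le] at hp
        rw [mem_filter]
        refine ⟨hp.1, lt_of_le_of_lt ?_ hp.2⟩
        exact div_le_self (by positivity) hlq
      have g3 := hgeo q (T.filter (fun p : ℕ => ¬ (p : ℝ) ≤ η * q)) fun p hp => by
        rw [mem_filter] at hp
        exact (hT p hp.1).2.2
      gcongr
    have e1 : Cc * (wt q * (1 + Sm)) = (2 * K2 * K1 * (1 + |C5|) * wt q +
        ((K3 / η + 3 * K1 ^ 2) * wt q * Sm + K3 / η * wt q * K4)) +
        ((2 * K2 * K1 * (1 + |C5|) + K3 / η * K4 + (K1 + K1 ^ 2)) * wt q * Sm +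
          ((K3 / η + 3 * K1 ^ 2) + (K1 + K1 ^ 2)) * wt q) := by
      rw [hCc]; ring
    rw [e1]
    have : 0 ≤ (2 * K2 * K1 * (1 + |C5|) + K3 / η * K4 + (K1 + K1 ^ 2)) * wt q * Sm +
          ((K3 / η + 3 * K1 ^ 2) + (K1 + K1 ^ 2)) * wt q := by positivity
    linarith

end Pool.Agent.H39x.LP
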