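import Pool.Agent.H39x.LP.Wrap

/-!
# Project LP: summary
-/

set_option autoImplicit false

namespace Pool.Agent.H39x.LP

open Finset Filter Topology MeasureTheory Asymptotics
open Pool.Agent.H305R2 (roughPart)
open Pool.Agent.TH888.R (Pt VS cS VS_univ_tendsto bigO_all bigO_set)

/-- the integers: `A p` plus the integer with the first `⌊κ p⌋` digits of `θ` in base `b` -/
noncomputable def sq (b : ℕ) (κ : ℝ) (A : ℕ → ℤ) (θ : ℝ) (p : ℕ) : ℕ :=
  (A p + ⌊θ * (b : ℝ) ^ ⌊κ * p⌋₊⌋).toNat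

/-- the law for the set of all primes -/
theorem main_all {b : ℕ} (hb : 2 ≤ b) {a κ c C : ℝ} (ha : 0 < a) (hκ : 0.5834 * a < κ * Real.log b)
    (hκ1 : κ * Real.log b < a) (hc : 0 < c) {A : ℕ → ℤ}
    (hA : ∀ᶠ p : ℕ in atTop, p.Prime → c * Real.exp (a * p) ≤ A p ∧ (A p : ℝ) ≤ C * Real.exp (a * p)) :
    ∀ᵐ θ : ℝ, (fun n : ℕ => (cS Set.univ (sq b κ A θ) n : ℝ) -
        Real.exp Real.eulerMascheroniConstant / a * Real.log n) =O[atTop]
      (fun n : ℕ => Real.sqrt (Real.log n) * (Real.log (Real.log n)) ^ ((5 : ℝ) / 2)) := by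
  filter_upwards [pt_digits hb ha hκ hκ1 hc hA Set.univ] with θ hθ
  obtain ⟨B, hB, h⟩ := hθ.law VS_univ_tendsto
  exact bigO_all hB h

/-- the dichotomy and the law for a set of primes -/
theorem main_set {b : ℕ} (hb : 2 ≤ b) {a κ c C : ℝ} (ha : 0 < a) (hκ : 0.5834 * a < κ * Real.log b)
    (hκ1 : κ * Real.log b < a) (hc : 0 < c) {A : ℕ → ℤ}
    (hA : ∀ᶠ p : ℕ in atTop, p.Prime → c * Real.exp (a * p) ≤ A p ∧ (A p : ℝ) ≤ C * Real.exp (a * p))
    (S : Set ℕ) :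
    ∀ᵐ θ : ℝ, ({p : ℕ | p.Prime ∧ p ∈ S ∧ (roughPart p (sq b κ A θ p)).Prime}.Infinite ↔
        Tendsto (VS S) atTop atTop) ∧
      (Tendsto (VS S) atTop atTop → (fun n : ℕ => (cS S (sq b κ A θ) n : ℝ) -
        Real.exp Real.eulerMascheroniConstant / a * VS S n) =O[atTop]
        (fun n : ℕ => Real.sqrt (VS S n * Real.log (Real.log n)) *
          (Real.log (VS S n * Real.log (Real.log n))) ^ 2)) := by
  filter_upwards [pt_digits hb ha hκ hκ1 hc hA S] with θ hθ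
  refine ⟨⟨fun h => ?_, hθ.inf⟩, fun hS => ?_⟩
  · by_contra h1
    exact h (hθ.fin h1)
  · obtain ⟨B, hB, h⟩ := hθ.law hS
    exact bigO_set hB hS h

end Pool.Agent.H39x.LP
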