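import Pool.Agent.Q278.KT.Fin

/-!
# Project LP: the exponent 7/12 + 1/15000

The optimisation of exponents of projects KS/KT, in the range where the large value estimates alone are sufficient.
-/

set_option autoImplicit false

namespace Pool.Agent.H39x.LP

open Finset Pool.Agent.H376R2.MR Pool.Agent.Q240.KS Pool.Agent.Q278.KT

theorem no_mult {b c R : ℝ} (h1 : 0.33326 ≤ b) (h2 : b ≤ 0.4999) (hc : 0 < c) (hR : 0.9999 * c ≤ R)
    (h : R ≤ max (2 * b * c) (min (0.4166 - b + 2 * b * c) (0.4166 - 2 * b + 6 * b * c))) : False := by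
  rcases le_max_iff.1 h with h3 | h3
  · nlinarith
  · obtain ⟨h4, h5⟩ := le_min_iff.1 h3
    have e1 : c * (0.9999 - 2 * b) ≤ 0.4166 - b := by linarith
    have e2 : 2 * b - 0.4166 ≤ c * (6 * b - 0.9999) := by linarith
    have f1 : 0 < 0.9999 - 2 * b := by linarith
    have f2 : 0 < 6 * b - 0.9999 := by linarith
    have e3 : (2 * b - 0.4166) * (0.9999 - 2 * b) ≤ c * (6 * b - 0.9999) * (0.9999 - 2 * b) :=
      mul_le_mul_of_nonneg_right e2 f1.le
    have e4 : c * (0.9999 - 2 * b) * (6 * b - 0.9999) ≤ (0.4166 - b) * (6 * b - 0.9999) :=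
      mul_le_mul_of_nonneg_right e1 f2.le
    nlinarith

theorem optx (e0 : ℝ) : OPTX 0.4166 e0 := by
  intro al ka lam R hC hpos
  have hone : ∑ i, al i = 1 := by
    have h := abs_le.1 hC.one
    linarith [h.1, h.2]
  obtain ⟨i, hi1, hi2⟩ := t_MINF al ka hC.nn hone
  by_contra hcon
  have hR : ∑ i, ka i ≤ R := by
    by_contra h
    push Not at h
    exact hcon ⟨R - ∑ i, ka i, by linarith, Or.inl (by linarith)⟩
  set κ := ∑ i, ka i with hκ
  obtain ⟨c, hc⟩ : ∃ c : ℝ, c = κ / 0.9999 := ⟨_, rfl⟩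
  have hc1 : 0.9999 * c = κ := by rw [hc]; field_simp
  have hc0 : 0 < c := by rw [hc]; positivity
  have hRc : 0.9999 * c ≤ R := by rw [hc1]; exact hR
  have hka : ka i ≤ c * al i := by
    rw [← hc1] at hi2
    nlinarith
  have hlam : lam ≤ 0.4166 := by linarith [hC.la.2]
  have hRl : R ≤ lam := by linarith [hC.R0.2]
  have hm : ∀ m : ℕ, 1 ≤ m → m ≤ 100000 → 0.33326 ≤ (m : ℝ) * al i → (m : ℝ) * al i ≤ 0.4999 → False := by
    intro m h1 h2 h3 h4
    exact no_mult h3 h4 hc0 hRc (t_LVC 0.4166 al ka lam R c i m hC hi1 hka h1 h2)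
  rcases le_or_gt (al i) 0.16664 with h1 | h1
  · obtain ⟨m, h2, h3, h4, h5⟩ := t_MUL (al i) 0.33326 0.4999 hi1 (by norm_num) (by linarith) (by norm_num)
    exact hm m h2 h3 h4 h5
  rcases le_or_gt (al i) 0.24995 with h2 | h2
  · exact hm 2 (by norm_num) (by norm_num) (by push_cast; linarith) (by push_cast; linarith)
  have h5 : 5 ≤ (i : ℕ) := by
    by_contra h
    push Not at h
    have := hC.mob i h
    linarith
  obtain ⟨s1, s2, s3, s4⟩ := hC.smo i h5
  have hc2 : 0.9999 * c ≤ 0.4166 := by linarith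
  rcases le_or_gt (4 * al i) 0.9999 with h6 | h6
  · nlinarith
  · nlinarith

theorem opts : OPTS 0.4166 (-1000) :=
  Pool.Agent.Q208.KT.t_CPT _ _ (by norm_num) (by norm_num) (optx _)

theorem far : FAR2 0.4166 (-1000) := far2_all _ _ (by norm_num) (by norm_num) opts

end Pool.Agent.H39x.LP
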