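import Mathlib

/-!
# The Pell pairs `X n + Y n √2 = (1 + √2) ^ n`
-/

set_option autoImplicit false

namespace Pool.Agent.H39x.LP.Pell

/-- the pairs `(X n, Y n)` with `X n + Y n √2 = (1 + √2) ^ n` -/
def XY : ℕ → ℕ × ℕ
  | 0 => (1, 0)
  | n + 1 => ((XY n).1 + 2 * (XY n).2, (XY n).1 + (XY n).2)

/-- the first coordinate -/
def X (n : ℕ) : ℕ := (XY n).1

/-- the second coordinate -/
def Y (n : ℕ) : ℕ := (XY n).2

@[simp] lemma X_zero : X 0 = 1 := rfl
@[simp] lemma Y_zero : Y 0 = 0 := rfl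
lemma X_succ (n : ℕ) : X (n + 1) = X n + 2 * Y n := rfl
lemma Y_succ (n : ℕ) : Y (n + 1) = X n + Y n := rfl

/-- in every commutative ring with a square root `s` of `2` -/
lemma pow_eq {R : Type*} [CommRing R] {s : R} (hs : s * s = 2) (n : ℕ) :
    (X n : R) + Y n * s = (1 + s) ^ n := by
  induction n with
  | zero => simp
  | succ n ih =>
    rw [pow_succ, ← ih, X_succ, Y_succ]
    push_cast
    linear_combination (-(Y n : R)) * hs

lemma norm_eq (n : ℕ) : (X n : ℤ) ^ 2 - 2 * (Y n : ℤ) ^ 2 = (-1) ^ n := by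
  induction n with
  | zero => simp
  | succ n ih =>
    rw [pow_succ (-1 : ℤ) n, ← ih, X_succ, Y_succ]
    push_cast
    ring

lemma pell {n : ℕ} (h : Odd n) : X n ^ 2 + 1 = 2 * Y n ^ 2 := by
  have h1 := norm_eq n
  rw [h.neg_one_pow] at h1
  have h2 : (X n : ℤ) ^ 2 + 1 = 2 * (Y n : ℤ) ^ 2 := by linarith
  exact_mod_cast h2

lemma X_pos (n : ℕ) : 0 < X n := by
  induction n with
  | zero => simp
  | succ n ih => rw [X_succ]; omega

lemma Y_pos {n : ℕ} (h : 0 < n) : 0 < Y n := by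
  obtain ⟨k, rfl⟩ : ∃ k, n = k + 1 := ⟨n - 1, by omega⟩
  rw [Y_succ]
  have := X_pos k
  omega

lemma X_mono : StrictMono (fun n => X (n + 1)) := by
  refine strictMono_nat_of_lt_succ fun n => ?_
  show X (n + 1) < X (n + 1 + 1)
  rw [X_succ (n + 1)]
  have := Y_pos (Nat.succ_pos n)
  simp only [Nat.succ_eq_add_one] at this
  omega

lemma Y_lt_X {n : ℕ} (h : 2 ≤ n) : Y n < X n := by
  obtain ⟨k, rfl⟩ : ∃ k, n = k + 1 := ⟨n - 1, by omega⟩
  rw [X_succ, Y_succ]
  have := Y_pos (n := k) (by omega)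
  omega

lemma Y_le_X (n : ℕ) : Y n ≤ X n := by
  rcases Nat.lt_or_ge n 2 with h | h
  · interval_cases n
    · simp
    · rw [show (1 : ℕ) = 0 + 1 by rfl, X_succ, Y_succ]
      simp
  · exact (Y_lt_X h).le

lemma X_le_two_Y {n : ℕ} (h : 0 < n) : X n ≤ 2 * Y n := by
  obtain ⟨k, rfl⟩ : ∃ k, n = k + 1 := ⟨n - 1, by omega⟩
  rw [X_succ, Y_succ]
  omega

lemma X_odd (n : ℕ) : X n % 2 = 1 := by
  induction n with
  | zero => simp
  | succ n ih => rw [X_succ]; omega

lemma Y_odd {n : ℕ} (h : Odd n) : Y n % 2 = 1 := by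
  have h1 := pell h
  obtain ⟨a, ha⟩ : ∃ a, X n = 2 * a + 1 := ⟨X n / 2, by have := X_odd n; omega⟩
  rcases Nat.mod_two_eq_zero_or_one (Y n) with h2 | h2
  · obtain ⟨b, hb⟩ : ∃ b, Y n = 2 * b := ⟨Y n / 2, by omega⟩
    rw [ha, hb] at h1
    have e : 2 * (2 * a ^ 2 + 2 * a + 1) = 2 * (4 * b ^ 2) := by nlinarith
    omega
  · exact h2

/-- divisibility of the first coordinates -/
lemma re_dvd (z : ℤ√2) (t : ℕ) : z.re ∣ (z ^ (2 * t)).im ∧ z.re ∣ (z ^ (2 * t + 1)).re := by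
  have h1 : ∀ t : ℕ, z.re ∣ (z ^ (2 * t)).im := by
    intro t
    induction t with
    | zero => simp
    | succ t ih =>
      have e : z ^ (2 * (t + 1)) = z ^ (2 * t) * (z * z) := by ring
      rw [e, Zsqrtd.im_mul, Zsqrtd.im_mul, Zsqrtd.re_mul]
      refine dvd_add (Dvd.dvd.mul_left ?_ _) (ih.mul_right _)
      exact dvd_add (dvd_mul_right _ _) (dvd_mul_left _ _)
  refine ⟨h1 t, ?_⟩
  rw [pow_succ, Zsqrtd.re_mul]
  exact dvd_add (dvd_mul_left _ _) (((h1 t).mul_left _).mul_right _)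

lemma zs_pow (n : ℕ) : (⟨1, 1⟩ : ℤ√2) ^ n = ⟨X n, Y n⟩ := by
  induction n with
  | zero => simp [X_zero, Y_zero]; rfl
  | succ n ih =>
    rw [pow_succ, ih, X_succ, Y_succ]
    ext
    · simp
    · simp

lemma X_dvd {r s : ℕ} (h : Odd s) : X r ∣ X (r * s) := by
  obtain ⟨t, rfl⟩ := h
  have h1 := (re_dvd ((⟨1, 1⟩ : ℤ√2) ^ r) t).2
  rw [← pow_mul, zs_pow, zs_pow] at h1
  exact Int.natCast_dvd_natCast.1 h1

/-- only prime exponents matter -/
lemma prime_of_X {n : ℕ} (h : Odd n) (hp : (X n).Prime) : n.Prime := by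
  by_contra hn
  have hn0 : 0 < n := h.pos
  have h1 : n ≠ 1 := by
    rintro rfl
    rw [show (1 : ℕ) = 0 + 1 by rfl, X_succ] at hp
    simp at hp
    exact Nat.not_prime_one hp
  obtain ⟨r, hr1, hr2, hr3⟩ := Nat.exists_dvd_of_not_prime2 (by omega : 2 ≤ n) hn
  obtain ⟨s, rfl⟩ := hr1
  have hs : Odd s := (Nat.odd_mul.1 h).2
  have h2 : X r ∣ X (r * s) := X_dvd hs
  have h3 : X r < X (r * s) := by
    have e1 : r = (r - 1) + 1 := by omega
    have e2 : r * s = (r * s - 1) + 1 := by omega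
    rw [e2]
    nth_rewrite 1 [e1]
    exact X_mono (by omega)
  have h4 : 1 < X r := by
    have h5 : X (0 + 1) = 1 := by rw [X_succ]; simp
    have e1 : r = (r - 1) + 1 := by omega
    rw [e1, ← h5]
    exact X_mono (by omega)
  rcases (Nat.dvd_prime hp).1 h2 with h5 | h5
  · omega
  · omega

/-- the order of `1 + √2` modulo a prime -/
lemma ord {l : ℕ} [Fact l.Prime] {K : Type*} [Field K] [CharP K l] (hl2 : l ≠ 2) {s : K}
    (hs : s * s = 2) {p : ℕ} (hp : p.Prime) (hp2 : p ≠ 2) (hlp : l ≤ p) {c : ℕ}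
    (hc : (1 + s) ^ (c * p) = 1) : (1 + s) ^ c = 1 := by
  have hlpr : l.Prime := Fact.out
  have h20 : (2 : K) ≠ 0 := by
    intro h
    have h1 : ((2 : ℕ) : K) = 0 := by exact_mod_cast h
    rw [CharP.cast_eq_zero_iff K l] at h1
    exact hl2 ((Nat.prime_dvd_prime_iff_eq hlpr Nat.prime_two).1 h1)
  have hε : (1 + s) * (s - 1) = 1 := by linear_combination hs
  have hε0 : (1 + s) ≠ 0 := left_ne_zero_of_mul_eq_one hε
  have hl3 : 3 ≤ l := by
    have := hlpr.two_le
    omega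
  have hodd : l % 2 = 1 := hlpr.eq_two_or_odd.resolve_left hl2
  have hpodd : p % 2 = 1 := hp.eq_two_or_odd.resolve_left hp2
  have hfr : (1 + s) ^ l = 1 + s ^ l := by
    rw [add_pow_char, one_pow]
  have h2l : (2 : K) ^ l = 2 := by
    have := map_natCast (frobenius K l) 2
    rw [frobenius_def] at this
    exact_mod_cast this
  have hsl : (s ^ l - s) * (s ^ l + s) = 0 := by
    have : s ^ l * s ^ l = (s * s) ^ l := (mul_pow s s l).symm
    rw [hs, h2l] at this
    linear_combination this - hs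
  have hdvd : orderOf (1 + s) ∣ l - 1 ∨ orderOf (1 + s) ∣ 2 * (l + 1) := by
    rcases mul_eq_zero.1 hsl with h | h
    · left
      rw [orderOf_dvd_iff_pow_eq_one]
      have h1 : (1 + s) ^ (l - 1) * (1 + s) = 1 * (1 + s) := by
        rw [← pow_succ, Nat.sub_add_cancel (by omega), hfr, sub_eq_zero.1 h, one_mul]
      exact mul_right_cancel₀ hε0 h1
    · right
      rw [orderOf_dvd_iff_pow_eq_one]
      have h1 : (1 + s) ^ (l + 1) = -1 := by
        rw [pow_succ, hfr]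
        have h3 : s ^ l = -s := eq_neg_of_add_eq_zero_left h
        rw [h3]
        linear_combination -hs
      rw [mul_comm, pow_mul, h1]
      norm_num
  have hnd : ¬ p ∣ orderOf (1 + s) := by
    intro h
    rcases hdvd with h1 | h1
    · have h2 := Nat.le_of_dvd (by omega) (h.trans h1)
      omega
    · have h2 := h.trans h1
      rcases (Nat.Prime.dvd_mul hp).1 h2 with h3 | h3
      · exact hp2 ((Nat.prime_dvd_prime_iff_eq hp Nat.prime_two).1 h3)
      · obtain ⟨t, ht⟩ := h3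
        have ht1 : t = 1 := by
          have ht0 : t ≠ 0 := by rintro rfl; omega
          by_contra ht2
          have : p * 2 ≤ p * t := Nat.mul_le_mul_left p (by omega)
          omega
        rw [ht1] at ht
        omega
  have hcop : Nat.Coprime (orderOf (1 + s)) p := ((Nat.Prime.coprime_iff_not_dvd hp).2 hnd).symm
  have h5 : orderOf (1 + s) ∣ c * p := orderOf_dvd_of_pow_eq_one hc
  exact orderOf_dvd_iff_pow_eq_one.1 (hcop.dvd_of_dvd_mul_right h5)

lemma lt_of_dvd {p l : ℕ} (hp : p.Prime) (hp2 : p ≠ 2) (hl : l.Prime) (h : l ∣ X p ∨ l ∣ Y p) :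
    p < l := by
  by_contra hlp
  rw [not_lt] at hlp
  have hodd : Odd p := hp.odd_of_ne_two hp2
  have hl2 : l ≠ 2 := by
    rintro rfl
    have h1 := X_odd p
    have h2 := Y_odd hodd
    rcases h with h | h <;> omega
  haveI : Fact l.Prime := ⟨hl⟩
  obtain ⟨s, hs⟩ : ∃ s : AlgebraicClosure (ZMod l), s ^ 2 = 2 :=
    IsAlgClosed.exists_pow_nat_eq (2 : AlgebraicClosure (ZMod l)) (by norm_num)
  rw [pow_two] at hs
  haveI : CharP (AlgebraicClosure (ZMod l)) l := charP_of_injective_algebraMap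
    (algebraMap (ZMod l) (AlgebraicClosure (ZMod l))).injective l
  have h20 : (2 : AlgebraicClosure (ZMod l)) ≠ 0 := by
    intro h
    have h1 : ((2 : ℕ) : AlgebraicClosure (ZMod l)) = 0 := by exact_mod_cast h
    rw [CharP.cast_eq_zero_iff _ l] at h1
    exact hl2 ((Nat.prime_dvd_prime_iff_eq hl Nat.prime_two).1 h1)
  have h4 : (4 : AlgebraicClosure (ZMod l)) ≠ 0 := by
    have : (4 : AlgebraicClosure (ZMod l)) = 2 * 2 := by norm_num
    rw [this]
    exact mul_ne_zero h20 h20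
  have e1 := pow_eq hs p
  have e2 : (X p : AlgebraicClosure (ZMod l)) ^ 2 + 1 = 2 * (Y p : AlgebraicClosure (ZMod l)) ^ 2 := by
    have := congrArg (Nat.cast (R := AlgebraicClosure (ZMod l))) (pell hodd)
    push_cast at this
    exact this
  rcases h with h | h
  · have h0 : (X p : AlgebraicClosure (ZMod l)) = 0 := (CharP.cast_eq_zero_iff _ l _).2 h
    rw [h0] at e1 e2
    have h5 : (1 + s) ^ (2 * p) = 1 := by
      rw [mul_comm, pow_mul, ← e1]
      linear_combination (Y p : AlgebraicClosure (ZMod l)) ^ 2 * hs - e2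
    have h6 := ord hl2 hs hp hp2 hlp h5
    have h7 : 2 * (s + 1) = 0 := by linear_combination h6 - hs
    have h8 : s = -1 := by
      have := (mul_eq_zero.1 h7).resolve_left h20
      exact eq_neg_of_add_eq_zero_left this
    rw [h8] at hs
    have h9 : (1 : AlgebraicClosure (ZMod l)) = 0 := by linear_combination -hs
    exact one_ne_zero h9
  · have h0 : (Y p : AlgebraicClosure (ZMod l)) = 0 := (CharP.cast_eq_zero_iff _ l _).2 h
    rw [h0] at e1 e2
    have h5 : (1 + s) ^ (4 * p) = 1 := by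
      rw [mul_comm, pow_mul, ← e1]
      linear_combination ((X p : AlgebraicClosure (ZMod l)) ^ 2 - 1) * e2
    have h6 := ord hl2 hs hp hp2 hlp h5
    have h7 : 4 * (3 * s + 4) = 0 := by
      linear_combination h6 - (8 + 4 * s + s * s) * hs + 0
    have h8 := (mul_eq_zero.1 h7).resolve_left h4
    have h9 : (2 : AlgebraicClosure (ZMod l)) = 0 := by
      linear_combination (3 * s - 4) * h8 - 9 * hs
    exact h20 h9

/-! ### the size -/

lemma real_eq (n : ℕ) : (X n : ℝ) + Y n * √2 = (1 + √2) ^ n :=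
  pow_eq (by norm_num) n

lemma X_le (n : ℕ) : (X n : ℝ) ≤ (1 + √2) ^ n := by
  have h := real_eq n
  have : 0 ≤ (Y n : ℝ) * √2 := by positivity
  linarith

lemma sqrt_two_lt : √2 < (3 / 2 : ℝ) := by
  rw [Real.sqrt_lt' (by norm_num)]
  norm_num

lemma le_X (n : ℕ) : 1 / 4 * (1 + √2) ^ n ≤ (X n : ℝ) := by
  rw [← real_eq n]
  have h1 : (Y n : ℝ) ≤ X n := by exact_mod_cast Y_le_X n
  have h2 := sqrt_two_lt
  have h3 : (Y n : ℝ) * √2 ≤ X n * (3 / 2) := mul_le_mul h1 h2.le (by positivity) (by positivity)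
  have : (0 : ℝ) ≤ X n := Nat.cast_nonneg _
  linarith

lemma Y_le (n : ℕ) : (Y n : ℝ) ≤ (1 + √2) ^ n := by
  have h1 : (Y n : ℝ) ≤ X n := by exact_mod_cast Y_le_X n
  exact h1.trans (X_le n)

lemma le_Y {n : ℕ} (h : 0 < n) : 1 / 4 * (1 + √2) ^ n ≤ (Y n : ℝ) := by
  rw [← real_eq n]
  have h1 : (X n : ℝ) ≤ 2 * Y n := by exact_mod_cast X_le_two_Y h
  have h2 := sqrt_two_lt
  have h0 : (0 : ℝ) ≤ Y n := Nat.cast_nonneg _
  have h3 : (Y n : ℝ) * √2 ≤ Y n * (3 / 2) := mul_le_mul_of_nonneg_left h2.le h0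
  linarith

end Pool.Agent.H39x.LP.Pell
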