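import Pool.Agent.H39x.LP.Rough

/-!
# Project LP: integers with prime rough part in short intervals, the asymptotic count
-/

set_option autoImplicit false

namespace Pool.Agent.H39x.LP

open Finset Filter Topology
open Pool.Agent.H305R2 (SM SMz mem_SMz SM_pos VV ZZ VV_nonneg ZZ_nonneg VV_le tail_le sum_le_VV roughPart
  roughPart_prime roughPart_mul sum_rough_eq log_nat_tendsto)
open Pool.Agent.TH888.R (VV_rate ZZ_rate)

/-- the algebra of the main term: `N ≈ D / m`, `D ≈ h`, `m ≈ L` -/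
theorem per_alg {N D m h L C η p : ℝ} (hL : 0 < L) (hC : 0 < C) (hp : 0 < p) (hη0 : 0 ≤ η) (hη : η ≤ 1 / 2)
    (hm : |m - L| ≤ η * L) (hD : |D - h| ≤ h / p) (hp1 : 1 ≤ p) (hh : 0 < h)
    (hN : |N - D / m| ≤ C * (D / m ^ 2)) :
    |N - h / L| ≤ h / L * (2 / p + 2 * η + 8 * C / L) := by
  obtain ⟨m1, m2⟩ := abs_le.1 hm
  have hηL : η * L ≤ 1 / 2 * L := mul_le_mul_of_nonneg_right hη hL.le
  have hm2 : L / 2 ≤ m := by linarith
  have hm0 : 0 < m := by linarith
  have hhp : h / p ≤ h := by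
    rw [div_le_iff₀ hp]
    nlinarith
  have hD2 : D ≤ 2 * h := by linarith [(abs_le.1 hD).2]
  have hD0 : 0 ≤ D := by linarith [(abs_le.1 hD).1]
  have e1 : |D / m - h / m| ≤ h / L * (2 / p) := by
    rw [← sub_div, abs_div, abs_of_pos hm0]
    calc |D - h| / m ≤ (h / p) / (L / 2) := div_le_div₀ (by positivity) hD (by positivity) hm2
      _ = _ := by field_simp
  have e2 : |h / m - h / L| ≤ h / L * (2 * η) := by
    have e3 : h / m - h / L = h / L * ((L - m) / m) := by field_simp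
    rw [e3, abs_mul, abs_of_pos (by positivity : 0 < h / L), abs_div, abs_of_pos hm0]
    refine mul_le_mul_of_nonneg_left ?_ (by positivity)
    rw [div_le_iff₀ hm0, abs_sub_comm]
    nlinarith
  have e4 : C * (D / m ^ 2) ≤ h / L * (8 * C / L) := by
    have : (L / 2) ^ 2 ≤ m ^ 2 := by gcongr
    calc C * (D / m ^ 2) ≤ C * (2 * h / (L / 2) ^ 2) := by gcongr
      _ = _ := by field_simp; ring
  have e5 := abs_sub_le N (D / m) (h / L)
  have e6 := abs_sub_le (D / m) (h / m) (h / L)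
  calc |N - h / L| ≤ h / L * (8 * C / L) + (h / L * (2 / p) + h / L * (2 * η)) := by linarith
    _ = _ := by ring

/-- the eventual inequalities between the parameters -/
theorem ev_params {a κ c₁ D X₀ : ℝ} (ha : 0 < a) (hκ : 0.5834 < κ) (hκ1 : κ ≤ 1) (hD : 0 < D) :
    ∀ᶠ p : ℕ in atTop, 3 ≤ p ∧ 1 ≤ Real.log p ∧ Real.log p ^ 2 ≤ p ∧
      |c₁| + 3 ≤ p / Real.log p ∧
      (D + 1) / (a * Real.log p) ≤ 1 / 2 ∧
      D * (p / Real.log p) + |c₁| + 4 + Real.log p ≤ (κ - 0.5834) * (a * p) ∧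
      6 * (a * p + |c₁|) ≤ (p : ℝ) ^ 2 ∧
      max X₀ 3 ≤ Real.exp (a * p / 2 - 1) ∧ 2 * (p : ℝ) ≤ Real.exp (a * p / 2 - 1) := by
  have hlog : ∀ c : ℝ, 0 < c → ∀ᶠ p : ℕ in atTop, Real.log p ≤ c * p := by
    intro c hc
    have h1 := (Real.isLittleO_log_id_atTop).bound hc
    have h2 : ∀ᶠ x : ℝ in atTop, Real.log x ≤ c * x := by
      filter_upwards [h1, eventually_ge_atTop 1] with x hx hx1
      rw [Real.norm_of_nonneg (Real.log_nonneg hx1), id, Real.norm_of_nonneg (by linarith)] at hx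
      exact hx
    exact tendsto_natCast_atTop_atTop.eventually h2
  have e6 : ∀ᶠ p : ℕ in atTop, Real.log p ^ 2 ≤ (p : ℝ) := by
    have h1 := (Real.isLittleO_pow_log_id_atTop (n := 2)).bound (show (0 : ℝ) < 1 by norm_num)
    have h2 : ∀ᶠ x : ℝ in atTop, Real.log x ^ 2 ≤ x := by
      filter_upwards [h1, eventually_ge_atTop 1] with x hx hx1
      rw [Real.norm_of_nonneg (by positivity), id, Real.norm_of_nonneg (by linarith), one_mul] at hx
      exact hx
    exact tendsto_natCast_atTop_atTop.eventually h2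
  set ε := (κ - 0.5834) * a with hε
  have hε0 : 0 < ε := mul_pos (by linarith) ha
  have hT : Tendsto (fun p : ℕ => a * (p : ℝ) / 2 - 1) atTop atTop := by
    have h1 : Tendsto (fun p : ℕ => (a / 2) * (p : ℝ)) atTop atTop :=
      tendsto_natCast_atTop_atTop.const_mul_atTop (by positivity)
    refine (tendsto_atTop_add_const_right _ (-1) h1).congr fun p => by ring
  have hexp := Real.tendsto_exp_atTop.comp hT
  have e7 : ∀ᶠ p : ℕ in atTop, 2 * (p : ℝ) ≤ Real.exp (a * p / 2 - 1) := by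
    have h1 : ∀ᶠ p : ℕ in atTop, 48 / a ^ 2 + 4 / a ≤ (p : ℝ) :=
      tendsto_natCast_atTop_atTop.eventually_ge_atTop _
    filter_upwards [h1, eventually_ge_atTop 1] with p hp hp1
    have hp1' : (1 : ℝ) ≤ p := by exact_mod_cast hp1
    have h4 : 4 ≤ a * p := by
      have : 4 / a ≤ p := by
        have : 0 < 48 / a ^ 2 := by positivity
        linarith
      rw [div_le_iff₀ ha] at this
      linarith
    have h2 := Real.quadratic_le_exp_of_nonneg (show 0 ≤ a * p / 2 - 1 by linarith)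
    have h5 : 48 ≤ a ^ 2 * p := by
      have : 48 / a ^ 2 ≤ p := by
        have : 0 < 4 / a := by positivity
        linarith
      rw [div_le_iff₀ (by positivity)] at this
      linarith
    have h6 : 48 * (p : ℝ) ≤ (a * p) ^ 2 := by nlinarith
    nlinarith
  filter_upwards [eventually_ge_atTop 3, log_nat_tendsto.eventually_ge_atTop (1 + 4 * D / ε + (2 * (D + 1)) / a),
    e6, hlog (1 / (|c₁| + 3)) (by positivity), hlog (ε / 4) (by positivity),
    tendsto_natCast_atTop_atTop.eventually_ge_atTop (4 * (|c₁| + 4) / ε + 12 * (a + |c₁|)),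
    hexp.eventually_ge_atTop (max X₀ 3), e7] with p h3 hl h2 hc hle hp hx hpe
  have hp3 : (3 : ℝ) ≤ p := by exact_mod_cast h3
  have hp0 : (0 : ℝ) < p := by linarith
  have t1 : 0 < 4 * D / ε := by positivity
  have t2 : 0 < (2 * (D + 1)) / a := by positivity
  have hl1 : 1 ≤ Real.log p := by linarith
  have hl0 : 0 < Real.log p := by linarith
  refine ⟨h3, hl1, h2, ?_, ?_, ?_, ?_, hx, hpe⟩
  · rw [le_div_iff₀ hl0]
    rw [one_div_mul_eq_div, le_div_iff₀ (by positivity)] at hc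
    linarith
  · rw [div_le_iff₀ (by positivity)]
    have : (2 * (D + 1)) / a ≤ Real.log p := by linarith
    rw [div_le_iff₀ ha] at this
    linarith
  · have h5 : D * (p / Real.log p) ≤ ε / 4 * p := by
      rw [mul_div_assoc', div_le_iff₀ hl0]
      have : 4 * D / ε ≤ Real.log p := by linarith
      rw [div_le_iff₀ hε0] at this
      nlinarith
    have h6 : |c₁| + 4 ≤ ε / 4 * p := by
      have : 4 * (|c₁| + 4) / ε ≤ p := by
        have : 0 ≤ 12 * (a + |c₁|) := by positivity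
        linarith
      rw [div_le_iff₀ hε0] at this
      linarith
    have h7 : (κ - 0.5834) * (a * p) = ε * p := by rw [hε]; ring
    rw [h7]
    have h8 : 0 < ε / 4 * p := by positivity
    linarith
  · have h5 : 12 * (a + |c₁|) ≤ p := by
      have : 0 ≤ 4 * (|c₁| + 4) / ε := by positivity
      linarith
    have h6 : |c₁| ≤ |c₁| * p := by nlinarith [abs_nonneg c₁]
    calc 6 * (a * p + |c₁|) ≤ 6 * ((a + |c₁|) * p) := by linarith
      _ ≤ p * p := by
          have : 6 * ((a + |c₁|) * p) = (6 * (a + |c₁|)) * p := by ring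
          rw [this]
          refine mul_le_mul_of_nonneg_right ?_ hp0.le
          have : 0 ≤ a + |c₁| := by positivity
          linarith
      _ = (p : ℝ) ^ 2 := by ring

/-- the number of primes in `(A / s, B / s]` -/
theorem per_s {a κ c₁ D : ℝ} (ha : 0 < a) (hκ : 0.5834 < κ) (hκ1 : κ ≤ 1) (hD : 0 < D) :
    ∃ K : ℝ, 0 < K ∧ ∀ᶠ p : ℕ in atTop, ∀ A B s : ℕ, |Real.log A - a * p| ≤ c₁ → 0 < s →
      (s : ℝ) ≤ Real.exp (D * (p / Real.log p)) → Real.exp (κ * (a * p)) ≤ (B : ℝ) - A →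
      (B : ℝ) - A ≤ A / (p : ℝ) ^ 2 →
      |pc (A / s) (B / s) - ((B : ℝ) - A) / s / (a * p)| ≤ ((B : ℝ) - A) / s / (a * p) * (K / Real.log p) := by
  obtain ⟨C, X₀, hC, hpc⟩ := pcount
  refine ⟨2 + 2 * ((D + 1) / a) + 8 * C / a, by positivity, ?_⟩
  filter_upwards [ev_params (X₀ := X₀) (c₁ := c₁) ha hκ hκ1 hD] with p hev A B s hA hs hsS hH1 hH2
  obtain ⟨p3, l1, l2, v1, v2, v3, v4, v5, v6⟩ := hev
  have hp3 : (3 : ℝ) ≤ p := by exact_mod_cast p3
  have hp0 : (0 : ℝ) < p := by linarith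
  have hs0 : (0 : ℝ) < s := by exact_mod_cast hs
  have hs1 : (1 : ℝ) ≤ s := by exact_mod_cast hs
  set l := Real.log p with hl
  have hl0 : 0 < l := by linarith
  obtain ⟨L, hL⟩ : ∃ L : ℝ, L = a * p := ⟨_, rfl⟩
  rw [← hL] at hA hH1 v3 v4 v5 v6 ⊢
  have hL0 : 0 < L := by rw [hL]; positivity
  have hc : c₁ ≤ |c₁| := le_abs_self c₁
  obtain ⟨A1, A2⟩ := abs_le.1 hA
  obtain ⟨w, hw⟩ : ∃ w : ℝ, w = p / l := ⟨_, rfl⟩
  rw [← hw] at hsS v1 v3
  have hw0 : 0 < w := by rw [hw]; positivity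
  have hDw : 0 < D * w := by positivity
  have hL2 : D * w + |c₁| + 4 + l ≤ L / 2 := by
    have : (κ - 0.5834) * L ≤ (1 / 2) * L := mul_le_mul_of_nonneg_right (by linarith) hL0.le
    linarith
  have hc0 := abs_nonneg c₁
  have hA0 : (0 : ℝ) < A := by
    rcases Nat.eq_zero_or_pos A with h | h
    · rw [h, Nat.cast_zero, Real.log_zero] at A1 A2
      linarith
    · exact_mod_cast h
  have hAexp : (A : ℝ) = Real.exp (Real.log A) := (Real.exp_log hA0).symm
  have hlogs : Real.log s ≤ D * w := by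
    rw [Real.log_le_iff_le_exp hs0]; exact hsS
  have hlogs0 : 0 ≤ Real.log s := Real.log_nonneg hs1
  -- the quotient
  set A' := A / s with hA'
  set B' := B / s with hB'
  obtain ⟨q1, q2⟩ := div_real (A := A) hs
  obtain ⟨q3, q4⟩ := div_real (A := B) hs
  rw [← hA'] at q1 q2
  rw [← hB'] at q3 q4
  have hAs : Real.exp (L / 2) ≤ (A : ℝ) / s := by
    rw [le_div_iff₀ hs0]
    calc Real.exp (L / 2) * s ≤ Real.exp (L / 2) * Real.exp (D * w) := by gcongr
      _ = Real.exp (L / 2 + D * w) := by rw [← Real.exp_add]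
      _ ≤ Real.exp (Real.log A) := Real.exp_le_exp.2 (by linarith)
      _ = A := Real.exp_log hA0
  have hexp2 : 2 * Real.exp (L / 2 - 1) ≤ Real.exp (L / 2) := by
    have h1 : Real.exp (L / 2) = Real.exp (L / 2 - 1) * Real.exp 1 := by rw [← Real.exp_add]; congr 1; ring
    have h2 := Real.exp_one_gt_d9
    rw [h1, mul_comm (2 : ℝ)]
    exact mul_le_mul_of_nonneg_left (by linarith) (Real.exp_pos _).le
  have v5a : X₀ ≤ Real.exp (L / 2 - 1) := (le_max_left _ _).trans v5
  have v5b : 3 ≤ Real.exp (L / 2 - 1) := (le_max_right _ _).trans v5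
  have hA'half : (A : ℝ) / s / 2 ≤ A' := by linarith
  have hA'0 : (0 : ℝ) < A' := by
    have : 0 < (A : ℝ) / s / 2 := by positivity
    linarith
  have hA'exp : Real.exp (L / 2 - 1) ≤ A' := by linarith
  have hlA'1 : L - (D + 1) * w ≤ Real.log A' := by
    have h1 : Real.log ((A : ℝ) / s / 2) ≤ Real.log A' := Real.log_le_log (by positivity) hA'half
    rw [Real.log_div (by positivity) (by norm_num), Real.log_div hA0.ne' hs0.ne'] at h1
    have h2 : Real.log 2 ≤ 1 := by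
      have := Real.log_two_lt_d9
      linarith
    have h3 : (D + 1) * w = D * w + w := by ring
    rw [h3]
    linarith
  have hlA'2 : Real.log A' ≤ L + |c₁| := by
    have h1 : (A' : ℝ) ≤ A := q2.trans (div_le_self hA0.le hs1)
    have h2 := Real.log_le_log hA'0 h1
    linarith
  set η := (D + 1) / (a * l) with hη
  have hηL : η * L = (D + 1) * w := by
    rw [hη, hL, hw]; field_simp
  have hm : |Real.log A' - L| ≤ η * L := by
    rw [hηL, abs_le]
    constructor
    · linarith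
    · have : (D + 1) * w = D * w + w := by ring
      rw [this]
      linarith
  have hH0 : 0 < (B : ℝ) - A := (Real.exp_pos _).trans_le hH1
  obtain ⟨H, hHd⟩ : ∃ H : ℝ, H = (B : ℝ) - A := ⟨_, rfl⟩
  rw [← hHd] at hH0 hH1 hH2 ⊢
  have hHs0 : 0 < H / s := by positivity
  have hdiff : |((B' : ℝ) - A') - H / s| ≤ 1 := by
    have h1 : H / s = (B : ℝ) / s - A / s := by rw [hHd, sub_div]
    rw [h1, abs_le]
    constructor <;> linarith
  obtain ⟨d1, d2⟩ := abs_le.1 hdiff
  -- `H / s` is large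
  have hHs : 9 * Real.exp (0.5834 * L + |c₁|) + p ≤ H / s := by
    have h1 : Real.exp (0.5834 * L + |c₁| + 4 + l) ≤ H / s := by
      rw [le_div_iff₀ hs0]
      calc Real.exp (0.5834 * L + |c₁| + 4 + l) * s ≤ Real.exp (0.5834 * L + |c₁| + 4 + l) * Real.exp (D * w) := by
            gcongr
        _ = Real.exp (0.5834 * L + |c₁| + 4 + l + D * w) := by rw [← Real.exp_add]
        _ ≤ Real.exp (κ * L) := Real.exp_le_exp.2 (by linarith)
        _ ≤ H := hH1
    refine le_trans ?_ h1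
    have h2 : Real.exp (0.5834 * L + |c₁| + 4 + l) = Real.exp (0.5834 * L + |c₁|) * (Real.exp 4 * p) := by
      rw [hl, ← Real.exp_log hp0, ← Real.exp_add, ← Real.exp_add, Real.exp_log hp0]
      congr 1
      ring
    rw [h2]
    have h3 : (16 : ℝ) ≤ Real.exp 4 := by
      have h4 : Real.exp 4 = Real.exp 1 ^ 4 := by rw [← Real.exp_nat_mul]; norm_num
      rw [h4]
      have h5 := Real.exp_one_gt_d9
      calc (16 : ℝ) = 2 ^ 4 := by norm_num
        _ ≤ Real.exp 1 ^ 4 := by gcongr; linarith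
    have h4 : 1 ≤ Real.exp (0.5834 * L + |c₁|) := Real.one_le_exp (by positivity)
    have h5 : (16 : ℝ) * p ≤ Real.exp 4 * p := by gcongr
    have h6 : Real.exp (0.5834 * L + |c₁|) * (16 * p) ≤ Real.exp (0.5834 * L + |c₁|) * (Real.exp 4 * p) := by
      gcongr
    have h7 : Real.exp (0.5834 * L + |c₁|) * 3 ≤ Real.exp (0.5834 * L + |c₁|) * p :=
      mul_le_mul_of_nonneg_left hp3 (by linarith)
    have h8 : 1 * (p : ℝ) ≤ Real.exp (0.5834 * L + |c₁|) * p := mul_le_mul_of_nonneg_right h4 hp0.le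
    linarith
  have hE1 : 1 ≤ Real.exp (0.5834 * L + |c₁|) := Real.one_le_exp (by positivity)
  have hrp : (A' : ℝ) ^ (0.5834 : ℝ) ≤ Real.exp (0.5834 * L + |c₁|) := by
    rw [Real.rpow_def_of_pos hA'0, Real.exp_le_exp]
    linarith
  have hlow : 8 * (A' : ℝ) ^ (0.5834 : ℝ) ≤ (B' : ℝ) - A' := by linarith
  have hpHs : (p : ℝ) ≤ H / s := by linarith
  have hlA'0 : 0 < Real.log A' := Real.log_pos (by linarith)
  have hhigh : (B' : ℝ) - A' ≤ A' / Real.log A' := by
    rw [le_div_iff₀ hlA'0]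
    have h1 : H / s ≤ 2 * A' / (p : ℝ) ^ 2 := by
      have : H / s ≤ (A : ℝ) / s / (p : ℝ) ^ 2 := by
        rw [div_right_comm]
        gcongr
      refine this.trans ?_
      gcongr
      linarith
    have h2 : (1 : ℝ) ≤ A' / (p : ℝ) ^ 2 := by
      have h3 : 1 ≤ H / s / 3 := by linarith
      have h4 : H / s / 3 ≤ A' / (p : ℝ) ^ 2 := by
        have : 2 * (A' : ℝ) / (p : ℝ) ^ 2 = 2 * (A' / (p : ℝ) ^ 2) := by ring
        have h5 : 0 < (A' : ℝ) / (p : ℝ) ^ 2 := by positivity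
        linarith
      linarith
    have h3 : (B' : ℝ) - A' ≤ 3 * (A' / (p : ℝ) ^ 2) := by
      have : 2 * (A' : ℝ) / (p : ℝ) ^ 2 = 2 * (A' / (p : ℝ) ^ 2) := by ring
      linarith
    calc ((B' : ℝ) - A') * Real.log A' ≤ 3 * (A' / (p : ℝ) ^ 2) * (L + |c₁|) := by
          refine mul_le_mul h3 hlA'2 hlA'0.le (by positivity)
      _ = A' * ((3 * (L + |c₁|)) / (p : ℝ) ^ 2) := by ring
      _ ≤ A' * 1 := by
          refine mul_le_mul_of_nonneg_left ?_ hA'0.le
          rw [div_le_one (by positivity)]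
          have : 0 ≤ 3 * (L + |c₁|) := by positivity
          linarith
      _ = A' := mul_one _
  have hcnt := hpc A' B' (v5a.trans hA'exp) hlow hhigh
  have hfin := per_alg (N := pc A' B') (D := (B' : ℝ) - A') (m := Real.log A') (h := H / s) (L := L)
    (C := C) (η := η) (p := p) hL0 hC hp0 (by rw [hη]; positivity) v2 hm
    (hdiff.trans (by rw [le_div_iff₀ hp0]; linarith)) (by linarith) hHs0 hcnt
  refine hfin.trans ?_
  refine mul_le_mul_of_nonneg_left ?_ (by positivity)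
  have hlp : l ≤ p := by
    have : l ≤ l * l := le_mul_of_one_le_left hl0.le l1
    rw [sq] at l2
    linarith
  have g1 : 2 / (p : ℝ) ≤ 2 / l := by gcongr
  have g2 : 2 * η = 2 * ((D + 1) / a) / l := by rw [hη]; field_simp
  have g3 : 8 * C / L ≤ 8 * C / a / l := by
    rw [hL, div_div]
    gcongr
  calc 2 / (p : ℝ) + 2 * η + 8 * C / L ≤ 2 / l + 2 * ((D + 1) / a) / l + 8 * C / a / l := by
        rw [g2]; linarith
    _ = _ := by ring

/-- **The number of integers with prime `p`-rough part in a short interval.** -/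
theorem rough_count {a κ : ℝ} (c₁ : ℝ) (ha : 0 < a) (hκ : 0.5834 < κ) (hκ1 : κ ≤ 1) :
    ∃ K : ℝ, 0 < K ∧ ∀ᶠ p : ℕ in atTop, ∀ A B : ℕ, |Real.log A - a * p| ≤ c₁ →
      Real.exp (κ * (a * p)) ≤ (B : ℝ) - A → (B : ℝ) - A ≤ A / (p : ℝ) ^ 2 →
      |rc p A B - ((B : ℝ) - A) * (Real.exp Real.eulerMascheroniConstant / a * (Real.log p / p))| ≤
        K * (((B : ℝ) - A) / p) := by
  obtain ⟨C1, hC1, hV⟩ := VV_rate
  obtain ⟨C2, hC2, hZ⟩ := ZZ_rate
  set G := Real.exp Real.eulerMascheroniConstant with hG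
  have hG0 : 0 < G := Real.exp_pos _
  set D := 2 * (C2 + 1) with hD
  have hD0 : 0 < D := by positivity
  obtain ⟨K₁, hK₁, hps⟩ := per_s (c₁ := c₁) ha hκ hκ1 hD0
  refine ⟨(K₁ * (G + C1) + C1 + 1) / a + 2, by positivity, ?_⟩
  filter_upwards [hps, ev_params (X₀ := 0) (c₁ := c₁) ha hκ hκ1 hD0] with p hps hev A B hA hH1 hH2
  obtain ⟨p3, l1, l2, v1, v2, v3, v4, v5, v6⟩ := hev
  have hp3 : (3 : ℝ) ≤ p := by exact_mod_cast p3
  have hp0 : (0 : ℝ) < p := by linarith
  have hZp := hZ p (by omega)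
  obtain ⟨hV1, hV2⟩ := abs_le.1 (hV p (by omega))
  have hps' := fun s hs0 hs => hps A B s hA hs0 hs hH1 hH2
  set l := Real.log p with hl
  have hl0 : 0 < l := by linarith
  obtain ⟨L, hL⟩ : ∃ L : ℝ, L = a * p := ⟨_, rfl⟩
  rw [← hL] at hA hH1 v3 v4 v5 v6 hps'
  have hL0 : 0 < L := by rw [hL]; positivity
  obtain ⟨w, hw⟩ : ∃ w : ℝ, w = p / l := ⟨_, rfl⟩
  rw [← hw] at v1 v3 hZp hps'
  have hw0 : 0 < w := by rw [hw]; positivity
  obtain ⟨A1, A2⟩ := abs_le.1 hA
  have hc : c₁ ≤ |c₁| := le_abs_self c₁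
  have hc0 := abs_nonneg c₁
  have hDw : 0 < D * w := by positivity
  have hL2 : D * w + |c₁| + 4 + l ≤ L / 2 := by
    have : (κ - 0.5834) * L ≤ (1 / 2) * L := mul_le_mul_of_nonneg_right (by linarith) hL0.le
    linarith
  have hA0 : (0 : ℝ) < A := by
    rcases Nat.eq_zero_or_pos A with h | h
    · rw [h, Nat.cast_zero, Real.log_zero] at A1 A2
      linarith
    · exact_mod_cast h
  obtain ⟨H, hHd⟩ : ∃ H : ℝ, H = (B : ℝ) - A := ⟨_, rfl⟩
  have hH0 : 0 < H := by rw [hHd]; exact (Real.exp_pos _).trans_le hH1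
  have hAB : A ≤ B := by
    have : (A : ℝ) ≤ B := by linarith
    exact_mod_cast this
  set S := Real.exp (D * w) with hS
  have hS1 : 1 ≤ S := Real.one_le_exp hDw.le
  have hS0 : 0 < S := by linarith
  have hpexp : (p : ℝ) = Real.exp l := (Real.exp_log hp0).symm
  have hSp : S * p ≤ (B : ℝ) - A := by
    refine le_trans ?_ hH1
    rw [hS, hpexp, ← Real.exp_add, Real.exp_le_exp]
    have h1 : 0 ≤ 0.5834 * L := by positivity
    linarith
  have hpS : (p : ℝ) * S ≤ A := by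
    have : (B : ℝ) - A ≤ A := by
      exact hH2.trans (div_le_self hA0.le (one_le_pow₀ (by linarith)))
    rw [mul_comm]
    linarith
  have hSB : S ≤ B := by
    have h1 : S ≤ p * S := le_mul_of_one_le_left hS0.le (by linarith)
    have h2 : (A : ℝ) ≤ B := by exact_mod_cast hAB
    linarith
  rw [rc_split hS1 hpS hSB]
  have htail := tail_count (p := p) (by omega) hAB hS1 hSp
  -- the tail factor
  have hE : S ^ (-(1 / 2) : ℝ) * ZZ p ≤ 1 / p := by
    have h8 : S ^ (-(1 / 2) : ℝ) = Real.exp (-((C2 + 1) * w)) := by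
      rw [hS, ← Real.exp_mul, hD]
      congr 1
      ring
    rw [h8]
    calc Real.exp (-((C2 + 1) * w)) * ZZ p ≤ Real.exp (-((C2 + 1) * w)) * Real.exp (C2 * w) := by
          refine mul_le_mul_of_nonneg_left ?_ (Real.exp_pos _).le
          exact hZp
      _ = Real.exp (-w) := by rw [← Real.exp_add]; congr 1; ring
      _ ≤ Real.exp (-l) := by
          refine Real.exp_le_exp.2 (neg_le_neg ?_)
          rw [hw, le_div_iff₀ hl0, ← sq]
          exact l2
      _ = 1 / p := by rw [Real.exp_neg, hl, Real.exp_log hp0, one_div]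
  have hE0 : 0 ≤ S ^ (-(1 / 2) : ℝ) * ZZ p := mul_nonneg (by positivity) (ZZ_nonneg p)
  set R := (((Ioc A B).filter (fun m => (roughPart p m).Prime ∧ ¬ (((m / roughPart p m : ℕ) : ℝ) ≤ S))).card : ℝ)
    with hR
  have hR0 : 0 ≤ R := Nat.cast_nonneg _
  rw [← hHd] at htail hps' ⊢
  have hRle : R ≤ 2 * (H / p) := by
    calc R ≤ 2 * H * (S ^ (-(1 / 2) : ℝ) * ZZ p) := htail
      _ ≤ 2 * H * (1 / p) := by gcongr
      _ = _ := by ring
  -- the main sum
  have hVlow := VV_le p hS0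
  have hVup : ∑ n ∈ SMz p S, (n : ℝ)⁻¹ ≤ VV p := sum_le_VV p _ fun n hn => ((mem_SMz hS0.le).1 hn).1
  set sg := ∑ n ∈ SMz p S, (n : ℝ)⁻¹ with hsg
  have hsg0 : 0 ≤ sg := Finset.sum_nonneg fun _ _ => by positivity
  have hmain : |∑ s ∈ SMz p S, pc (A / s) (B / s) - H / L * sg| ≤ H / L * (K₁ / l) * sg := by
    rw [hsg, Finset.mul_sum, Finset.mul_sum, ← Finset.sum_sub_distrib]
    refine (Finset.abs_sum_le_sum_abs _ _).trans (Finset.sum_le_sum fun s hs => ?_)
    have hs1 := (mem_SMz hS0.le).1 hs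
    have h1 := hps' s (SM_pos hs1.1) hs1.2
    have e1 : H / L * (s : ℝ)⁻¹ = H / s / L := by ring
    have e2 : H / L * (K₁ / l) * (s : ℝ)⁻¹ = H / s / L * (K₁ / l) := by ring
    rw [e1, e2]
    exact h1
  have hsgu : sg ≤ (G + C1) * l := by
    have : C1 ≤ C1 * l := le_mul_of_one_le_right hC1.le l1
    linarith
  have hsg2 : |sg - G * l| ≤ C1 + 1 / p := by
    rw [abs_le]; constructor <;> linarith [show (0 : ℝ) < 1 / p by positivity]
  have h1p : 1 / (p : ℝ) ≤ 1 := by rw [div_le_one hp0]; linarith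
  have hHL : 0 < H / L := by positivity
  have e1 : H / L * (K₁ / l) * sg ≤ K₁ * (G + C1) / a * (H / p) := by
    calc H / L * (K₁ / l) * sg ≤ H / L * (K₁ / l) * ((G + C1) * l) := by gcongr
      _ = K₁ * (G + C1) / a * (H / p) := by rw [hL]; field_simp
  have e2 : |H / L * sg - H * (G / a * (l / p))| ≤ (C1 + 1) / a * (H / p) := by
    have e3 : H / L * sg - H * (G / a * (l / p)) = H / L * (sg - G * l) := by
      rw [hL]; field_simp
    rw [e3, abs_mul, abs_of_pos hHL]
    calc H / L * |sg - G * l| ≤ H / L * (C1 + 1) := by gcongr; linarith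
      _ = (C1 + 1) / a * (H / p) := by rw [hL]; field_simp
  set M := ∑ s ∈ SMz p S, pc (A / s) (B / s) with hM
  obtain ⟨m1, m2⟩ := abs_le.1 hmain
  obtain ⟨n1, n2⟩ := abs_le.1 e2
  have hKe : ((K₁ * (G + C1) + C1 + 1) / a + 2) * (H / p) =
      K₁ * (G + C1) / a * (H / p) + (C1 + 1) / a * (H / p) + 2 * (H / p) := by ring
  rw [hKe, abs_le]
  constructor <;> linarith

end Pool.Agent.H39x.LP
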