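import Pool.Agent.H39x.LP.Cnt
import Pool.Agent.TH888.R.Mean

/-!
# Project LP: integers with prime rough part in short intervals, combinatorial part
-/

set_option autoImplicit false

namespace Pool.Agent.H39x.LP

open Finset Filter Topology
open Pool.Agent.H305R2 (SM SMz mem_SMz SM_pos VV ZZ VV_nonneg ZZ_nonneg VV_le tail_le sum_le_VV roughPart
  roughPart_prime roughPart_mul sum_rough_eq)

/-- a smooth number has a smooth divisor in every interval `[S, S p]` below it -/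
theorem smooth_div {p : ℕ} (hp : 1 ≤ p) {S : ℝ} (hS : 1 ≤ S) : ∀ s : ℕ, s ∈ SM p → S ≤ s →
    ∃ d ∈ SM p, d ∣ s ∧ S ≤ d ∧ (d : ℝ) ≤ S * p := by
  intro s
  induction s using Nat.strong_induction_on with
  | _ s ih =>
    intro hs hSs
    have hp1 : (1 : ℝ) ≤ p := by exact_mod_cast hp
    rcases le_or_gt (s : ℝ) (S * p) with h1 | h1
    · exact ⟨s, hs, dvd_rfl, hSs, h1⟩
    have h2 : 1 < s := by
      have : (1 : ℝ) < s := by nlinarith
      exact_mod_cast this
    obtain ⟨r, hr, hrd⟩ := Nat.exists_prime_and_dvd h2.ne'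
    have hrp : r ≤ p := by
      have := hs.2 r ((Nat.mem_primeFactorsList (SM_pos hs).ne').2 ⟨hr, hrd⟩)
      omega
    obtain ⟨t, ht⟩ := hrd
    have hts : t ∣ s := ⟨r, by rw [ht, mul_comm]⟩
    have htm : t ∈ SM p := Nat.mem_smoothNumbers_of_dvd hs hts
    have ht0 : 0 < t := SM_pos htm
    have hlt : t < s := by
      rw [ht]
      have := hr.two_le
      nlinarith
    have hSt : S ≤ t := by
      have h3 : (s : ℝ) = r * t := by exact_mod_cast ht
      have h4 : (r : ℝ) ≤ p := by exact_mod_cast hrp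
      have h5 : (0 : ℝ) < p := by linarith
      have h6 : S * p ≤ p * t := by
        calc S * p ≤ s := h1.le
          _ = r * t := h3
          _ ≤ p * t := by gcongr
      have h7 : p * S ≤ p * (t : ℝ) := by linarith
      exact le_of_mul_le_mul_left h7 h5
    obtain ⟨d, h4, h5, h6, h7⟩ := ih t hlt htm hSt
    exact ⟨d, h4, h5.trans hts, h6, h7⟩

theorem div_real {A s : ℕ} (hs : 0 < s) : (A : ℝ) / s - 1 < ((A / s : ℕ) : ℝ) ∧ ((A / s : ℕ) : ℝ) ≤ (A : ℝ) / s := by
  have hs0 : (0 : ℝ) < s := by exact_mod_cast hs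
  refine ⟨?_, Nat.cast_div_le⟩
  rw [sub_lt_iff_lt_add, div_lt_iff₀ hs0]
  have h1 := Nat.div_add_mod A s
  have h2 := Nat.mod_lt A hs
  have h3 : A < (A / s + 1) * s := by
    calc A = s * (A / s) + A % s := h1.symm
      _ < s * (A / s) + s := by omega
      _ = (A / s + 1) * s := by ring
  exact_mod_cast h3

theorem dvd_card {A B d : ℕ} (hd : 0 < d) (hAB : A ≤ B) :
    (((Ioc A B).filter (fun m => d ∣ m)).card : ℝ) ≤ ((B : ℝ) - A) / d + 1 := by
  have h1 : ((Ioc A B).filter (fun m => d ∣ m)).card + ((Ioc 0 A).filter (fun m => d ∣ m)).card =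
      ((Ioc 0 B).filter (fun m => d ∣ m)).card := by
    rw [← Finset.card_union_of_disjoint]
    · congr 1
      ext m
      simp only [mem_union, mem_filter, mem_Ioc]
      constructor
      · rintro (⟨h1, h2⟩ | ⟨h1, h2⟩)
        · exact ⟨⟨by omega, h1.2⟩, h2⟩
        · exact ⟨⟨h1.1, by omega⟩, h2⟩
      · rintro ⟨h1, h2⟩
        by_cases h3 : A < m
        · exact Or.inl ⟨⟨h3, h1.2⟩, h2⟩
        · exact Or.inr ⟨⟨h1.1, by omega⟩, h2⟩
    · rw [Finset.disjoint_left]
      intro m hm hm'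
      simp only [mem_filter, mem_Ioc] at hm hm'
      omega
  rw [Nat.Ioc_filter_dvd_card_eq_div, Nat.Ioc_filter_dvd_card_eq_div] at h1
  have h2 : (((Ioc A B).filter (fun m => d ∣ m)).card : ℝ) + ((A / d : ℕ) : ℝ) = ((B / d : ℕ) : ℝ) := by
    exact_mod_cast h1
  have h3 := (div_real (A := A) hd).1
  have h4 := (div_real (A := B) hd).2
  rw [sub_div]
  linarith

/-- the number of integers in `(A, B]` with prime `p`-rough part -/
noncomputable def rc (p A B : ℕ) : ℝ := (((Ioc A B).filter (fun m => (roughPart p m).Prime)).card : ℝ)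

/-- few integers in a short interval have a large smooth part -/
theorem tail_count {p A B : ℕ} (hp : 1 ≤ p) (hAB : A ≤ B) {S : ℝ} (hS : 1 ≤ S) (hSp : S * p ≤ (B : ℝ) - A) :
    (((Ioc A B).filter (fun m => (roughPart p m).Prime ∧ ¬ (((m / roughPart p m : ℕ) : ℝ) ≤ S))).card : ℝ) ≤
      2 * ((B : ℝ) - A) * (S ^ (-(1 / 2) : ℝ) * ZZ p) := by
  classical
  have hp1 : (1 : ℝ) ≤ p := by exact_mod_cast hp
  set H := (B : ℝ) - A with hH
  have hH0 : 0 < H := by nlinarith
  set T := (SMz p (S * p)).filter (fun s : ℕ => S ≤ (s : ℝ)) with hT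
  have hSp0 : 0 ≤ S * p := by positivity
  have hTm : ∀ n ∈ T, n ∈ SM p ∧ S ≤ (n : ℝ) := by
    intro n hn
    rw [hT, mem_filter, mem_SMz hSp0] at hn
    exact ⟨hn.1.1, hn.2⟩
  have hsub : (Ioc A B).filter (fun m => (roughPart p m).Prime ∧ ¬ (((m / roughPart p m : ℕ) : ℝ) ≤ S)) ⊆
      T.biUnion (fun s => (Ioc A B).filter (fun m => s ∣ m)) := by
    intro m hm
    rw [mem_filter] at hm
    obtain ⟨hm1, hpr, hSm⟩ := hm
    obtain ⟨_, s, hs, he⟩ := roughPart_prime hpr
    have hdiv : m / roughPart p m = s := Nat.div_eq_of_eq_mul_left hpr.pos he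
    rw [hdiv, not_le] at hSm
    obtain ⟨d, hd1, hd2, hd3, hd4⟩ := smooth_div hp hS s hs hSm.le
    rw [mem_biUnion]
    refine ⟨d, ?_, ?_⟩
    · rw [hT, mem_filter, mem_SMz hSp0]
      exact ⟨⟨hd1, hd4⟩, hd3⟩
    · rw [mem_filter]
      exact ⟨hm1, hd2.trans ⟨_, he⟩⟩
  have hcard : ∀ s ∈ T, (((Ioc A B).filter (fun m => s ∣ m)).card : ℝ) ≤ 2 * H * (s : ℝ)⁻¹ := by
    intro s hs
    have hs1 := hTm s hs
    have hs0 : (0 : ℝ) < s := by exact_mod_cast SM_pos hs1.1
    rw [hT, mem_filter, mem_SMz hSp0] at hs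
    refine (dvd_card (SM_pos hs1.1) hAB).trans ?_
    have h1 : 1 ≤ H * (s : ℝ)⁻¹ := by
      rw [← div_eq_mul_inv, le_div_iff₀ hs0, one_mul]
      exact hs.1.2.trans hSp
    rw [← hH, div_eq_mul_inv]
    linarith
  calc _ ≤ ((T.biUnion (fun s => (Ioc A B).filter (fun m => s ∣ m))).card : ℝ) := by
        exact_mod_cast Finset.card_le_card hsub
    _ ≤ ∑ s ∈ T, (((Ioc A B).filter (fun m => s ∣ m)).card : ℝ) := by
        exact_mod_cast Finset.card_biUnion_le
    _ ≤ ∑ s ∈ T, 2 * H * (s : ℝ)⁻¹ := Finset.sum_le_sum hcard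
    _ = 2 * H * ∑ s ∈ T, (s : ℝ)⁻¹ := by rw [Finset.mul_sum]
    _ ≤ _ := mul_le_mul_of_nonneg_left (tail_le p (by linarith) T hTm) (by positivity)

theorem rc_split {p A B : ℕ} {S : ℝ} (hS : 1 ≤ S) (hA : (p : ℝ) * S ≤ A) (hSB : S ≤ B) :
    rc p A B = ∑ s ∈ SMz p S, pc (A / s) (B / s) +
      (((Ioc A B).filter (fun m => (roughPart p m).Prime ∧ ¬ (((m / roughPart p m : ℕ) : ℝ) ≤ S))).card : ℝ) := by
  classical
  have hS0 : 0 ≤ S := by linarith
  have h1 : rc p A B =
      (((Ioc A B).filter (fun m => (roughPart p m).Prime ∧ ((m / roughPart p m : ℕ) : ℝ) ≤ S)).card : ℝ) +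
      (((Ioc A B).filter (fun m => (roughPart p m).Prime ∧ ¬ (((m / roughPart p m : ℕ) : ℝ) ≤ S))).card : ℝ) := by
    unfold rc
    rw [← Nat.cast_add]
    congr 1
    rw [← Finset.filter_filter, ← Finset.filter_filter]
    exact (Finset.card_filter_add_card_filter_not _).symm
  rw [h1]
  congr 1
  have h2 : (((Ioc A B).filter (fun m => (roughPart p m).Prime ∧ ((m / roughPart p m : ℕ) : ℝ) ≤ S)).card : ℝ) =
      ∑ m ∈ (Ioc A B).filter (fun m => (roughPart p m).Prime),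
        if ((m / roughPart p m : ℕ) : ℝ) ≤ S then (1 : ℝ) else 0 := by
    rw [← Finset.filter_filter, Finset.sum_ite, Finset.sum_const_zero, add_zero, Finset.sum_const,
      nsmul_eq_mul, mul_one]
  rw [h2, sum_rough_eq p A B (fun m => if ((m / roughPart p m : ℕ) : ℝ) ≤ S then (1 : ℝ) else 0)]
  have hB0 : (0 : ℝ) ≤ B := Nat.cast_nonneg B
  have h3 : ∀ s ∈ SMz p B, ∑ q ∈ (Ioc (A / s) (B / s)).filter (fun q => q.Prime ∧ p < q),
      (if ((s * q / roughPart p (s * q) : ℕ) : ℝ) ≤ S then (1 : ℝ) else 0) =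
      if (s : ℝ) ≤ S then pc (A / s) (B / s) else 0 := by
    intro s hs
    have hs1 := ((mem_SMz hB0).1 hs).1
    have h4 : ∀ q ∈ (Ioc (A / s) (B / s)).filter (fun q => q.Prime ∧ p < q),
        (if ((s * q / roughPart p (s * q) : ℕ) : ℝ) ≤ S then (1 : ℝ) else 0) = if (s : ℝ) ≤ S then 1 else 0 := by
      intro q hq
      rw [mem_filter] at hq
      rw [roughPart_mul hs1 hq.2.1 hq.2.2, Nat.mul_div_cancel s hq.2.1.pos]
    rw [Finset.sum_congr rfl h4, Finset.sum_const, nsmul_eq_mul]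
    split_ifs with h5
    · rw [mul_one]
      unfold pc
      congr 2
      ext q
      simp only [mem_filter, mem_Ioc, and_congr_right_iff, and_iff_left_iff_imp]
      intro hq _
      have hs0 := SM_pos hs1
      have hs0' : (0 : ℝ) < s := by exact_mod_cast hs0
      have h6 : p ≤ A / s := by
        rw [Nat.le_div_iff_mul_le hs0]
        have : (p : ℝ) * s ≤ A := (mul_le_mul_of_nonneg_left h5 (Nat.cast_nonneg p)).trans hA
        exact_mod_cast this
      omega
    · rw [mul_zero]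
  rw [Finset.sum_congr rfl h3, ← Finset.sum_filter]
  refine Finset.sum_congr ?_ fun _ _ => rfl
  ext s
  rw [mem_filter, mem_SMz hB0, mem_SMz hS0]
  constructor
  · rintro ⟨⟨h4, _⟩, h5⟩; exact ⟨h4, h5⟩
  · rintro ⟨h4, h5⟩; exact ⟨⟨h4, h5.trans hSB⟩, h5⟩

end Pool.Agent.H39x.LP
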